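import Mathlib
import Pool.Graph.R_seed8.W245.EB.Sub

/-!
# Trivial relations, and affine substitutions
-/

set_option autoImplicit false

namespace Pool.Agent.Helper71.ET

open Finset Module MvPolynomial
open Pool.Agent.W245.EB (totalDegree_bind_le)

variable {κ C : Type} [Field κ] [Field C] [Algebra κ C]

/-- every relation of degree at most `D` between `θ` and `x` is an identity in `x` -/
def OTR (κ : Type) {C : Type} [Field κ] [Field C] [Algebra κ C] (D : ℕ) {P σ : Type} (θ : P → C)
    (x : σ → C) : Prop :=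
  ∀ Q : MvPolynomial (P ⊕ σ) κ, Q.totalDegree ≤ D → aeval (Sum.elim θ x) Q = 0 →
    ∀ y : σ → C, aeval (Sum.elim θ y) Q = 0

/-- the affine combinations -/
def Aff (κ : Type) {C : Type} [Field κ] [Field C] [Algebra κ C] {P : Type} (θ : P → C) :
    Submodule κ C :=
  Submodule.span κ (insert 1 (Set.range θ))

theorem Aff.one {P : Type} (θ : P → C) : (1 : C) ∈ Aff κ θ := Submodule.subset_span (Or.inl rfl)

theorem Aff.mem {P : Type} (θ : P → C) (p : P) : θ p ∈ Aff κ θ :=
  Submodule.subset_span (Or.inr ⟨p, rfl⟩)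

theorem Aff.poly {P : Type} {θ : P → C} {w : C} (hw : w ∈ Aff κ θ) :
    ∃ g : MvPolynomial P κ, g.totalDegree ≤ 1 ∧ aeval θ g = w := by
  classical
  induction hw using Submodule.span_induction with
  | mem x hx =>
    rcases hx with rfl | ⟨p, rfl⟩
    · exact ⟨1, by simp, by simp⟩
    · exact ⟨X p, by rw [totalDegree_X], by simp⟩
  | zero => exact ⟨0, by simp, by simp⟩
  | add x y _ _ hx hy =>
    obtain ⟨g, hg, rfl⟩ := hx
    obtain ⟨g', hg', rfl⟩ := hy
    exact ⟨g + g', (totalDegree_add _ _).trans (max_le hg hg'), map_add _ _ _⟩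
  | smul a x _ hx =>
    obtain ⟨g, hg, rfl⟩ := hx
    exact ⟨a • g, (totalDegree_smul_le _ _).trans hg, map_smul _ _ _⟩

theorem Aff.mono {P P' : Type} {θ : P → C} {θ' : P' → C} (h : ∀ p, θ p ∈ Aff κ θ') :
    Aff κ θ ≤ Aff κ θ' := by
  refine Submodule.span_le.2 ?_
  rintro _ (rfl | ⟨p, rfl⟩)
  · exact Aff.one θ'
  · exact h p

theorem aeval_bind {P P' : Type} (v : P' → C) (G : P → MvPolynomial P' κ) (Q : MvPolynomial P κ) :
    aeval v (bind₁ G Q) = aeval (fun p => aeval v (G p)) Q :=
  aeval_bind₁ v G Q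

/-- affine substitutions -/
theorem OTR.affine {D : ℕ} {P σ σ' : Type} [Fintype σ] {θ : P → C} {x : σ → C}
    (h : OTR κ D θ x) {x' : σ' → C} (A : σ' → σ → κ) (w : σ' → C) (hw : ∀ i, w i ∈ Aff κ θ)
    (hx' : ∀ i, x' i = ∑ s, algebraMap κ C (A i s) * x s + w i)
    (hA : ∀ y' : σ' → C, ∃ y : σ → C, ∀ i, ∑ s, algebraMap κ C (A i s) * y s = y' i) :
    OTR κ D θ x' := by
  classical
  intro Q hQ h0 y'
  choose g hg1 hg2 using fun i => Aff.poly (hw i)
  let G : P ⊕ σ' → MvPolynomial (P ⊕ σ) κ := Sum.elim (fun p => X (Sum.inl p))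
    (fun i => ∑ s, MvPolynomial.C (A i s) * X (Sum.inr s) + rename Sum.inl (g i))
  have hG1 : ∀ p, (G p).totalDegree ≤ 1 := by
    rintro (p | i)
    · simp only [G, Sum.elim_inl]
      rw [totalDegree_X]
    · simp only [G, Sum.elim_inr]
      refine (totalDegree_add _ _).trans (max_le ?_ ((totalDegree_rename_le _ _).trans (hg1 i)))
      refine totalDegree_finsetSum_le fun s _ => ?_
      refine (totalDegree_mul _ _).trans ?_
      rw [totalDegree_C, totalDegree_X]
  have hGe : ∀ y : σ → C, (fun p => aeval (Sum.elim θ y) (G p)) =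
      Sum.elim θ (fun i => ∑ s, algebraMap κ C (A i s) * y s + w i) := by
    intro y
    funext p
    rcases p with p | i
    · simp only [G, Sum.elim_inl, aeval_X]
    · simp only [G, Sum.elim_inr, map_add, map_sum, map_mul, aeval_X, aeval_C, aeval_rename]
      rw [← hg2 i]
      rfl
  obtain ⟨y, hy⟩ := hA (fun i => y' i - w i)
  have h1 := h (bind₁ G Q) ((totalDegree_bind_le G hG1 Q).trans hQ) (by
    rw [aeval_bind, hGe]
    have : (fun i => ∑ s, algebraMap κ C (A i s) * x s + w i) = x' := funext fun i => (hx' i).symm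
    rw [this]
    exact h0) y
  rw [aeval_bind, hGe] at h1
  have : (fun i => ∑ s, algebraMap κ C (A i s) * y s + w i) = y' := funext fun i => by
    rw [hy i, sub_add_cancel]
  rwa [this] at h1

/-- subfamilies -/
theorem OTR.comp {D : ℕ} {P σ σ' : Type} {θ : P → C} {x : σ → C} (h : OTR κ D θ x) {f : σ' → σ}
    (hf : Function.Injective f) : OTR κ D θ (x ∘ f) := by
  classical
  intro Q hQ h0 y'
  have h1 := h (rename (Sum.map id f) Q) ((totalDegree_rename_le _ _).trans hQ) (by
    rw [aeval_rename]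
    have : Sum.elim θ x ∘ Sum.map id f = Sum.elim θ (x ∘ f) := by
      funext p
      rcases p with p | p <;> rfl
    rw [this]
    exact h0) (Function.extend f y' 0)
  rw [aeval_rename] at h1
  have : Sum.elim θ (Function.extend f y' 0) ∘ Sum.map id f = Sum.elim θ y' := by
    funext p
    rcases p with p | p
    · rfl
    · simp only [Function.comp_apply, Sum.map_inr, Sum.elim_inr]
      exact hf.extend_apply y' 0 p
  rwa [this] at h1

/-- generic extensions -/
theorem OTR.extend [Infinite κ] {D : ℕ} {P P' σ τ : Type} [Finite τ] {θ : P → C} {θ' : P' → C}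
    {x : σ → C} {z : τ → C} (h : OTR κ D θ x) (h' : OTR κ D θ' z) (hθ : ∀ p, θ p ∈ Aff κ θ')
    (hx : ∀ s, x s ∈ Aff κ θ') : OTR κ D θ (Sum.elim x z) := by
  classical
  intro Q hQ h0 y'
  choose g hg1 hg2 using fun p => Aff.poly (hθ p)
  choose g' hg1' hg2' using fun s => Aff.poly (hx s)
  let G : P ⊕ (σ ⊕ τ) → MvPolynomial (P' ⊕ τ) κ := Sum.elim (fun p => rename Sum.inl (g p))
    (Sum.elim (fun s => rename Sum.inl (g' s)) (fun t => X (Sum.inr t)))
  have hG1 : ∀ p, (G p).totalDegree ≤ 1 := by
    rintro (p | s | t)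
    · exact (totalDegree_rename_le _ _).trans (hg1 p)
    · exact (totalDegree_rename_le _ _).trans (hg1' s)
    · simp only [G, Sum.elim_inr]
      rw [totalDegree_X]
  have hGe : ∀ Z : τ → C, (fun p => aeval (Sum.elim θ' Z) (G p)) = Sum.elim θ (Sum.elim x Z) := by
    intro Z
    funext p
    rcases p with p | s | t
    · simp only [G, Sum.elim_inl, aeval_rename]
      rw [← hg2 p]
      rfl
    · simp only [G, Sum.elim_inl, Sum.elim_inr, aeval_rename]
      rw [← hg2' s]
      rfl
    · simp only [G, Sum.elim_inr, aeval_X]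
  have h1 : ∀ Z : τ → C, aeval (Sum.elim θ (Sum.elim x Z)) Q = 0 := by
    intro Z
    have h2 := h' (bind₁ G Q) ((totalDegree_bind_le G hG1 Q).trans hQ) (by
      rw [aeval_bind, hGe]
      exact h0) Z
    rwa [aeval_bind, hGe] at h2
  -- constant values
  have h2 : ∀ (c : τ → κ) (y : σ → C),
      aeval (Sum.elim θ (Sum.elim y (fun t => algebraMap κ C (c t)))) Q = 0 := by
    intro c y
    let G' : P ⊕ (σ ⊕ τ) → MvPolynomial (P ⊕ σ) κ := Sum.elim (fun p => X (Sum.inl p))
      (Sum.elim (fun s => X (Sum.inr s)) (fun t => MvPolynomial.C (c t)))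
    have hG1' : ∀ p, (G' p).totalDegree ≤ 1 := by
      rintro (p | s | t)
      · simp only [G', Sum.elim_inl]
        rw [totalDegree_X]
      · simp only [G', Sum.elim_inl, Sum.elim_inr]
        rw [totalDegree_X]
      · simp only [G', Sum.elim_inr]
        rw [totalDegree_C]
        exact Nat.zero_le _
    have hGe' : ∀ y : σ → C, (fun p => aeval (Sum.elim θ y) (G' p)) =
        Sum.elim θ (Sum.elim y (fun t => algebraMap κ C (c t))) := by
      intro y
      funext p
      rcases p with p | s | t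
      · simp only [G', Sum.elim_inl, aeval_X]
      · simp only [G', Sum.elim_inl, Sum.elim_inr, aeval_X]
      · simp only [G', Sum.elim_inr, aeval_C]
    have h3 := h (bind₁ G' Q) ((totalDegree_bind_le G' hG1' Q).trans hQ) (by
      rw [aeval_bind, hGe']
      exact h1 _) y
    rwa [aeval_bind, hGe'] at h3
  -- all values
  let R : MvPolynomial τ C := aeval (Sum.elim (fun p => MvPolynomial.C (θ p))
    (Sum.elim (fun s => MvPolynomial.C (y' (Sum.inl s))) X)) Q
  have hR : ∀ Z : τ → C, eval Z R = aeval (Sum.elim θ (Sum.elim (fun s => y' (Sum.inl s)) Z)) Q := by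
    intro Z
    have h3 : eval Z R = (aeval Z : MvPolynomial τ C →ₐ[C] C).restrictScalars κ
        (aeval (Sum.elim (fun p => MvPolynomial.C (θ p))
          (Sum.elim (fun s => MvPolynomial.C (y' (Sum.inl s))) X)) Q) := by
      rw [AlgHom.restrictScalars_apply]
      rfl
    rw [h3, comp_aeval_apply]
    congr 2
    funext p
    rcases p with p | s | t
    · simp
    · simp
    · simp
  have hR0 : R = 0 := by
    refine MvPolynomial.funext_set (fun _ : τ => Set.range (algebraMap κ C))
      (fun _ => Set.infinite_range_of_injective (algebraMap κ C).injective) fun Z hZ => ?_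
    choose c hc using fun t => hZ t (Set.mem_univ t)
    have h3 : Z = fun t => algebraMap κ C (c t) := funext fun t => (hc t).symm
    rw [map_zero, hR, h3]
    exact h2 c _
  have h4 := hR (fun t => y' (Sum.inr t))
  rw [hR0, map_zero] at h4
  rw [h4]
  congr 2
  funext p
  rcases p with p | s | t <;> rfl

/-- linear relations -/
theorem OTR.linear {D : ℕ} (hD : 1 ≤ D) {P τ : Type} [Fintype τ] {θ : P → C} {z : τ → C}
    (h : OTR κ D θ z) {a : τ → κ} (ha : ∑ t, algebraMap κ C (a t) * z t ∈ Aff κ θ) : a = 0 := by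
  classical
  obtain ⟨g, hg1, hg2⟩ := Aff.poly ha
  have h1 := h (∑ t, MvPolynomial.C (a t) * X (Sum.inr t) - rename Sum.inl g) (by
    refine (totalDegree_sub _ _).trans (max_le ?_ (((totalDegree_rename_le _ _).trans hg1).trans hD))
    refine totalDegree_finsetSum_le fun s _ => ?_
    refine (totalDegree_mul _ _).trans ?_
    rw [totalDegree_C, totalDegree_X]
    simpa using hD) (by
    simp only [map_sub, map_sum, map_mul, aeval_C, aeval_X, Sum.elim_inr, aeval_rename]
    have : Sum.elim θ z ∘ Sum.inl = θ := rfl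
    rw [this, hg2, sub_self])
  have h2 : ∀ y : τ → C, ∑ t, algebraMap κ C (a t) * y t = aeval θ g := by
    intro y
    have h3 := h1 y
    simp only [map_sub, map_sum, map_mul, aeval_C, aeval_X, Sum.elim_inr, aeval_rename] at h3
    have : Sum.elim θ y ∘ Sum.inl = θ := rfl
    rw [this] at h3
    exact sub_eq_zero.1 h3
  funext t
  have h3 := h2 0
  have h4 := h2 (Pi.single t 1)
  rw [← h3, Finset.sum_eq_single t (fun b _ hb => by rw [Pi.single_eq_of_ne hb, mul_zero])
    (fun h => absurd (Finset.mem_univ _) h)] at h4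
  simp only [Pi.single_eq_same, mul_one, Pi.zero_apply, mul_zero, Finset.sum_const_zero] at h4
  exact (map_eq_zero _).1 h4

theorem OTR.empty {D : ℕ} {P σ : Type} [IsEmpty σ] (θ : P → C) (x : σ → C) : OTR κ D θ x := by
  intro Q _ h0 y
  rw [Subsingleton.elim y x]
  exact h0

end Pool.Agent.Helper71.ET
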