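import Mathlib
import Pool.Agent.Helper71.ET.Otr

/-!
# Two kinds of quasi-linear coordinates
-/

set_option autoImplicit false

namespace Pool.Agent.Helper71.ET

open Finset Module MvPolynomial

section one

variable {κ C : Type} [Field κ] [Field C] [Algebra κ C]
variable {F E I : Type} [Field F] [AddCommGroup E] [Module F E]

/-- semilinear coordinates modulo `W` -/
structure QL (W : Submodule κ C) (χ : I → F →+* κ) (φ : I → E → C) : Prop where
  add : ∀ i x y, φ i (x + y) - (φ i x + φ i y) ∈ W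
  smul : ∀ i (a : F) x, φ i (a • x) - algebraMap κ C (χ i a) * φ i x ∈ W

theorem QL.zero {W : Submodule κ C} {χ : I → F →+* κ} {φ : I → E → C} (h : QL W χ φ) (i : I) :
    φ i 0 ∈ W := by
  have h1 := h.smul i 0 0
  rwa [zero_smul, map_zero, map_zero, zero_mul, sub_zero] at h1

theorem QL.sum {W : Submodule κ C} {χ : I → F →+* κ} {φ : I → E → C} (h : QL W χ φ) (i : I)
    {ι : Type} (s : Finset ι) (a : ι → F) (v : ι → E) :
    φ i (∑ r ∈ s, a r • v r) - ∑ r ∈ s, algebraMap κ C (χ i (a r)) * φ i (v r) ∈ W := by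
  classical
  induction s using Finset.induction_on with
  | empty => simpa using h.zero i
  | insert b s hb ih =>
    rw [Finset.sum_insert hb, Finset.sum_insert hb]
    have h1 := h.add i (a b • v b) (∑ r ∈ s, a r • v r)
    have h2 := h.smul i (a b) (v b)
    have h3 := W.add_mem (W.add_mem h1 h2) ih
    convert h3 using 1
    ring

theorem QL.mono {W W' : Submodule κ C} (hW : W ≤ W') {χ : I → F →+* κ} {φ : I → E → C}
    (h : QL W χ φ) : QL W' χ φ := ⟨fun i x y => hW (h.add i x y), fun i a x => hW (h.smul i a x)⟩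

/-- the right inverse of a matrix with independent rows -/
theorem exists_right_inverse {ι ι' : Type} [Fintype ι] [Fintype ι'] [DecidableEq ι'] (A : ι' → ι → F)
    (hA : LinearIndependent F A) : ∃ B : ι → ι' → F, ∀ s s', ∑ r, A s r * B r s' = if s = s' then 1 else 0 := by
  classical
  have h1 : LinearMap.ker (Fintype.linearCombination F A) = ⊥ := by
    rw [LinearMap.ker_eq_bot]
    exact linearIndependent_iff_injective_fintypeLinearCombination.1 hA
  obtain ⟨g, hg⟩ := (Fintype.linearCombination F A).exists_leftInverse_of_injective h1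
  refine ⟨fun r => g (Pi.single r 1), fun s s' => ?_⟩
  have h2 := congrFun (LinearMap.congr_fun hg (Pi.single s 1)) s'
  rw [LinearMap.comp_apply, Fintype.linearCombination_apply_single, one_smul, LinearMap.id_apply] at h2
  have h3 : A s = ∑ r, A s r • (Pi.single r 1 : ι → F) := by
    funext t
    simp [Finset.sum_apply, Pi.single_apply]
  rw [h3, map_sum, Finset.sum_apply] at h2
  simp only [map_smul, Pi.smul_apply, smul_eq_mul] at h2
  rw [h2]
  simp [Pi.single_apply, eq_comm]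

end one

variable {κ C : Type} [Field κ] [Field C] [Algebra κ C]
variable {F₁ E₁ I₁ F₂ E₂ I₂ : Type} [Field F₁] [AddCommGroup E₁] [Module F₁ E₁] [Fintype I₁]
  [Field F₂] [AddCommGroup E₂] [Module F₂ E₂] [Fintype I₂]

/-- all coordinates of two families -/
def co {ι₁ ι₂ : Type} (φ₁ : I₁ → E₁ → C) (φ₂ : I₂ → E₂ → C) (y₁ : ι₁ → E₁) (y₂ : ι₂ → E₂) :
    (I₁ × ι₁) ⊕ (I₂ × ι₂) → C :=
  Sum.elim (fun p => φ₁ p.1 (y₁ p.2)) (fun p => φ₂ p.1 (y₂ p.2))

theorem block_sum {G I ι : Type} [Field G] [Fintype I] [Fintype ι] [DecidableEq I] (c : I)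
    (M : ι → C) (x : I × ι → C) :
    ∑ p : I × ι, (if c = p.1 then M p.2 else 0) * x p = ∑ r, M r * x (c, r) := by
  rw [Fintype.sum_prod_type]
  rw [Finset.sum_eq_single c]
  · exact Finset.sum_congr rfl fun r _ => by rw [if_pos rfl]
  · intro b _ hb
    exact Finset.sum_eq_zero fun r _ => by rw [if_neg (Ne.symm hb), zero_mul]
  · intro h; exact absurd (Finset.mem_univ _) h

/-- changes of the families -/
theorem OTR.change {D : ℕ} {P : Type} {θ : P → C} {χ₁ : I₁ → F₁ →+* κ} {φ₁ : I₁ → E₁ → C}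
    {χ₂ : I₂ → F₂ →+* κ} {φ₂ : I₂ → E₂ → C} (h₁ : QL (Aff κ θ) χ₁ φ₁) (h₂ : QL (Aff κ θ) χ₂ φ₂)
    {ι₁ ι₂ ι₁' ι₂' : Type} [Fintype ι₁] [Fintype ι₂] [Fintype ι₁'] [Fintype ι₂']
    {y₁ : ι₁ → E₁} {y₂ : ι₂ → E₂} (h : OTR κ D θ (co φ₁ φ₂ y₁ y₂))
    {y₁' : ι₁' → E₁} {y₂' : ι₂' → E₂} (v₁ : ι₁' → E₁) (v₂ : ι₂' → E₂)
    (hv₁ : ∀ i s, φ₁ i (v₁ s) ∈ Aff κ θ) (hv₂ : ∀ i s, φ₂ i (v₂ s) ∈ Aff κ θ)
    (A₁ : ι₁' → ι₁ → F₁) (hA₁ : LinearIndependent F₁ A₁) (A₂ : ι₂' → ι₂ → F₂)
    (hA₂ : LinearIndependent F₂ A₂) (hy₁ : ∀ s, y₁' s = v₁ s + ∑ r, A₁ s r • y₁ r)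
    (hy₂ : ∀ s, y₂' s = v₂ s + ∑ r, A₂ s r • y₂ r) : OTR κ D θ (co φ₁ φ₂ y₁' y₂') := by
  classical
  obtain ⟨B₁, hB₁⟩ := exists_right_inverse A₁ hA₁
  obtain ⟨B₂, hB₂⟩ := exists_right_inverse A₂ hA₂
  let A : (I₁ × ι₁') ⊕ (I₂ × ι₂') → (I₁ × ι₁) ⊕ (I₂ × ι₂) → κ := Sum.elim
    (fun p => Sum.elim (fun p' => if p.1 = p'.1 then χ₁ p.1 (A₁ p.2 p'.2) else 0) (fun _ => 0))
    (fun p => Sum.elim (fun _ => 0) (fun p' => if p.1 = p'.1 then χ₂ p.1 (A₂ p.2 p'.2) else 0))
  have hA1 : ∀ (x : (I₁ × ι₁) ⊕ (I₂ × ι₂) → C) i s, ∑ r, algebraMap κ C (A (Sum.inl (i, s)) r) * x r =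
      ∑ r, algebraMap κ C (χ₁ i (A₁ s r)) * x (Sum.inl (i, r)) := by
    intro x i s
    rw [Fintype.sum_sum_type]
    simp only [A, Sum.elim_inl, Sum.elim_inr, map_zero, zero_mul, Finset.sum_const_zero, add_zero]
    rw [← block_sum (G := κ) i (fun r => algebraMap κ C (χ₁ i (A₁ s r))) (fun p => x (Sum.inl p))]
    exact Finset.sum_congr rfl fun r _ => by split_ifs <;> simp
  have hA2 : ∀ (x : (I₁ × ι₁) ⊕ (I₂ × ι₂) → C) i s, ∑ r, algebraMap κ C (A (Sum.inr (i, s)) r) * x r =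
      ∑ r, algebraMap κ C (χ₂ i (A₂ s r)) * x (Sum.inr (i, r)) := by
    intro x i s
    rw [Fintype.sum_sum_type]
    simp only [A, Sum.elim_inl, Sum.elim_inr, map_zero, zero_mul, Finset.sum_const_zero, zero_add]
    rw [← block_sum (G := κ) i (fun r => algebraMap κ C (χ₂ i (A₂ s r))) (fun p => x (Sum.inr p))]
    exact Finset.sum_congr rfl fun r _ => by split_ifs <;> simp
  refine h.affine A (fun p => co φ₁ φ₂ y₁' y₂' p - ∑ r, algebraMap κ C (A p r) * co φ₁ φ₂ y₁ y₂ r) ?_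
    (fun p => by ring) ?_
  · rintro (⟨i, s⟩ | ⟨i, s⟩)
    · rw [hA1]
      simp only [co, Sum.elim_inl]
      rw [hy₁ s]
      have h3 := h₁.add i (v₁ s) (∑ r, A₁ s r • y₁ r)
      have h4 := h₁.sum i Finset.univ (A₁ s) y₁
      have h5 := (Aff κ θ).add_mem (hv₁ i s) ((Aff κ θ).add_mem h3 h4)
      convert h5 using 1
      ring
    · rw [hA2]
      simp only [co, Sum.elim_inr]
      rw [hy₂ s]
      have h3 := h₂.add i (v₂ s) (∑ r, A₂ s r • y₂ r)
      have h4 := h₂.sum i Finset.univ (A₂ s) y₂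
      have h5 := (Aff κ θ).add_mem (hv₂ i s) ((Aff κ θ).add_mem h3 h4)
      convert h5 using 1
      ring
  · intro y'
    refine ⟨Sum.elim (fun p => ∑ s, algebraMap κ C (χ₁ p.1 (B₁ p.2 s)) * y' (Sum.inl (p.1, s)))
      (fun p => ∑ s, algebraMap κ C (χ₂ p.1 (B₂ p.2 s)) * y' (Sum.inr (p.1, s))), ?_⟩
    rintro (⟨i, s⟩ | ⟨i, s⟩)
    · rw [hA1]
      simp only [Sum.elim_inl, Finset.mul_sum]
      rw [Finset.sum_comm]
      have h3 : ∀ s', ∑ r, algebraMap κ C (χ₁ i (A₁ s r)) *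
          (algebraMap κ C (χ₁ i (B₁ r s')) * y' (Sum.inl (i, s'))) =
          (if s = s' then 1 else 0) * y' (Sum.inl (i, s')) := by
        intro s'
        have h4 : ∑ r, algebraMap κ C (χ₁ i (A₁ s r)) *
            algebraMap κ C (χ₁ i (B₁ r s')) =
            algebraMap κ C (χ₁ i (∑ r, A₁ s r * B₁ r s')) := by
          simp only [map_sum, map_mul]
        calc _ = (∑ r, algebraMap κ C (χ₁ i (A₁ s r)) *
              algebraMap κ C (χ₁ i (B₁ r s'))) * y' (Sum.inl (i, s')) := by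
              rw [Finset.sum_mul]
              exact Finset.sum_congr rfl fun r _ => by ring
          _ = _ := by
              rw [h4, hB₁]
              split_ifs <;> simp
      simp only [h3, ite_mul, one_mul, zero_mul, Finset.sum_ite_eq, Finset.mem_univ, if_true]
    · rw [hA2]
      simp only [Sum.elim_inr, Finset.mul_sum]
      rw [Finset.sum_comm]
      have h3 : ∀ s', ∑ r, algebraMap κ C (χ₂ i (A₂ s r)) *
          (algebraMap κ C (χ₂ i (B₂ r s')) * y' (Sum.inr (i, s'))) =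
          (if s = s' then 1 else 0) * y' (Sum.inr (i, s')) := by
        intro s'
        have h4 : ∑ r, algebraMap κ C (χ₂ i (A₂ s r)) *
            algebraMap κ C (χ₂ i (B₂ r s')) =
            algebraMap κ C (χ₂ i (∑ r, A₂ s r * B₂ r s')) := by
          simp only [map_sum, map_mul]
        calc _ = (∑ r, algebraMap κ C (χ₂ i (A₂ s r)) *
              algebraMap κ C (χ₂ i (B₂ r s'))) * y' (Sum.inr (i, s')) := by
              rw [Finset.sum_mul]
              exact Finset.sum_congr rfl fun r _ => by ring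
          _ = _ := by
              rw [h4, hB₂]
              split_ifs <;> simp
      simp only [h3, ite_mul, one_mul, zero_mul, Finset.sum_ite_eq, Finset.mem_univ, if_true]

end Pool.Agent.Helper71.ET
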