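import Mathlib
import Pool.Agent.Helper71.ET.Two

/-!
# One step of the decomposition
-/

set_option autoImplicit false

namespace Pool.Agent.Helper71.ET

open Finset Module MvPolynomial

section one

variable {F E : Type} [Field F] [AddCommGroup E] [Module F E]

theorem rows_indep {ι ι' : Type} [Fintype ι] [Fintype ι'] {b : ι → E} {y : ι' → E}
    (hy : LinearIndependent F y) {A : ι' → ι → F} (hA : ∀ s, y s = ∑ r, A s r • b r) :
    LinearIndependent F A := by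
  rw [Fintype.linearIndependent_iff] at hy ⊢
  intro c hc
  apply hy
  have h1 : ∀ r, ∑ s, c s * A s r = 0 := by
    intro r
    have := congrFun hc r
    simpa [Finset.sum_apply] using this
  calc ∑ s, c s • y s = ∑ r, (∑ s, c s * A s r) • b r := by
        simp only [hA, Finset.smul_sum, Finset.sum_smul, smul_smul]
        rw [Finset.sum_comm]
    _ = 0 := Finset.sum_eq_zero fun r _ => by rw [h1, zero_smul]

/-- the last summand -/
def spl {m : ℕ} (μ : E) (z : Fin m → E) : Fin (m + 1) → E := Fin.cons (μ - ∑ l, z l) z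

theorem spl_sum {m : ℕ} (μ : E) (z : Fin m → E) : ∑ i, spl μ z i = μ := by
  rw [Fin.sum_univ_succ]
  simp [spl]

theorem spl_indep {m : ℕ} {S : Submodule F E} {μ : E} (hμ : μ ∉ S) {z : Fin m → E}
    (hz : ∀ d : Fin m → F, ∑ l, d l • z l ∈ S ⊔ Submodule.span F {μ} → d = 0) :
    ∀ c : Fin (m + 1) → F, ∑ i, c i • spl μ z i ∈ S → ∀ i, c i = 0 := by
  intro c hc
  have h1 : ∑ i, c i • spl μ z i = c 0 • μ + ∑ l : Fin m, (c l.succ - c 0) • z l := by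
    rw [Fin.sum_univ_succ]
    simp only [spl, Fin.cons_zero, Fin.cons_succ, sub_smul, smul_sub, Finset.sum_sub_distrib,
      Finset.smul_sum]
    abel
  rw [h1] at hc
  have h2 := hz (fun l => c l.succ - c 0) (by
    have h3 : ∑ l : Fin m, (c l.succ - c 0) • z l =
        (c 0 • μ + ∑ l : Fin m, (c l.succ - c 0) • z l) - c 0 • μ := by abel
    rw [h3]
    exact Submodule.sub_mem _ (Submodule.mem_sup_left hc) (Submodule.smul_mem _ _
      (Submodule.mem_sup_right (Submodule.mem_span_singleton_self _))))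
  have h3 : ∀ l : Fin m, c l.succ = c 0 := fun l => sub_eq_zero.1 (congrFun h2 l)
  have h4 : c 0 = 0 := by
    by_contra hne
    apply hμ
    have h5 : c 0 • μ ∈ S := by
      have h6 : c 0 • μ + ∑ l : Fin m, (c l.succ - c 0) • z l = c 0 • μ := by
        rw [Finset.sum_eq_zero, add_zero]
        intro l _
        rw [h3 l, sub_self, zero_smul]
      rwa [h6] at hc
    have h6 := S.smul_mem (c 0)⁻¹ h5
    rwa [smul_smul, inv_mul_cancel₀ hne, one_smul] at h6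
  intro i
  refine Fin.cases h4 (fun l => ?_) i
  rw [h3 l, h4]

/-- the coefficients of the splitting -/
def srow (F : Type) [Field F] (m : ℕ) : Fin (m + 1) → Fin m → F :=
  Fin.cons (fun _ => -1) (fun a => Pi.single a 1)

theorem spl_eq {m : ℕ} (μ : E) (z : Fin m → E) (i : Fin (m + 1)) :
    spl μ z i = (if i = 0 then μ else 0) + ∑ l, srow F m i l • z l := by
  refine Fin.cases ?_ (fun a => ?_) i
  · simp [spl, srow, sub_eq_add_neg]
  · simp only [spl, srow, Fin.cons_succ, Fin.succ_ne_zero, if_false, zero_add]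
    rw [Finset.sum_eq_single a (fun b _ hb => by rw [Pi.single_eq_of_ne hb, zero_smul])
      (fun h => absurd (Finset.mem_univ _) h), Pi.single_eq_same, one_smul]

theorem srow_indep (m : ℕ) (j : Fin (m + 1)) :
    LinearIndependent F (fun i : {i : Fin (m + 1) // i ≠ j} => srow F m i) := by
  classical
  rw [Fintype.linearIndependent_iff]
  intro c hc
  -- extend by zero
  set c' : Fin (m + 1) → F := fun i => if h : i ≠ j then c ⟨i, h⟩ else 0 with hc'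
  have h1 : ∑ i, c' i • srow F m i = 0 := by
    rw [← hc, ← Fintype.sum_subtype_add_sum_subtype (fun i => i ≠ j)]
    have h2 : ∑ i : {i // ¬ i ≠ j}, c' i • srow F m i = 0 :=
      Finset.sum_eq_zero fun i _ => by simp only [hc']; rw [dif_neg i.2, zero_smul]
    rw [h2, add_zero]
    exact Finset.sum_congr rfl fun i _ => by simp only [hc']; rw [dif_pos i.2]
  have h2 : ∀ l : Fin m, c' l.succ = c' 0 := by
    intro l
    have h3 := congrFun h1 l
    rw [Finset.sum_apply, Fin.sum_univ_succ] at h3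
    simp only [srow, Fin.cons_zero, Fin.cons_succ, Pi.smul_apply, smul_eq_mul, Pi.zero_apply] at h3
    rw [Finset.sum_eq_single l (fun b _ hb => by rw [Pi.single_eq_of_ne (Ne.symm hb), mul_zero])
      (fun h => absurd (Finset.mem_univ _) h), Pi.single_eq_same] at h3
    linear_combination h3
  have h3 : c' j = 0 := by simp [hc']
  have h4 : c' 0 = 0 := by
    rcases Fin.eq_zero_or_eq_succ j with h | ⟨l, h⟩
    · rw [h] at h3; exact h3
    · rw [← h2 l, ← h]; exact h3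
  intro i
  have h5 : c' i = c i := by simp only [hc']; rw [dif_pos i.2]
  rw [← h5]
  refine Fin.cases h4 (fun l => ?_) (i : Fin (m + 1))
  rw [h2 l, h4]

end one

variable {κ C : Type} [Field κ] [Field C] [Algebra κ C]
variable {F₁ E₁ I₁ F₂ E₂ I₂ : Type} [Field F₁] [AddCommGroup E₁] [Module F₁ E₁] [Fintype I₁]
  [Field F₂] [AddCommGroup E₂] [Module F₂ E₂] [Fintype I₂]

/-- independent families in `V₁`, `V₂` have only trivial relations -/
def Free2 (κ : Type) {C : Type} [Field κ] [Field C] [Algebra κ C] {F₁ E₁ I₁ F₂ E₂ I₂ : Type}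
    [Field F₁] [AddCommGroup E₁] [Module F₁ E₁] [Field F₂] [AddCommGroup E₂]
    [Module F₂ E₂] (D : ℕ) {P : Type} (θ : P → C) (φ₁ : I₁ → E₁ → C) (φ₂ : I₂ → E₂ → C)
    (V₁ : Submodule F₁ E₁) (V₂ : Submodule F₂ E₂) : Prop :=
  ∀ (r₁ : ℕ) (y₁ : Fin r₁ → E₁) (r₂ : ℕ) (y₂ : Fin r₂ → E₂), (∀ s, y₁ s ∈ V₁) → (∀ s, y₂ s ∈ V₂) →
    LinearIndependent F₁ y₁ → LinearIndependent F₂ y₂ → OTR κ D θ (co φ₁ φ₂ y₁ y₂)

theorem free2_of_span {D : ℕ} {P : Type} {θ : P → C} {χ₁ : I₁ → F₁ →+* κ} {φ₁ : I₁ → E₁ → C}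
    {χ₂ : I₂ → F₂ →+* κ} {φ₂ : I₂ → E₂ → C} (h₁ : QL (Aff κ θ) χ₁ φ₁) (h₂ : QL (Aff κ θ) χ₂ φ₂)
    {ι₁ ι₂ : Type} [Fintype ι₁] [Fintype ι₂] {b₁ : ι₁ → E₁} {b₂ : ι₂ → E₂}
    (h : OTR κ D θ (co φ₁ φ₂ b₁ b₂)) {V₁ : Submodule F₁ E₁} {V₂ : Submodule F₂ E₂}
    (hV₁ : V₁ ≤ Submodule.span F₁ (Set.range b₁)) (hV₂ : V₂ ≤ Submodule.span F₂ (Set.range b₂)) :
    Free2 κ D θ φ₁ φ₂ V₁ V₂ := by
  intro r₁ y₁ r₂ y₂ hy₁ hy₂ hl₁ hl₂
  have e₁ : ∀ s, ∃ a : ι₁ → F₁, ∑ r, a r • b₁ r = y₁ s := fun s =>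
    (Submodule.mem_span_range_iff_exists_fun F₁).1 (hV₁ (hy₁ s))
  have e₂ : ∀ s, ∃ a : ι₂ → F₂, ∑ r, a r • b₂ r = y₂ s := fun s =>
    (Submodule.mem_span_range_iff_exists_fun F₂).1 (hV₂ (hy₂ s))
  choose A₁ hA₁ using e₁
  choose A₂ hA₂ using e₂
  exact h.change h₁ h₂ (fun _ => 0) (fun _ => 0) (fun i _ => h₁.zero i) (fun i _ => h₂.zero i)
    A₁ (rows_indep hl₁ fun s => (hA₁ s).symm) A₂ (rows_indep hl₂ fun s => (hA₂ s).symm)
    (fun s => by rw [zero_add, hA₁ s]) (fun s => by rw [zero_add, hA₂ s])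

theorem Free2.otr {D : ℕ} {P : Type} {θ : P → C} {φ₁ : I₁ → E₁ → C} {φ₂ : I₂ → E₂ → C}
    {V₁ : Submodule F₁ E₁} {V₂ : Submodule F₂ E₂} (h : Free2 κ D θ φ₁ φ₂ V₁ V₂) {ι₁ ι₂ : Type}
    [Fintype ι₁] [Fintype ι₂] {y₁ : ι₁ → E₁} {y₂ : ι₂ → E₂} (hy₁ : ∀ s, y₁ s ∈ V₁)
    (hy₂ : ∀ s, y₂ s ∈ V₂) (hl₁ : LinearIndependent F₁ y₁) (hl₂ : LinearIndependent F₂ y₂) :
    OTR κ D θ (co φ₁ φ₂ y₁ y₂) := by
  let e₁ := Fintype.equivFin ι₁
  let e₂ := Fintype.equivFin ι₂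
  have h1 := h _ (y₁ ∘ e₁.symm) _ (y₂ ∘ e₂.symm) (fun s => hy₁ _) (fun s => hy₂ _)
    (hl₁.comp _ e₁.symm.injective) (hl₂.comp _ e₂.symm.injective)
  have h2 := h1.comp (f := Sum.map (Prod.map id e₁) (Prod.map id e₂))
    (Function.Injective.sumMap (Function.injective_id.prodMap e₁.injective)
      (Function.injective_id.prodMap e₂.injective))
  convert h2 using 1
  funext p
  rcases p with ⟨i, s⟩ | ⟨i, s⟩
  · simp [co]
  · simp [co]

/-- the union of two pairs of families -/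
theorem OTR.join {D : ℕ} {P : Type} {θ : P → C} {φ₁ : I₁ → E₁ → C} {φ₂ : I₂ → E₂ → C}
    {ι₁ ι₂ ι₁' ι₂' : Type} {y₁ : ι₁ → E₁} {y₂ : ι₂ → E₂} {y₁' : ι₁' → E₁} {y₂' : ι₂' → E₂}
    (h : OTR κ D θ (Sum.elim (co φ₁ φ₂ y₁ y₂) (co φ₁ φ₂ y₁' y₂'))) :
    OTR κ D θ (co φ₁ φ₂ (Sum.elim y₁ y₁') (Sum.elim y₂ y₂')) := by
  let f : (I₁ × (ι₁ ⊕ ι₁')) ⊕ (I₂ × (ι₂ ⊕ ι₂')) →
      ((I₁ × ι₁) ⊕ (I₂ × ι₂)) ⊕ ((I₁ × ι₁') ⊕ (I₂ × ι₂')) := Sum.elim
    (fun p => Sum.elim (fun s => Sum.inl (Sum.inl (p.1, s))) (fun s => Sum.inr (Sum.inl (p.1, s))) p.2)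
    (fun p => Sum.elim (fun s => Sum.inl (Sum.inr (p.1, s))) (fun s => Sum.inr (Sum.inr (p.1, s))) p.2)
  have hf : Function.Injective f := by
    rintro (⟨i, s | s⟩ | ⟨i, s | s⟩) (⟨i', s' | s'⟩ | ⟨i', s' | s'⟩) h <;>
      simp_all [f]
  have h1 := h.comp hf
  convert h1 using 1
  funext p
  rcases p with ⟨i, s | s⟩ | ⟨i, s | s⟩ <;> simp [co, f]

end Pool.Agent.Helper71.ET
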