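import Mathlib
import Pool.Agent.Helper71.ET.Step

/-!
# Splitting two elements
-/

set_option autoImplicit false
set_option linter.unusedSectionVars false

namespace Pool.Agent.Helper71.ET

open Finset Module MvPolynomial

variable {κ C : Type} [Field κ] [Field C] [Algebra κ C]
variable {F₁ E₁ I₁ F₂ E₂ I₂ : Type} [Field F₁] [AddCommGroup E₁] [Module F₁ E₁] [Fintype I₁]
  [Field F₂] [AddCommGroup E₂] [Module F₂ E₂] [Fintype I₂]

/-- generic pairs of families exist -/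
def Gen (κ : Type) {C : Type} [Field κ] [Field C] [Algebra κ C] {E₁ I₁ E₂ I₂ : Type} (D : ℕ)
    (φ₁ : I₁ → E₁ → C) (φ₂ : I₂ → E₂ → C) : Prop :=
  ∀ (p : ℕ) (θ : Fin p → C) (m : ℕ), ∃ (z₁ : Fin m → E₁) (z₂ : Fin m → E₂),
    OTR κ D θ (co φ₁ φ₂ z₁ z₂)

theorem OTR.reparam {D : ℕ} {P P' σ : Type} {θ : P → C} {x : σ → C} (e : P ≃ P')
    (h : OTR κ D (θ ∘ e.symm) x) : OTR κ D θ x := by
  intro Q hQ h0 y
  have e1 : ∀ y : σ → C, aeval (Sum.elim (θ ∘ e.symm) y) (rename (Sum.map e id) Q) =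
      aeval (Sum.elim θ y) Q := by
    intro y
    rw [aeval_rename]
    congr 2
    funext p
    rcases p with p | p
    · simp
    · rfl
  have h1 := h (rename (Sum.map e id) Q) ((totalDegree_rename_le _ _).trans hQ) (by rw [e1, h0]) y
  rwa [e1] at h1

theorem Gen.fintype {D : ℕ} {φ₁ : I₁ → E₁ → C} {φ₂ : I₂ → E₂ → C} (hG : Gen κ D φ₁ φ₂) {P : Type}
    [Fintype P] (θ : P → C) (m : ℕ) : ∃ (z₁ : Fin m → E₁) (z₂ : Fin m → E₂),
    OTR κ D θ (co φ₁ φ₂ z₁ z₂) := by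
  obtain ⟨z₁, z₂, h⟩ := hG _ (θ ∘ (Fintype.equivFin P).symm) m
  exact ⟨z₁, z₂, h.reparam _⟩

theorem basis_span {F E : Type} [Field F] [AddCommGroup E] [Module F E] (S : Submodule F E)
    [Module.Finite F S] : Submodule.span F (Set.range fun i => (Module.finBasis F S i : E)) = S := by
  have := congrArg (Submodule.map S.subtype) (Module.finBasis F S).span_eq
  rw [Submodule.map_span, Submodule.map_top, Submodule.range_subtype, ← Set.range_comp] at this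
  exact this

theorem basis_li {F E : Type} [Field F] [AddCommGroup E] [Module F E] (S : Submodule F E)
    [Module.Finite F S] : LinearIndependent F (fun i => (Module.finBasis F S i : E)) :=
  (Module.finBasis F S).linearIndependent.map' S.subtype (Submodule.ker_subtype S)

/-- **One step.** -/
theorem step [Infinite κ] {D : ℕ} (hD : 1 ≤ D) {P : Type} [Fintype P] {θ : P → C}
    {χ₁ : I₁ → F₁ →+* κ} {φ₁ : I₁ → E₁ → C} {χ₂ : I₂ → F₂ →+* κ} {φ₂ : I₂ → E₂ → C}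
    [Nonempty I₁] [Nonempty I₂] (h₁ : QL (Aff κ θ) χ₁ φ₁) (h₂ : QL (Aff κ θ) χ₂ φ₂)
    (hG : Gen κ D φ₁ φ₂) {m : ℕ} (P₁ : Fin (m + 1) → Submodule F₁ E₁)
    (P₂ : Fin (m + 1) → Submodule F₂ E₂) (hP₁ : ∀ i, Module.Finite F₁ (P₁ i))
    (hP₂ : ∀ i, Module.Finite F₂ (P₂ i))
    (hfree : ∀ j : Fin (m + 1), Free2 κ D θ φ₁ φ₂ (⨆ i : {i // i ≠ j}, P₁ i)
      (⨆ i : {i // i ≠ j}, P₂ i)) {μ₁ : E₁} (hμ₁ : μ₁ ∉ ⨆ i, P₁ i) {μ₂ : E₂} (hμ₂ : μ₂ ∉ ⨆ i, P₂ i) :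
    ∃ (x₁ : Fin (m + 1) → E₁) (x₂ : Fin (m + 1) → E₂), ∑ i, x₁ i = μ₁ ∧ ∑ i, x₂ i = μ₂ ∧
      (∀ c : Fin (m + 1) → F₁, ∑ i, c i • x₁ i ∈ ⨆ i, P₁ i → ∀ i, c i = 0) ∧
      (∀ c : Fin (m + 1) → F₂, ∑ i, c i • x₂ i ∈ ⨆ i, P₂ i → ∀ i, c i = 0) ∧
      ∀ j : Fin (m + 1), Free2 κ D θ φ₁ φ₂
        (⨆ i : {i // i ≠ j}, (P₁ i ⊔ Submodule.span F₁ {x₁ (i : Fin (m + 1))}))
        (⨆ i : {i // i ≠ j}, (P₂ i ⊔ Submodule.span F₂ {x₂ (i : Fin (m + 1))})) := by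
  classical
  set S₁ : Submodule F₁ E₁ := (⨆ i, P₁ i) ⊔ Submodule.span F₁ {μ₁} with hS₁
  set S₂ : Submodule F₂ E₂ := (⨆ i, P₂ i) ⊔ Submodule.span F₂ {μ₂} with hS₂
  have hS₁f : Module.Finite F₁ S₁ := by rw [hS₁]; infer_instance
  have hS₂f : Module.Finite F₂ S₂ := by rw [hS₂]; infer_instance
  let b₁ : Fin (finrank F₁ S₁) → E₁ := fun i => (Module.finBasis F₁ S₁ i : E₁)
  let b₂ : Fin (finrank F₂ S₂) → E₂ := fun i => (Module.finBasis F₂ S₂ i : E₂)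
  have hb₁ : Submodule.span F₁ (Set.range b₁) = S₁ := basis_span S₁
  have hb₂ : Submodule.span F₂ (Set.range b₂) = S₂ := basis_span S₂
  let θ' : P ⊕ ((I₁ × Fin (finrank F₁ S₁)) ⊕ (I₂ × Fin (finrank F₂ S₂))) → C :=
    Sum.elim θ (co φ₁ φ₂ b₁ b₂)
  have hθ : ∀ p, θ p ∈ Aff κ θ' := fun p => Aff.mem θ' (Sum.inl p)
  have hle : Aff κ θ ≤ Aff κ θ' := Aff.mono hθ
  have h₁' := h₁.mono hle
  have h₂' := h₂.mono hle
  have hφ₁ : ∀ i, ∀ v ∈ S₁, φ₁ i v ∈ Aff κ θ' := by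
    intro i v hv
    rw [← hb₁] at hv
    obtain ⟨a, rfl⟩ := (Submodule.mem_span_range_iff_exists_fun F₁).1 hv
    rw [← sub_add_cancel (φ₁ i (∑ r, a r • b₁ r)) (∑ r, algebraMap κ C (χ₁ i (a r)) * φ₁ i (b₁ r))]
    refine (Aff κ θ').add_mem (h₁'.sum i Finset.univ a b₁) ((Aff κ θ').sum_mem fun r _ => ?_)
    rw [← Algebra.smul_def]
    exact (Aff κ θ').smul_mem _ (Aff.mem θ' (Sum.inr (Sum.inl (i, r))))
  have hφ₂ : ∀ i, ∀ v ∈ S₂, φ₂ i v ∈ Aff κ θ' := by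
    intro i v hv
    rw [← hb₂] at hv
    obtain ⟨a, rfl⟩ := (Submodule.mem_span_range_iff_exists_fun F₂).1 hv
    rw [← sub_add_cancel (φ₂ i (∑ r, a r • b₂ r)) (∑ r, algebraMap κ C (χ₂ i (a r)) * φ₂ i (b₂ r))]
    refine (Aff κ θ').add_mem (h₂'.sum i Finset.univ a b₂) ((Aff κ θ').sum_mem fun r _ => ?_)
    rw [← Algebra.smul_def]
    exact (Aff κ θ').smul_mem _ (Aff.mem θ' (Sum.inr (Sum.inr (i, r))))
  obtain ⟨z₁, z₂, hz⟩ := hG.fintype θ' m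
  have hi₁ : ∀ d : Fin m → F₁, ∑ l, d l • z₁ l ∈ (⨆ i, P₁ i) ⊔ Submodule.span F₁ {μ₁} → d = 0 := by
    intro d hd
    let i₀ : I₁ := Classical.arbitrary I₁
    have hz' : OTR κ D θ' (fun l : Fin m => φ₁ i₀ (z₁ l)) :=
      hz.comp (f := fun l : Fin m => (Sum.inl (i₀, l) : (I₁ × Fin m) ⊕ (I₂ × Fin m)))
        (fun a b h => by simpa using h)
    have h3 := hz'.linear hD (a := fun l => χ₁ i₀ (d l)) (by
      have h4 := h₁'.sum i₀ Finset.univ d z₁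
      have h5 := (Aff κ θ').sub_mem (hφ₁ i₀ _ hd) h4
      rwa [sub_sub_cancel] at h5)
    funext l
    exact (map_eq_zero _).1 (congrFun h3 l)
  have hi₂ : ∀ d : Fin m → F₂, ∑ l, d l • z₂ l ∈ (⨆ i, P₂ i) ⊔ Submodule.span F₂ {μ₂} → d = 0 := by
    intro d hd
    let i₀ : I₂ := Classical.arbitrary I₂
    have hz' : OTR κ D θ' (fun l : Fin m => φ₂ i₀ (z₂ l)) :=
      hz.comp (f := fun l : Fin m => (Sum.inr (i₀, l) : (I₁ × Fin m) ⊕ (I₂ × Fin m)))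
        (fun a b h => by simpa using h)
    have h3 := hz'.linear hD (a := fun l => χ₂ i₀ (d l)) (by
      have h4 := h₂'.sum i₀ Finset.univ d z₂
      have h5 := (Aff κ θ').sub_mem (hφ₂ i₀ _ hd) h4
      rwa [sub_sub_cancel] at h5)
    funext l
    exact (map_eq_zero _).1 (congrFun h3 l)
  refine ⟨spl μ₁ z₁, spl μ₂ z₂, spl_sum _ _, spl_sum _ _, spl_indep hμ₁ hi₁, spl_indep hμ₂ hi₂, ?_⟩
  intro j
  set V₁ : Submodule F₁ E₁ := ⨆ i : {i // i ≠ j}, P₁ i with hV₁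
  set V₂ : Submodule F₂ E₂ := ⨆ i : {i // i ≠ j}, P₂ i with hV₂
  have hV₁f : Module.Finite F₁ V₁ := by rw [hV₁]; infer_instance
  have hV₂f : Module.Finite F₂ V₂ := by rw [hV₂]; infer_instance
  have hVS₁ : V₁ ≤ S₁ := by
    have h3 : V₁ ≤ ⨆ i, P₁ i := iSup_le fun i => le_iSup P₁ (i : Fin (m + 1))
    exact h3.trans le_sup_left
  have hVS₂ : V₂ ≤ S₂ := by
    have h3 : V₂ ≤ ⨆ i, P₂ i := iSup_le fun i => le_iSup P₂ (i : Fin (m + 1))
    exact h3.trans le_sup_left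
  let c₁ : Fin (finrank F₁ V₁) → E₁ := fun i => (Module.finBasis F₁ V₁ i : E₁)
  let c₂ : Fin (finrank F₂ V₂) → E₂ := fun i => (Module.finBasis F₂ V₂ i : E₂)
  have hc₁ : Submodule.span F₁ (Set.range c₁) = V₁ := basis_span V₁
  have hc₂ : Submodule.span F₂ (Set.range c₂) = V₂ := basis_span V₂
  have hold : OTR κ D θ (co φ₁ φ₂ c₁ c₂) :=
    (hfree j).otr (fun s => (Module.finBasis F₁ V₁ s).2) (fun s => (Module.finBasis F₂ V₂ s).2)
      (basis_li V₁) (basis_li V₂)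
  have hnew : OTR κ D θ' (co φ₁ φ₂ (fun i : {i // i ≠ j} => spl μ₁ z₁ i)
      (fun i : {i // i ≠ j} => spl μ₂ z₂ i)) := by
    refine hz.change h₁' h₂' (fun i => if (i : Fin (m + 1)) = 0 then μ₁ else 0)
      (fun i => if (i : Fin (m + 1)) = 0 then μ₂ else 0) ?_ ?_ (fun i => srow F₁ m i) (srow_indep m j)
      (fun i => srow F₂ m i) (srow_indep m j) (fun i => spl_eq μ₁ z₁ i) (fun i => spl_eq μ₂ z₂ i)
    · intro i s
      refine hφ₁ i _ ?_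
      split_ifs
      · exact Submodule.mem_sup_right (Submodule.mem_span_singleton_self _)
      · exact S₁.zero_mem
    · intro i s
      refine hφ₂ i _ ?_
      split_ifs
      · exact Submodule.mem_sup_right (Submodule.mem_span_singleton_self _)
      · exact S₂.zero_mem
  have hall := (hold.extend hnew hθ (by
    rintro (⟨i, s⟩ | ⟨i, s⟩)
    · exact hφ₁ i _ (hVS₁ (Module.finBasis F₁ V₁ s).2)
    · exact hφ₂ i _ (hVS₂ (Module.finBasis F₂ V₂ s).2))).join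
  refine free2_of_span h₁ h₂ hall ?_ ?_
  · rw [iSup_sup_eq, Set.Sum.elim_range, Submodule.span_union, hc₁, Submodule.span_range_eq_iSup]
  · rw [iSup_sup_eq, Set.Sum.elim_range, Submodule.span_union, hc₂, Submodule.span_range_eq_iSup]

end Pool.Agent.Helper71.ET
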