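import Mathlib
import Pool.Agent.Helper71.ET.Split

/-!
# The simultaneous decomposition of two spaces
-/

set_option autoImplicit false
set_option linter.unusedSectionVars false

namespace Pool.Agent.Helper71.ET

open Finset Module MvPolynomial

section one

variable {F E : Type} [Field F] [AddCommGroup E] [Module F E]

/-- finite dimensional summands -/
structure Good1 {m : ℕ} (P : Fin (m + 1) → Submodule F E) : Prop where
  fin : ∀ i, Module.Finite F (P i)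
  indep : ∀ v : Fin (m + 1) → E, (∀ i, v i ∈ P i) → ∑ i, v i = 0 → ∀ i, v i = 0

theorem Good1.exists_mu {m : ℕ} {P : Fin (m + 1) → Submodule F E} (hP : Good1 P)
    (hE : ¬ Module.Finite F E) (a : E) : ∃ μ, μ ∉ ⨆ i, P i ∧ (a ∉ ⨆ i, P i → μ = a) := by
  by_cases h : a ∈ ⨆ i, P i
  · have hPf := hP.fin
    have h2 : Module.Finite F (⨆ i, P i : Submodule F E) := inferInstance
    have h1 : (⨆ i, P i) ≠ ⊤ := by
      intro htop
      apply hE
      rw [htop] at h2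
      exact Module.Finite.equiv (Submodule.topEquiv : (⊤ : Submodule F E) ≃ₗ[F] E)
    obtain ⟨μ, hμ⟩ : ∃ μ, μ ∉ ⨆ i, P i := by
      by_contra hcon
      push Not at hcon
      exact h1 (Submodule.eq_top_iff'.2 hcon)
    exact ⟨μ, hμ, fun h4 => absurd h h4⟩
  · exact ⟨a, h, fun _ => rfl⟩

theorem Good1.next {m : ℕ} {P : Fin (m + 1) → Submodule F E} (hP : Good1 P) {x : Fin (m + 1) → E}
    (hx : ∀ c : Fin (m + 1) → F, ∑ i, c i • x i ∈ ⨆ i, P i → ∀ i, c i = 0) :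
    Good1 (fun i => P i ⊔ Submodule.span F {x i}) ∧ ∀ i, P i < P i ⊔ Submodule.span F {x i} := by
  classical
  have hxn : ∀ i, x i ∉ P i := by
    intro i hi
    have h1 := hx (Pi.single i 1) (by
      rw [Finset.sum_eq_single i (fun b _ hb => by simp [hb]) (by simp)]
      rw [Pi.single_eq_same, one_smul]
      exact (le_iSup P i) hi) i
    rw [Pi.single_eq_same] at h1
    exact one_ne_zero h1
  refine ⟨⟨?_, ?_⟩, ?_⟩
  · intro i
    have := hP.fin i
    infer_instance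
  · intro v hv h0
    have h1 : ∀ i, ∃ (p : E) (c : F), p ∈ P i ∧ v i = p + c • x i := by
      intro i
      obtain ⟨p, hp, y, hy, hpy⟩ := Submodule.mem_sup.1 (hv i)
      obtain ⟨c, rfl⟩ := Submodule.mem_span_singleton.1 hy
      exact ⟨p, c, hp, hpy.symm⟩
    choose p c hp hpc using h1
    have h2 : ∑ i, p i + ∑ i, c i • x i = 0 := by
      rw [← Finset.sum_add_distrib, ← h0]
      exact Finset.sum_congr rfl fun i _ => (hpc i).symm
    have h3 : ∑ i, c i • x i ∈ ⨆ i, P i := by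
      rw [← neg_eq_of_add_eq_zero_right h2]
      exact Submodule.neg_mem _ (Submodule.sum_mem _ fun i _ => le_iSup P i (hp i))
    have h4 := hx c h3
    have h5 : ∑ i, p i = 0 := by
      rw [← h2, Finset.sum_eq_zero (s := univ) (f := fun i => c i • x i)
        (fun i _ => by rw [h4 i, zero_smul]), add_zero]
    intro i
    rw [hpc i, h4 i, zero_smul, add_zero]
    exact hP.indep p hp h5 i
  · intro i
    refine lt_of_le_of_ne le_sup_left fun h => hxn i ?_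
    rw [h]
    exact Submodule.mem_sup_right (Submodule.mem_span_singleton_self _)

/-- the union of a chain of summands -/
theorem chain_summary {m : ℕ} {U : ℕ → Fin (m + 1) → Submodule F E} (hU : ∀ n, Good1 (U n))
    (hlt : ∀ n i, U n i < U (n + 1) i) {f : ℕ → E} (hf : Function.Surjective f)
    (hfU : ∀ n, f n ∈ ⨆ i, U (n + 1) i) :
    iSupIndep (fun i => ⨆ n, U n i) ∧ ⨆ i, ⨆ n, U n i = ⊤ ∧
      (∀ i, ¬ Module.Finite F (⨆ n, U n i : Submodule F E)) := by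
  classical
  have hmono : ∀ i, Monotone fun n => U n i := fun i =>
    monotone_nat_of_le_succ fun n => (hlt n i).le
  set P : Fin (m + 1) → Submodule F E := fun i => ⨆ n, U n i with hP
  have hUP : ∀ n i, U n i ≤ P i := fun n i => le_iSup (fun n => U n i) n
  refine ⟨?_, ?_, ?_⟩
  · rw [iSupIndep_iff_finsetSum_eq_zero_imp_eq_zero]
    intro s v hv h0 i hi
    set v' : Fin (m + 1) → E := fun i => if i ∈ s then v i else 0 with hv'
    have h1 : ∀ i, ∃ n, v' i ∈ U n i := by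
      intro i
      by_cases his : i ∈ s
      · simp only [hv', if_pos his]
        exact (Submodule.mem_iSup_of_directed (fun n => U n i) (hmono i).directed_le).1 (hv i his)
      · simp only [hv', if_neg his]
        exact ⟨0, Submodule.zero_mem _⟩
    choose N hN using h1
    have h2 : ∀ i, v' i ∈ U (univ.sup N) i := fun i =>
      hmono i (Finset.le_sup (f := N) (Finset.mem_univ i)) (hN i)
    have h3 : ∑ i, v' i = 0 := by
      rw [← h0, ← Finset.sum_subset (Finset.subset_univ s) (fun j _ hj => by simp [hv', hj])]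
      exact Finset.sum_congr rfl fun j hj => by simp [hv', hj]
    have h4 := (hU (univ.sup N)).indep v' h2 h3 i
    simpa [hv', hi] using h4
  · rw [eq_top_iff]
    intro a _
    obtain ⟨n, rfl⟩ := hf a
    exact (iSup_mono fun i => hUP (n + 1) i) (hfU n)
  · intro i hfin
    have h1 : ∀ n, n ≤ finrank F (U n i) := by
      intro n
      induction n with
      | zero => exact Nat.zero_le _
      | succ n ih =>
        have := (hU (n + 1)).fin i
        exact ih.trans_lt (Submodule.finrank_lt_finrank_of_lt (hlt n i))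
    have h2 : finrank F (U (finrank F (P i) + 1) i) ≤ finrank F (P i) :=
      Submodule.finrank_mono (hUP _ i)
    have h3 := h1 (finrank F (P i) + 1)
    omega

end one

variable {κ C : Type} [Field κ] [Field C] [Algebra κ C]
variable {F₁ E₁ I₁ F₂ E₂ I₂ : Type} [Field F₁] [AddCommGroup E₁] [Module F₁ E₁] [Fintype I₁]
  [Field F₂] [AddCommGroup E₂] [Module F₂ E₂] [Fintype I₂]

/-- the state of the construction -/
structure Good2 (κ : Type) {C : Type} [Field κ] [Field C] [Algebra κ C] {F₁ E₁ I₁ F₂ E₂ I₂ : Type}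
    [Field F₁] [AddCommGroup E₁] [Module F₁ E₁] [Field F₂] [AddCommGroup E₂]
    [Module F₂ E₂] (D : ℕ) {P : Type} (θ : P → C) (φ₁ : I₁ → E₁ → C) (φ₂ : I₂ → E₂ → C) {m : ℕ}
    (S : (Fin (m + 1) → Submodule F₁ E₁) × (Fin (m + 1) → Submodule F₂ E₂)) : Prop where
  g₁ : Good1 S.1
  g₂ : Good1 S.2
  free : ∀ j : Fin (m + 1), Free2 κ D θ φ₁ φ₂ (⨆ i : {i // i ≠ j}, S.1 i) (⨆ i : {i // i ≠ j}, S.2 i)

/-- **The decomposition.** -/
theorem exists_split [Infinite κ] {D : ℕ} (hD : 1 ≤ D) {P : Type} [Fintype P] {θ : P → C}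
    {χ₁ : I₁ → F₁ →+* κ} {φ₁ : I₁ → E₁ → C} {χ₂ : I₂ → F₂ →+* κ} {φ₂ : I₂ → E₂ → C}
    [Nonempty I₁] [Nonempty I₂] (h₁ : QL (Aff κ θ) χ₁ φ₁) (h₂ : QL (Aff κ θ) χ₂ φ₂)
    (hG : Gen κ D φ₁ φ₂) (hE₁ : ¬ Module.Finite F₁ E₁) (hE₂ : ¬ Module.Finite F₂ E₂)
    [Countable E₁] [Countable E₂] (m : ℕ) :
    ∃ (P₁ : Fin (m + 1) → Submodule F₁ E₁) (P₂ : Fin (m + 1) → Submodule F₂ E₂),
      (iSupIndep P₁ ∧ ⨆ i, P₁ i = ⊤ ∧ ∀ i, ¬ Module.Finite F₁ (P₁ i)) ∧
      (iSupIndep P₂ ∧ ⨆ i, P₂ i = ⊤ ∧ ∀ i, ¬ Module.Finite F₂ (P₂ i)) ∧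
      ∀ j : Fin (m + 1), Free2 κ D θ φ₁ φ₂ (⨆ i : {i // i ≠ j}, P₁ i)
        (⨆ i : {i // i ≠ j}, P₂ i) := by
  classical
  obtain ⟨f₁, hf₁⟩ := exists_surjective_nat E₁
  obtain ⟨f₂, hf₂⟩ := exists_surjective_nat E₂
  -- the initial state
  have hG₀ : Good2 κ D θ φ₁ φ₂ ((fun _ => ⊥, fun _ => ⊥) :
      (Fin (m + 1) → Submodule F₁ E₁) × (Fin (m + 1) → Submodule F₂ E₂)) := by
    refine ⟨⟨fun i => inferInstance, fun v hv _ i => (Submodule.mem_bot F₁).1 (hv i)⟩,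
      ⟨fun i => inferInstance, fun v hv _ i => (Submodule.mem_bot F₂).1 (hv i)⟩, fun j => ?_⟩
    refine free2_of_span (ι₁ := Fin 0) (ι₂ := Fin 0) (b₁ := fun i => i.elim0) (b₂ := fun i => i.elim0)
      h₁ h₂ (OTR.empty _ _) ?_ ?_
    · exact iSup_le fun _ => bot_le
    · exact iSup_le fun _ => bot_le
  -- the next state
  have hnext : ∀ (n : ℕ) (S : (Fin (m + 1) → Submodule F₁ E₁) × (Fin (m + 1) → Submodule F₂ E₂)),
      ∃ S' : (Fin (m + 1) → Submodule F₁ E₁) × (Fin (m + 1) → Submodule F₂ E₂),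
        Good2 κ D θ φ₁ φ₂ S → (Good2 κ D θ φ₁ φ₂ S' ∧ (∀ i, S.1 i < S'.1 i) ∧
          (∀ i, S.2 i < S'.2 i) ∧ f₁ n ∈ ⨆ i, S'.1 i ∧ f₂ n ∈ ⨆ i, S'.2 i) := by
    intro n S
    by_cases h : Good2 κ D θ φ₁ φ₂ S
    · obtain ⟨μ₁, hμ₁, hμa₁⟩ := h.g₁.exists_mu hE₁ (f₁ n)
      obtain ⟨μ₂, hμ₂, hμa₂⟩ := h.g₂.exists_mu hE₂ (f₂ n)
      obtain ⟨x₁, x₂, hx₁, hx₂, hi₁, hi₂, hfr⟩ := step hD h₁ h₂ hG S.1 S.2 h.g₁.fin h.g₂.fin h.free
        hμ₁ hμ₂
      obtain ⟨g₁, l₁⟩ := h.g₁.next hi₁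
      obtain ⟨g₂, l₂⟩ := h.g₂.next hi₂
      refine ⟨(fun i => S.1 i ⊔ Submodule.span F₁ {x₁ i}, fun i => S.2 i ⊔ Submodule.span F₂ {x₂ i}),
        fun _ => ⟨⟨g₁, g₂, hfr⟩, l₁, l₂, ?_, ?_⟩⟩
      · by_cases h' : f₁ n ∈ ⨆ i, S.1 i
        · exact (iSup_mono fun i => (l₁ i).le) h'
        · rw [← hμa₁ h', ← hx₁]
          exact Submodule.sum_mem _ fun i _ =>
            le_iSup (fun i => S.1 i ⊔ Submodule.span F₁ {x₁ i}) i
              (Submodule.mem_sup_right (Submodule.mem_span_singleton_self _))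
      · by_cases h' : f₂ n ∈ ⨆ i, S.2 i
        · exact (iSup_mono fun i => (l₂ i).le) h'
        · rw [← hμa₂ h', ← hx₂]
          exact Submodule.sum_mem _ fun i _ =>
            le_iSup (fun i => S.2 i ⊔ Submodule.span F₂ {x₂ i}) i
              (Submodule.mem_sup_right (Submodule.mem_span_singleton_self _))
    · exact ⟨S, fun h' => absurd h' h⟩
  choose g hg using hnext
  obtain ⟨U, hU0, hUs⟩ : ∃ U : ℕ → (Fin (m + 1) → Submodule F₁ E₁) × (Fin (m + 1) → Submodule F₂ E₂),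
      U 0 = (fun _ => ⊥, fun _ => ⊥) ∧ ∀ n, U (n + 1) = g n (U n) :=
    ⟨fun n => Nat.rec (fun _ => ⊥, fun _ => ⊥) (fun n S => g n S) n, rfl, fun n => rfl⟩
  have hUg : ∀ n, Good2 κ D θ φ₁ φ₂ (U n) := by
    intro n
    induction n with
    | zero => rw [hU0]; exact hG₀
    | succ n ih => rw [hUs]; exact (hg n (U n) ih).1
  have hlt₁ : ∀ n i, (U n).1 i < (U (n + 1)).1 i := fun n i => by
    rw [hUs]; exact (hg n (U n) (hUg n)).2.1 i
  have hlt₂ : ∀ n i, (U n).2 i < (U (n + 1)).2 i := fun n i => by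
    rw [hUs]; exact (hg n (U n) (hUg n)).2.2.1 i
  have hfU₁ : ∀ n, f₁ n ∈ ⨆ i, (U (n + 1)).1 i := fun n => by
    rw [hUs]; exact (hg n (U n) (hUg n)).2.2.2.1
  have hfU₂ : ∀ n, f₂ n ∈ ⨆ i, (U (n + 1)).2 i := fun n => by
    rw [hUs]; exact (hg n (U n) (hUg n)).2.2.2.2
  have hmono₁ : ∀ i, Monotone fun n => (U n).1 i := fun i =>
    monotone_nat_of_le_succ fun n => (hlt₁ n i).le
  have hmono₂ : ∀ i, Monotone fun n => (U n).2 i := fun i =>
    monotone_nat_of_le_succ fun n => (hlt₂ n i).le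
  refine ⟨fun i => ⨆ n, (U n).1 i, fun i => ⨆ n, (U n).2 i,
    chain_summary (U := fun n => (U n).1) (fun n => (hUg n).g₁) hlt₁ hf₁ hfU₁,
    chain_summary (U := fun n => (U n).2) (fun n => (hUg n).g₂) hlt₂ hf₂ hfU₂, fun j => ?_⟩
  have e₁ : (⨆ i : {i // i ≠ j}, ⨆ n, (U n).1 i) = ⨆ n, ⨆ i : {i // i ≠ j}, (U n).1 i := iSup_comm
  have e₂ : (⨆ i : {i // i ≠ j}, ⨆ n, (U n).2 i) = ⨆ n, ⨆ i : {i // i ≠ j}, (U n).2 i := iSup_comm
  rw [e₁, e₂]
  intro r₁ y₁ r₂ y₂ hy₁ hy₂ hl₁ hl₂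
  have m₁ : Monotone fun n => ⨆ i : {i // i ≠ j}, (U n).1 i := fun a b hab =>
    iSup_mono fun i => hmono₁ _ hab
  have m₂ : Monotone fun n => ⨆ i : {i // i ≠ j}, (U n).2 i := fun a b hab =>
    iSup_mono fun i => hmono₂ _ hab
  choose a₁ ha₁ using fun s => (Submodule.mem_iSup_of_directed _ m₁.directed_le).1 (hy₁ s)
  choose a₂ ha₂ using fun s => (Submodule.mem_iSup_of_directed _ m₂.directed_le).1 (hy₂ s)
  exact (hUg (max (univ.sup a₁) (univ.sup a₂))).free j r₁ y₁ r₂ y₂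
    (fun s => m₁ ((Finset.le_sup (f := a₁) (Finset.mem_univ s)).trans (le_max_left _ _)) (ha₁ s))
    (fun s => m₂ ((Finset.le_sup (f := a₂) (Finset.mem_univ s)).trans (le_max_right _ _)) (ha₂ s))
    hl₁ hl₂

end Pool.Agent.Helper71.ET
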