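import Mathlib
import Pool.Agent.Helper71.ET.Sum

/-!
# The decomposition modulo given subspaces
-/

set_option autoImplicit false
set_option linter.unusedSectionVars false

namespace Pool.Agent.Helper71.ET

open Finset Module MvPolynomial

section one

variable {F S : Type} [Field F] [AddCommGroup S] [Module F S]

/-- `S` is the direct sum of `V` and of the infinite dimensional `P i` -/
structure Dec (V : Submodule F S) {m : ℕ} (P : Fin (m + 1) → Submodule F S) : Prop where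
  disj : Disjoint V (⨆ i, P i)
  top : V ⊔ ⨆ i, P i = ⊤
  indep : iSupIndep P
  inf : ∀ i, ¬ Module.Finite F (P i)

theorem dec_of {V E : Submodule F S} (hE : IsCompl V E) {m : ℕ} {P : Fin (m + 1) → Submodule F E}
    (hi : iSupIndep P) (ht : ⨆ i, P i = ⊤) (hf : ∀ i, ¬ Module.Finite F (P i)) :
    Dec V fun i => (P i).map E.subtype := by
  have h1 : (⨆ i, (P i).map E.subtype) = E := by
    rw [← Submodule.map_iSup, ht, Submodule.map_subtype_top]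
  refine ⟨?_, ?_, ?_, ?_⟩
  · rw [h1]; exact hE.disjoint
  · rw [h1]; exact hE.sup_eq_top
  · exact LinearMap.iSupIndep_map E.subtype E.injective_subtype hi
  · intro i hfin
    apply hf i
    exact Module.Finite.equiv
      (Submodule.equivMapOfInjective E.subtype E.injective_subtype (P i)).symm

theorem lift_family {V E : Submodule F S} {ι : Type} {Q : ι → Submodule F E} {r : ℕ} {y : Fin r → S}
    (hy : ∀ s, y s ∈ V ⊔ ⨆ i, (Q i).map E.subtype)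
    (hli : ∀ c : Fin r → F, ∑ s, c s • y s ∈ V → c = 0) :
    ∃ (v : Fin r → S) (e : Fin r → E), (∀ s, v s ∈ V) ∧ (∀ s, e s ∈ ⨆ i, Q i) ∧
      (∀ s, y s = v s + e s) ∧ LinearIndependent F e := by
  have h1 : ∀ s, ∃ (v : S) (e : E), v ∈ V ∧ e ∈ ⨆ i, Q i ∧ y s = v + e := by
    intro s
    obtain ⟨v, hv, w, hw, hvw⟩ := Submodule.mem_sup.1 (hy s)
    rw [← Submodule.map_iSup] at hw
    obtain ⟨e, he, rfl⟩ := hw
    exact ⟨v, e, hv, he, hvw.symm⟩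
  choose v e hv he hve using h1
  refine ⟨v, e, hv, he, hve, ?_⟩
  rw [Fintype.linearIndependent_iff]
  intro c hc s
  have h2 := hli c (by
    have h3 : ∑ s, c s • y s = ∑ s, c s • v s + ((∑ s, c s • e s : E) : S) := by
      rw [Submodule.coe_sum, ← Finset.sum_add_distrib]
      exact Finset.sum_congr rfl fun s _ => by rw [hve, smul_add]; rfl
    rw [h3, hc]
    exact V.add_mem (V.sum_mem fun s _ => V.smul_mem _ (hv s)) (by simp))
  exact congrFun h2 s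

end one

variable {κ C : Type} [Field κ] [Field C] [Algebra κ C]
variable {F₁ S₁ I₁ F₂ S₂ I₂ : Type} [Field F₁] [AddCommGroup S₁] [Module F₁ S₁] [Fintype I₁]
  [Field F₂] [AddCommGroup S₂] [Module F₂ S₂] [Fintype I₂]

/-- **The decomposition modulo given subspaces.** -/
theorem exists_dec [Infinite κ] {D : ℕ} (hD : 1 ≤ D) {P : Type} [Fintype P] {θ : P → C}
    {χ₁ : I₁ → F₁ →+* κ} {φ₁ : I₁ → S₁ → C} {χ₂ : I₂ → F₂ →+* κ} {φ₂ : I₂ → S₂ → C}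
    [Nonempty I₁] [Nonempty I₂] (h₁ : QL (Aff κ θ) χ₁ φ₁) (h₂ : QL (Aff κ θ) χ₂ φ₂)
    {V₁ : Submodule F₁ S₁} {V₂ : Submodule F₂ S₂} (hV₁ : ∀ i, ∀ v ∈ V₁, φ₁ i v ∈ Aff κ θ)
    (hV₂ : ∀ i, ∀ v ∈ V₂, φ₂ i v ∈ Aff κ θ)
    (hG : ∀ (E₁ : Submodule F₁ S₁) (E₂ : Submodule F₂ S₂), ¬ Module.Finite F₁ E₁ →
      ¬ Module.Finite F₂ E₂ → Gen κ D (fun i (x : E₁) => φ₁ i x) (fun i (x : E₂) => φ₂ i x))
    (hQ₁ : ¬ Module.Finite F₁ (S₁ ⧸ V₁)) (hQ₂ : ¬ Module.Finite F₂ (S₂ ⧸ V₂))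
    [Countable S₁] [Countable S₂] (m : ℕ) :
    ∃ (P₁ : Fin (m + 1) → Submodule F₁ S₁) (P₂ : Fin (m + 1) → Submodule F₂ S₂),
      Dec V₁ P₁ ∧ Dec V₂ P₂ ∧
      ∀ (j : Fin (m + 1)) (r₁ : ℕ) (y₁ : Fin r₁ → S₁) (r₂ : ℕ) (y₂ : Fin r₂ → S₂),
        (∀ s, y₁ s ∈ V₁ ⊔ ⨆ i : {i // i ≠ j}, P₁ i) → (∀ s, y₂ s ∈ V₂ ⊔ ⨆ i : {i // i ≠ j}, P₂ i) →
        (∀ c : Fin r₁ → F₁, ∑ s, c s • y₁ s ∈ V₁ → c = 0) →
        (∀ c : Fin r₂ → F₂, ∑ s, c s • y₂ s ∈ V₂ → c = 0) → OTR κ D θ (co φ₁ φ₂ y₁ y₂) := by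
  classical
  obtain ⟨E₁, hE₁⟩ := V₁.exists_isCompl
  obtain ⟨E₂, hE₂⟩ := V₂.exists_isCompl
  have hi₁ : ¬ Module.Finite F₁ E₁ := fun h =>
    hQ₁ (Module.Finite.equiv (Submodule.quotientEquivOfIsCompl V₁ E₁ hE₁).symm)
  have hi₂ : ¬ Module.Finite F₂ E₂ := fun h =>
    hQ₂ (Module.Finite.equiv (Submodule.quotientEquivOfIsCompl V₂ E₂ hE₂).symm)
  have q₁ : QL (Aff κ θ) χ₁ (fun i (x : E₁) => φ₁ i x) :=
    ⟨fun i x y => h₁.add i x y, fun i a x => h₁.smul i a x⟩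
  have q₂ : QL (Aff κ θ) χ₂ (fun i (x : E₂) => φ₂ i x) :=
    ⟨fun i x y => h₂.add i x y, fun i a x => h₂.smul i a x⟩
  obtain ⟨P₁, P₂, ⟨a₁, b₁, c₁⟩, ⟨a₂, b₂, c₂⟩, hfree⟩ :=
    exists_split hD q₁ q₂ (hG E₁ E₂ hi₁ hi₂) hi₁ hi₂ m
  refine ⟨fun i => (P₁ i).map E₁.subtype, fun i => (P₂ i).map E₂.subtype, dec_of hE₁ a₁ b₁ c₁,
    dec_of hE₂ a₂ b₂ c₂, ?_⟩
  intro j r₁ y₁ r₂ y₂ hy₁ hy₂ hl₁ hl₂
  obtain ⟨v₁, e₁, hv₁, he₁, hve₁, hle₁⟩ := lift_family (Q := fun i : {i // i ≠ j} => P₁ i) hy₁ hl₁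
  obtain ⟨v₂, e₂, hv₂, he₂, hve₂, hle₂⟩ := lift_family (Q := fun i : {i // i ≠ j} => P₂ i) hy₂ hl₂
  have h3 := hfree j r₁ e₁ r₂ e₂ he₁ he₂ hle₁ hle₂
  have h4 : OTR κ D θ (co φ₁ φ₂ (fun s => (e₁ s : S₁)) (fun s => (e₂ s : S₂))) := by
    convert h3 using 1
    funext p
    rcases p with p | p <;> rfl
  have hid : ∀ (G : Type) [Field G] (r : ℕ), LinearIndependent G
      (fun s => (Pi.single s 1 : Fin r → G)) := by
    intro G _ r
    have := (Pi.basisFun G (Fin r)).linearIndependent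
    convert this using 1
    funext s
    exact (Pi.basisFun_apply G (Fin r) s).symm
  refine h4.change h₁ h₂ v₁ v₂ (fun i s => hV₁ i _ (hv₁ s)) (fun i s => hV₂ i _ (hv₂ s))
    (fun s => Pi.single s 1) (hid F₁ r₁) (fun s => Pi.single s 1) (hid F₂ r₂) ?_ ?_
  · intro s
    rw [hve₁ s, Finset.sum_eq_single s (fun b _ hb => by rw [Pi.single_eq_of_ne hb, zero_smul])
      (fun h => absurd (Finset.mem_univ _) h), Pi.single_eq_same, one_smul]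
  · intro s
    rw [hve₂ s, Finset.sum_eq_single s (fun b _ hb => by rw [Pi.single_eq_of_ne hb, zero_smul])
      (fun h => absurd (Finset.mem_univ _) h), Pi.single_eq_same, one_smul]

end Pool.Agent.Helper71.ET
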