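import Pool.Graph.R_seed8.W245.EB.Psi

set_option autoImplicit false

/-!
Elliptic logarithms of algebraic points are divisible.
-/

open Filter
open scoped Topology PeriodPair

noncomputable section

namespace Pool.Agent.Helper71.ET

open Pool.Agent.W245.EB H667R3

variable {L : PeriodPair}

/-- a zero of a nonzero function which is a polynomial in `℘`, `℘'` -/
theorem Sm_zero (h2 : IsAlgebraic ℚ L.g₂) (h3 : IsAlgebraic ℚ L.g₃) {f : ℂ → ℂ} (hf : Sm L f)
    {w z : ℂ} (hw : 2 * w ∉ L.lattice) (hz2 : 2 * z ∉ L.lattice) (h0 : f w = 0) (h1 : f z ≠ 0)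
    (h1' : f (-z) ≠ 0) : IsAlgebraic ℚ (℘[L] w) := by
  by_contra hcon
  have hw0 := two_mul_notMem_of L hw
  obtain ⟨e, P, hP⟩ := hf
  obtain ⟨A, B, hAB⟩ := exists_AB h2 h3 P
  set cub : Polynomial QB := Polynomial.C 4 * Polynomial.X ^ 3 -
    Polynomial.C (⟨L.g₂, mem_QB.2 h2⟩ : QB) * Polynomial.X - Polynomial.C (⟨L.g₃, mem_QB.2 h3⟩ : QB)
    with hcub
  have hcubv : ∀ z, z ∉ L.lattice → Polynomial.aeval (℘[L] z) cub = ℘'[L] z ^ 2 := by
    intro z hz
    have e1 : algebraMap QB ℂ ⟨L.g₂, mem_QB.2 h2⟩ = L.g₂ := rfl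
    have e2 : algebraMap QB ℂ ⟨L.g₃, mem_QB.2 h3⟩ = L.g₃ := rfl
    rw [hcub]
    simp only [map_mul, map_sub, map_pow, Polynomial.aeval_X, Polynomial.aeval_C, e1, e2,
        map_ofNat]
    rw [L.derivWeierstrassP_sq z hz]
  set Nm : Polynomial QB := A ^ 2 - B ^ 2 * cub with hNm
  have hNv : ∀ z, z ∉ L.lattice → Polynomial.aeval (℘[L] z) Nm =
      (Polynomial.aeval (℘[L] z) A + Polynomial.aeval (℘[L] z) B * ℘'[L] z) *
      (Polynomial.aeval (℘[L] z) A - Polynomial.aeval (℘[L] z) B * ℘'[L] z) := by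
    intro z hz
    rw [hNm]
    simp only [map_sub, map_mul, map_pow]
    rw [hcubv z hz]
    ring
  have ht1 : Polynomial.aeval (℘[L] w) Nm = 0 := by
    rw [hNv w hw0, ← hAB w hw0, ← hP w hw, h0]
    ring
  have hN0 : Nm = 0 := by
    by_contra hne
    exact hcon (QB_root Nm hne ht1)
  have hz := two_mul_notMem_of L hz2
  have h4 := hNv z hz
  rw [hN0, map_zero] at h4
  have hz2' : 2 * (-z) ∉ L.lattice := by
    intro h
    apply hz2
    have := neg_mem h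
    rwa [show -(2 * -z) = 2 * z by ring] at this
  have hz' := two_mul_notMem_of L hz2'
  have h5 : Polynomial.aeval (℘[L] z) A + Polynomial.aeval (℘[L] z) B * ℘'[L] z ≠ 0 := by
    rw [← hAB z hz, ← hP z hz2]
    exact mul_ne_zero h1 (pow_ne_zero _ (wp'_ne_zero L hz2))
  have h6 : Polynomial.aeval (℘[L] z) A - Polynomial.aeval (℘[L] z) B * ℘'[L] z ≠ 0 := by
    have h7 : Polynomial.aeval (℘[L] z) A - Polynomial.aeval (℘[L] z) B * ℘'[L] z =
        Polynomial.aeval (℘[L] (-z)) A + Polynomial.aeval (℘[L] (-z)) B * ℘'[L] (-z) := by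
      rw [L.weierstrassP_neg, L.derivWeierstrassP_neg]
      ring
    rw [h7, ← hAB (-z) hz', ← hP (-z) hz2']
    exact mul_ne_zero h1' (pow_ne_zero _ (wp'_ne_zero L hz2'))
  exact (mul_ne_zero h5 h6) h4.symm

/-- a generic point -/
theorem exists_generic2 (L : PeriodPair) {m : ℕ} (hm : 0 < m) (u : ℂ) : ∃ z : ℂ,
    2 * z ∉ L.lattice ∧ (m : ℂ) * z ∉ L.lattice ∧ (m : ℂ) * z + u ∉ L.lattice ∧
      (m : ℂ) * z - u ∉ L.lattice := by
  set G : Submodule ℤ ℂ := Submodule.span ℤ {L.ω₁ / 2, L.ω₂ / 2, L.ω₁ / m, L.ω₂ / m, u / m} with hG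
  have hω₁0 : L.ω₁ ≠ 0 := by
    intro h
    have := L.ω₁_div_two_notMem_lattice
    rw [h, zero_div] at this
    exact this (zero_mem _)
  have hfg : G.FG := Submodule.fg_span (Set.toFinite _)
  obtain ⟨e, he⟩ := exists_notMem G hfg hω₁0
  have hmC : (m : ℂ) ≠ 0 := by exact_mod_cast hm.ne'
  have h1 : L.ω₁ / 2 ∈ G := Submodule.subset_span (by simp)
  have h2 : L.ω₂ / 2 ∈ G := Submodule.subset_span (by simp)
  have h3 : L.ω₁ / m ∈ G := Submodule.subset_span (by simp)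
  have h4 : L.ω₂ / m ∈ G := Submodule.subset_span (by simp)
  have h5 : u / m ∈ G := Submodule.subset_span (by simp)
  have key : ∀ c : ℤ, (m : ℂ) * (L.ω₁ / 2 ^ e) + c * u ∉ L.lattice := by
    intro c h
    apply he
    obtain ⟨a, a', e1⟩ := PeriodPair.mem_lattice.1 h
    have : L.ω₁ / 2 ^ e = a • (L.ω₁ / m) + a' • (L.ω₂ / m) - c • (u / m) := by
      rw [zsmul_eq_mul, zsmul_eq_mul, zsmul_eq_mul]
      apply mul_left_cancel₀ hmC
      have e2 : (m : ℂ) * (L.ω₁ / 2 ^ e) = a * L.ω₁ + a' * L.ω₂ - c * u := by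
        linear_combination -e1
      rw [e2]
      field_simp
    rw [this]
    exact G.sub_mem (G.add_mem (G.smul_mem _ h3) (G.smul_mem _ h4)) (G.smul_mem _ h5)
  refine ⟨L.ω₁ / 2 ^ e, fun h => he ?_, ?_, ?_, ?_⟩
  · obtain ⟨a, a', e1⟩ := PeriodPair.mem_lattice.1 h
    have : L.ω₁ / 2 ^ e = a • (L.ω₁ / 2) + a' • (L.ω₂ / 2) := by
      rw [zsmul_eq_mul, zsmul_eq_mul]
      linear_combination (-1 / 2 : ℂ) * e1
    rw [this]
    exact G.add_mem (G.smul_mem _ h1) (G.smul_mem _ h2)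
  · simpa using key 0
  · simpa using key 1
  · simpa [sub_eq_add_neg] using key (-1)

/-- **Division.** -/
theorem EL_div (h2 : IsAlgebraic ℚ L.g₂) (h3 : IsAlgebraic ℚ L.g₃) {u : ℂ} (hu : u ∈ EL L) {m : ℕ}
    (hm : 0 < m) : u / m ∈ EL L := by
  have hmC : (m : ℂ) ≠ 0 := by exact_mod_cast hm.ne'
  have hmu : (m : ℂ) * (u / m) = u := by field_simp
  by_cases huL : u ∈ L.lattice
  · exact torsion_EL h2 h3 hm (by rwa [hmu])
  have hua : IsAlgebraic ℚ (℘[L] u) := hu.resolve_left huL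
  set w := u / m with hwdef
  by_cases h2w : 2 * w ∈ L.lattice
  · exact half_EL h2 h3 (Or.inl h2w)
  have hw0 := two_mul_notMem_of L h2w
  right
  obtain ⟨n, rfl⟩ : ∃ n, m = n + 1 := ⟨m - 1, by omega⟩
  set f : ℂ → ℂ := fun z => (℘[L] u - ℘[L] z) * psi L (n + 1) z ^ 2 +
    psi L (n + 2) z * psi L n z with hf
  have hSm : Sm L f := by
    apply Sm.add
    · exact ((Sm.const (mem_QB.2 hua)).sub Sm.wp).mul ((Sm_psi h2 (n + 1)).pow 2)
    · exact (Sm_psi h2 (n + 2)).mul (Sm_psi h2 n)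
  have hval : ∀ z, z ∉ L.lattice → ((n + 1 : ℕ) : ℂ) * z ∉ L.lattice →
      f z = (℘[L] u - ℘[L] (((n + 1 : ℕ) : ℂ) * z)) * psi L (n + 1) z ^ 2 := by
    intro z hz hmz
    have s1 := sigma_ne_zero L hz
    have s2 := sigma_ne_zero L hmz
    have h := wp_sub_wp L hmz hz
    have e1 : ((n + 1 : ℕ) : ℂ) * z + z = (n + 2 : ℕ) * z := by push_cast; ring
    have e2 : ((n + 1 : ℕ) : ℂ) * z - z = (n : ℕ) * z := by push_cast; ring
    rw [e1, e2, sigma_eq_psi hz, sigma_eq_psi hz, sigma_eq_psi hz] at h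
    have hp : psi L (n + 1) z ≠ 0 := div_ne_zero s2 (pow_ne_zero _ s1)
    have h' : (℘[L] (((n + 1 : ℕ) : ℂ) * z) - ℘[L] z) * psi L (n + 1) z ^ 2 =
        -(psi L (n + 2) z * psi L n z) := by
      rw [h]
      have e3 : sigma L z ^ ((n + 2) ^ 2) * sigma L z ^ (n ^ 2) =
          (sigma L z ^ ((n + 1) ^ 2)) ^ 2 * sigma L z ^ 2 := by
        rw [← pow_add, ← pow_mul, ← pow_add]
        congr 1
        ring
      have e4 : sigma L z ^ ((n + 1) ^ 2) ≠ 0 := pow_ne_zero _ s1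
      rw [div_mul_eq_mul_div, div_eq_iff (mul_ne_zero (pow_ne_zero _ (mul_ne_zero hp e4)) (pow_ne_zero _ s1))]
      linear_combination (-(psi L (n + 2) z * psi L n z * psi L (n + 1) z ^ 2)) * e3
    rw [hf]
    simp only
    linear_combination h'
  obtain ⟨z, hz2, hmz, hz3, hz4⟩ := exists_generic2 L hm u
  have hgen : ∀ z, 2 * z ∉ L.lattice → ((n + 1 : ℕ) : ℂ) * z ∉ L.lattice →
      ((n + 1 : ℕ) : ℂ) * z + u ∉ L.lattice → ((n + 1 : ℕ) : ℂ) * z - u ∉ L.lattice → f z ≠ 0 := by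
    intro z hz2 hmz hz3 hz4
    have hz := two_mul_notMem_of L hz2
    rw [hval z hz hmz]
    apply mul_ne_zero
    · rw [sub_ne_zero]
      intro h
      rcases (wp_eq_iff L huL hmz).1 h with h5 | h5
      · exact hz3 (by rwa [add_comm] at h5)
      · exact hz4 (by have := neg_mem h5; rwa [neg_sub] at this)
    · exact pow_ne_zero _ (div_ne_zero (sigma_ne_zero L hmz) (pow_ne_zero _ (sigma_ne_zero L hz)))
  refine Sm_zero h2 h3 hSm h2w hz2 ?_ (hgen z hz2 hmz hz3 hz4) (hgen (-z) ?_ ?_ ?_ ?_)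
  · rw [hval w hw0 (by rwa [hmu]), hmu, sub_self, zero_mul]
  · intro h
    exact hz2 (by have := neg_mem h; rwa [show -(2 * -z) = 2 * z by ring] at this)
  · intro h
    exact hmz (by have := neg_mem h; rwa [mul_neg, neg_neg] at this)
  · intro h
    exact hz4 (by
      have := neg_mem h
      rwa [show -(((n + 1 : ℕ) : ℂ) * -z + u) = ((n + 1 : ℕ) : ℂ) * z - u by ring] at this)
  · intro h
    exact hz3 (by
      have := neg_mem h
      rwa [show -(((n + 1 : ℕ) : ℂ) * -z - u) = ((n + 1 : ℕ) : ℂ) * z + u by ring] at this)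

end Pool.Agent.Helper71.ET
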