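import Mathlib
import Pool.Agent.Helper71.ET.Div
import Pool.Graph.R_seed8.W245.EB.Par

/-!
# The space of the elliptic logarithms over the field of the multiplications
-/

set_option autoImplicit false
set_option linter.unusedSectionVars false

open scoped PeriodPair ComplexConjugate

noncomputable section

namespace Pool.Agent.Helper71.ET

open Pool.Agent.W245.EB H667R3 Module

variable {L : PeriodPair}

/-- `F` is the field of the multiplications of `L` -/
structure MF (L : PeriodPair) (F : Type) [Field F] [Algebra F ℂ] : Prop where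
  mul : ∀ a : F, algebraMap F ℂ a ∈ kL L
  surj : ∀ β ∈ kL L, ∃ a : F, algebraMap F ℂ a = β
  two : ∃ α : ℂ, ∀ a : F, ∃ x y : ℚ, algebraMap F ℂ a = x + y * α

section

variable (h2 : IsAlgebraic ℚ L.g₂) (h3 : IsAlgebraic ℚ L.g₃) {F : Type} [Field F] [Algebra F ℂ]

/-- the elliptic logarithms of algebraic points -/
def elMod (hF : MF L F) : Submodule F ℂ where
  carrier := EL L
  add_mem' := fun hu hv => add_mem_EL h2 h3 hu hv
  zero_mem' := Or.inl (zero_mem _)
  smul_mem' := by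
    intro a u hu
    obtain ⟨m, hm, h⟩ := hF.mul a
    have h4 := mul_mem_EL h2 h3 h hu
    have h5 := EL_div h2 h3 h4 hm
    have hmC : (m : ℂ) ≠ 0 := by exact_mod_cast hm.ne'
    convert h5 using 1
    rw [Algebra.smul_def]
    field_simp

omit [Field F] [Algebra F ℂ] in
theorem nmul_mem {u : ℂ} (hu : u ∈ L.lattice) (n : ℕ) : (n : ℂ) * u ∈ L.lattice := by
  have := nsmul_mem hu n
  rwa [nsmul_eq_mul] at this

/-- the rational multiples of the periods -/
def perMod (hF : MF L F) : Submodule F ℂ where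
  carrier := {u | ∃ n : ℕ, 0 < n ∧ (n : ℂ) * u ∈ L.lattice}
  add_mem' := by
    rintro u v ⟨n, hn, hu⟩ ⟨m, hm, hv⟩
    refine ⟨n * m, Nat.mul_pos hn hm, ?_⟩
    have h1 := add_mem (nmul_mem hu m) (nmul_mem hv n)
    convert h1 using 1
    push_cast; ring
  zero_mem' := ⟨1, one_pos, by rw [mul_zero]; exact zero_mem _⟩
  smul_mem' := by
    rintro a u ⟨n, hn, hu⟩
    obtain ⟨m, hm, h⟩ := hF.mul a
    refine ⟨m * n, Nat.mul_pos hm hn, ?_⟩
    have h1 := h _ hu
    convert h1 using 1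
    rw [Algebra.smul_def]
    push_cast; ring

theorem mem_elMod {hF : MF L F} {u : ℂ} : u ∈ elMod h2 h3 hF ↔ u ∈ EL L := Iff.rfl

theorem mem_perMod {hF : MF L F} {u : ℂ} :
    u ∈ perMod hF ↔ ∃ n : ℕ, 0 < n ∧ (n : ℂ) * u ∈ L.lattice := Iff.rfl

theorem perMod_le {hF : MF L F} : perMod hF ≤ elMod h2 h3 hF := by
  rintro u ⟨n, hn, hu⟩
  exact torsion_EL h2 h3 hn hu

/-- the periods inside the space of the elliptic logarithms -/
def perIn (hF : MF L F) : Submodule F (elMod h2 h3 hF) := (perMod hF).comap (elMod h2 h3 hF).subtype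

theorem mem_perIn {hF : MF L F} {u : elMod h2 h3 hF} :
    u ∈ perIn h2 h3 hF ↔ ∃ n : ℕ, 0 < n ∧ (n : ℂ) * u ∈ L.lattice := Iff.rfl

theorem not_finite_quot (hinf : ∀ S : Set ℂ, S.Finite → ¬ EL L ⊆ (Submodule.span ℚ S : Set ℂ))
    (hF : MF L F) : ¬ Module.Finite F (elMod h2 h3 hF ⧸ perIn h2 h3 hF) := by
  intro hfin
  obtain ⟨n, f, hf⟩ := Module.Finite.exists_fin (R := F) (M := elMod h2 h3 hF ⧸ perIn h2 h3 hF)
  choose b hb using fun i => (perIn h2 h3 hF).mkQ_surjective (f i)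
  obtain ⟨α, hα⟩ := hF.two
  set S : Set ℂ := (Set.range fun i => (b i : ℂ)) ∪ (Set.range fun i => α * (b i : ℂ)) ∪
    {L.ω₁, L.ω₂} with hS
  have hSf : S.Finite := ((Set.finite_range _).union (Set.finite_range _)).union (Set.toFinite _)
  apply hinf S hSf
  intro u hu
  have h1 : (perIn h2 h3 hF).mkQ ⟨u, hu⟩ ∈ Submodule.span F (Set.range f) := by
    rw [hf]; exact Submodule.mem_top
  obtain ⟨c, hc⟩ := (Submodule.mem_span_range_iff_exists_fun F).1 h1
  have h4 : (⟨u, hu⟩ : elMod h2 h3 hF) - ∑ i, c i • b i ∈ perIn h2 h3 hF := by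
    rw [← Submodule.ker_mkQ (perIn h2 h3 hF), LinearMap.mem_ker, map_sub, map_sum, ← hc, sub_eq_zero]
    exact Finset.sum_congr rfl fun i _ => by rw [map_smul, hb]
  obtain ⟨N, hN, h5⟩ := (mem_perIn h2 h3).1 h4
  have h6 : (((⟨u, hu⟩ : elMod h2 h3 hF) - ∑ i, c i • b i : elMod h2 h3 hF) : ℂ) =
      u - ∑ i, algebraMap F ℂ (c i) * (b i : ℂ) := by
    rw [Submodule.coe_sub, Submodule.coe_sum]
    congr 1
    exact Finset.sum_congr rfl fun i _ => by
      rw [Submodule.coe_smul, Algebra.smul_def]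
  rw [h6] at h5
  obtain ⟨p, q, hpq⟩ := PeriodPair.mem_lattice.1 h5
  have hNC : (N : ℂ) ≠ 0 := by exact_mod_cast hN.ne'
  choose x y hxy using fun i => hα (c i)
  have h7 : u = ((p / N : ℚ) • L.ω₁ + (q / N : ℚ) • L.ω₂) +
      ∑ i, (x i • (b i : ℂ) + y i • (α * (b i : ℂ))) := by
    have h8 : u = (p * L.ω₁ + q * L.ω₂) / N + ∑ i, algebraMap F ℂ (c i) * (b i : ℂ) := by
      rw [hpq]
      field_simp
      ring
    rw [h8]
    congr 1
    · simp only [Rat.smul_def]
      push_cast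
      ring
    · refine Finset.sum_congr rfl fun i _ => ?_
      rw [hxy i]
      simp only [Rat.smul_def]
      ring
  rw [h7]
  have m1 : L.ω₁ ∈ Submodule.span ℚ S := Submodule.subset_span (Or.inr (Or.inl rfl))
  have m2 : L.ω₂ ∈ Submodule.span ℚ S := Submodule.subset_span (Or.inr (Or.inr rfl))
  have m3 : ∀ i, (b i : ℂ) ∈ Submodule.span ℚ S := fun i =>
    Submodule.subset_span (Or.inl (Or.inl ⟨i, rfl⟩))
  have m4 : ∀ i, α * (b i : ℂ) ∈ Submodule.span ℚ S := fun i =>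
    Submodule.subset_span (Or.inl (Or.inr ⟨i, rfl⟩))
  exact Submodule.add_mem _ (Submodule.add_mem _ (Submodule.smul_mem _ _ m1)
    (Submodule.smul_mem _ _ m2)) (Submodule.sum_mem _ fun i _ =>
      Submodule.add_mem _ (Submodule.smul_mem _ _ (m3 i)) (Submodule.smul_mem _ _ (m4 i)))

end

/-! ### lattices without complex multiplication -/

theorem MF.rat (hre : ∀ β ∈ kL L, β.im = 0) : MF L ℚ := by
  refine ⟨fun a => ?_, fun β hβ => ?_, ⟨0, fun a => ⟨a, 0, by simp⟩⟩⟩
  · refine ⟨a.den, a.den_pos, fun w hw => ?_⟩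
    have h1 : (a.den : ℂ) * algebraMap ℚ ℂ a = a.num := by
      rw [eq_ratCast]
      exact_mod_cast congrArg (fun x : ℚ => (x : ℂ)) (Rat.den_mul_eq_num a)
    rw [h1, ← zsmul_eq_mul]
    exact zsmul_mem hw _
  · obtain ⟨m, hm, h⟩ := hβ
    obtain ⟨a, b, h1⟩ := PeriodPair.mem_lattice.1 (h _ L.ω₁_mem_lattice)
    have h2 := LinearIndependent.pair_iff.1 L.indep ((m : ℝ) * β.re - a) (-b) (by
      simp only [Complex.real_smul]
      have h3 : β = (β.re : ℂ) := by
        apply Complex.ext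
        · simp
        · rw [hre β ⟨m, hm, h⟩]; simp
      push_cast
      rw [← h3]
      linear_combination -h1)
    have hmR : (m : ℝ) ≠ 0 := by exact_mod_cast hm.ne'
    refine ⟨a / m, ?_⟩
    apply Complex.ext
    · have h4 : β.re = a / m := by
        rw [eq_div_iff hmR]
        linarith [h2.1]
      rw [h4, eq_ratCast]
      push_cast
      have : ((a : ℂ) / m) = ((a / m : ℝ) : ℂ) := by push_cast; rfl
      rw [this, Complex.ofReal_re]
    · rw [hre β ⟨m, hm, h⟩, eq_ratCast]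
      push_cast
      have : ((a : ℂ) / m) = ((a / m : ℝ) : ℂ) := by push_cast; rfl
      rw [this, Complex.ofReal_im]

/-! ### complex multiplication -/

/-- the complex conjugate of a multiplication is a multiplication -/
theorem conj_cases {α : ℂ} (hm : ∀ w ∈ L.lattice, α * w ∈ L.lattice) :
    conj α = α ∨ ∃ T : ℤ, conj α = T - α := by
  by_cases hα : α = 0
  · left; rw [hα, map_zero]
  obtain ⟨T, Δ, -, h⟩ := exists_det hα hm
  have h1 := congrArg conj h
  rw [map_mul, map_sub, map_intCast, map_intCast] at h1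
  have h2 : (conj α - α) * ((T : ℂ) - α - conj α) = 0 := by linear_combination h1 - h
  rcases mul_eq_zero.1 h2 with h3 | h3
  · left; linear_combination h3
  · right; exact ⟨T, by linear_combination -h3⟩

theorem zmul_mem {u : ℂ} (hu : u ∈ L.lattice) (n : ℤ) : (n : ℂ) * u ∈ L.lattice := by
  have := zsmul_mem hu n
  rwa [zsmul_eq_mul] at this

theorem mult_conj {α : ℂ} (hm : ∀ w ∈ L.lattice, α * w ∈ L.lattice) :
    ∀ w ∈ L.lattice, conj α * w ∈ L.lattice := by
  intro w hw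
  rcases conj_cases hm with h | ⟨T, h⟩
  · rw [h]; exact hm w hw
  · rw [h, sub_mul]
    exact sub_mem (zmul_mem hw T) (hm w hw)

/-- the field of the multiplications -/
def kF (L : PeriodPair) : IntermediateField ℚ ℂ where
  carrier := kL L
  mul_mem' := (kL L).mul_mem
  add_mem' := (kL L).add_mem
  algebraMap_mem' := by
    intro q
    refine ⟨q.den, q.den_pos, fun w hw => ?_⟩
    have h1 := zmul_mem (L := L) hw q.num
    convert h1 using 2
    rw [eq_ratCast]
    exact_mod_cast congrArg (fun x : ℚ => (x : ℂ)) (Rat.den_mul_eq_num q)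
  inv_mem' := by
    rintro a ⟨n, hn, ha⟩
    by_cases ha0 : a = 0
    · exact ⟨1, one_pos, fun w _ => by rw [ha0, inv_zero, mul_zero, zero_mul]; exact zero_mem _⟩
    have hn0 : (n : ℂ) ≠ 0 := by exact_mod_cast hn.ne'
    obtain ⟨T, Δ, hΔ, h⟩ := exists_det (mul_ne_zero hn0 ha0) ha
    have hΔ0 : (Δ : ℂ) ≠ 0 := by exact_mod_cast hΔ
    have h1 : (Δ : ℂ) * a⁻¹ = n * (T - n * a) := by
      rw [← h]
      field_simp
    have h2 : ∀ w ∈ L.lattice, ((Δ : ℂ) * a⁻¹) * w ∈ L.lattice := by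
      intro w hw
      rw [h1]
      have h3 := sub_mem (zmul_mem (L := L) hw T) (ha w hw)
      have h4 := nmul_mem (L := L) h3 n
      convert h4 using 1
      ring
    refine ⟨Δ.natAbs, Int.natAbs_pos.2 hΔ, fun w hw => ?_⟩
    rcases Int.natAbs_eq Δ with h5 | h5
    · have : ((Δ.natAbs : ℕ) : ℂ) = (Δ : ℂ) := by
        conv_rhs => rw [h5]
        simp
      rw [this]
      exact h2 w hw
    · have : ((Δ.natAbs : ℕ) : ℂ) = -(Δ : ℂ) := by
        conv_rhs => rw [h5]
        simp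
      rw [this, neg_mul, neg_mul]
      exact neg_mem (h2 w hw)

theorem mem_kF {c : ℂ} : c ∈ kF L ↔ c ∈ kL L := Iff.rfl

theorem conj_mem_kL {c : ℂ} (h : c ∈ kL L) : conj c ∈ kL L := by
  obtain ⟨n, hn, h⟩ := h
  refine ⟨n, hn, fun w hw => ?_⟩
  have := mult_conj h w hw
  rwa [map_mul, map_natCast] at this

theorem mult_mem_kL {c : ℂ} (h : ∀ w ∈ L.lattice, c * w ∈ L.lattice) : c ∈ kL L :=
  ⟨1, one_pos, fun w hw => by rw [Nat.cast_one, one_mul]; exact h w hw⟩

/-- the multiplications are combinations of `1` and `α` -/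
theorem mult_two {α : ℂ} (hα : α.im ≠ 0) (hm : ∀ w ∈ L.lattice, α * w ∈ L.lattice) {β : ℂ}
    (hβ : β ∈ kL L) : ∃ (n : ℕ) (a b : ℤ), 0 < n ∧ (n : ℂ) * β = a + b * α := by
  obtain ⟨m, hm0, h⟩ := hβ
  obtain ⟨c, d, h1⟩ := PeriodPair.mem_lattice.1 (h _ L.ω₁_mem_lattice)
  obtain ⟨e, f, h2⟩ := PeriodPair.mem_lattice.1 (hm _ L.ω₁_mem_lattice)
  have h0 := ω₁_ne_zero L
  have hf : f ≠ 0 := by
    intro hf
    rw [hf, Int.cast_zero, zero_mul, add_zero] at h2
    have h4 := mul_right_cancel₀ h0 h2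
    apply hα
    rw [← h4]
    simp
  have h3 : ((f * m : ℤ) : ℂ) * β = (f * c - d * e : ℤ) + (d : ℤ) * α := by
    apply mul_right_cancel₀ h0
    push_cast
    linear_combination (-f : ℂ) * h1 + (d : ℂ) * h2
  have hfm : (f * m).natAbs ≠ 0 := by
    rw [Int.natAbs_ne_zero]
    exact mul_ne_zero hf (by exact_mod_cast hm0.ne')
  rcases Int.natAbs_eq (f * m) with h5 | h5
  · refine ⟨(f * m).natAbs, f * c - d * e, d, Nat.pos_of_ne_zero hfm, ?_⟩
    rw [← h3]
    congr 1
    conv_rhs => rw [h5]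
    simp
  · refine ⟨(f * m).natAbs, -(f * c - d * e), -d, Nat.pos_of_ne_zero hfm, ?_⟩
    have h6 : (((f * m).natAbs : ℕ) : ℂ) = -((f * m : ℤ) : ℂ) := by
      conv_rhs => rw [h5]
      simp
    rw [h6]
    push_cast at h3 ⊢
    linear_combination -h3

theorem MF.cm {α : ℂ} (hα : α.im ≠ 0) (hm : ∀ w ∈ L.lattice, α * w ∈ L.lattice) :
    MF L (kF L) := by
  refine ⟨fun a => a.2, fun β hβ => ⟨⟨β, hβ⟩, rfl⟩, ⟨α, fun a => ?_⟩⟩
  obtain ⟨n, x, y, hn, h⟩ := mult_two hα hm a.2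
  have hnC : (n : ℂ) ≠ 0 := by exact_mod_cast hn.ne'
  refine ⟨x / n, y / n, ?_⟩
  have h1 : algebraMap (kF L) ℂ a = (a : ℂ) := rfl
  rw [h1]
  push_cast
  field_simp
  rw [mul_comm]
  exact h

end Pool.Agent.Helper71.ET
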