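import Mathlib
import Pool.Agent.Helper71.ET.Mult
import Pool.Agent.Helper71.ET.Lift

/-!
# The coordinates of the elliptic logarithms
-/

set_option autoImplicit false
set_option linter.unusedSectionVars false

open scoped PeriodPair ComplexConjugate

noncomputable section

namespace Pool.Agent.Helper71.ET

open Pool.Agent.W245.EB H667R3 Module MvPolynomial

/-- shears -/
theorem OTR.shear {κ C : Type} [Field κ] [Field C] [Algebra κ C] {D : ℕ} {P σ τ : Type} {θ : P → C}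
    {x : σ → C} {y z : τ → C} (a : κ) (h : OTR κ D θ (Sum.elim x (Sum.elim y z))) :
    OTR κ D θ (Sum.elim x (Sum.elim y (fun t => z t + algebraMap κ C a * y t))) := by
  classical
  intro Q hQ h0 w
  let G : P ⊕ (σ ⊕ (τ ⊕ τ)) → MvPolynomial (P ⊕ (σ ⊕ (τ ⊕ τ))) κ := Sum.elim (fun p => X (Sum.inl p))
    (Sum.elim (fun s => X (Sum.inr (Sum.inl s))) (Sum.elim (fun t => X (Sum.inr (Sum.inr (Sum.inl t))))
      (fun t => X (Sum.inr (Sum.inr (Sum.inr t))) +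
        MvPolynomial.C a * X (Sum.inr (Sum.inr (Sum.inl t))))))
  have hG1 : ∀ i, (G i).totalDegree ≤ 1 := by
    rintro (p | s | t | t)
    · simp only [G, Sum.elim_inl]; rw [totalDegree_X]
    · simp only [G, Sum.elim_inl, Sum.elim_inr]; rw [totalDegree_X]
    · simp only [G, Sum.elim_inl, Sum.elim_inr]; rw [totalDegree_X]
    · simp only [G, Sum.elim_inr]
      refine (totalDegree_add _ _).trans (max_le ?_ ?_)
      · rw [totalDegree_X]
      · refine (totalDegree_mul _ _).trans ?_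
        rw [totalDegree_C, totalDegree_X]
  have key : ∀ u : σ ⊕ (τ ⊕ τ) → C, aeval (Sum.elim θ u) (bind₁ G Q) =
      aeval (Sum.elim θ (Sum.elim (fun s => u (Sum.inl s)) (Sum.elim (fun t => u (Sum.inr (Sum.inl t)))
        (fun t => u (Sum.inr (Sum.inr t)) + algebraMap κ C a * u (Sum.inr (Sum.inl t)))))) Q := by
    intro u
    rw [aeval_bind]
    congr 1
    congr 1
    funext p
    rcases p with p | s | t | t <;> simp [G]
  have h1 := h (bind₁ G Q) ((totalDegree_bind_le G hG1 Q).trans hQ) (by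
    rw [key]
    exact h0)
  have h2 := h1 (Sum.elim (fun s => w (Sum.inl s)) (Sum.elim (fun t => w (Sum.inr (Sum.inl t)))
    (fun t => w (Sum.inr (Sum.inr t)) - algebraMap κ C a * w (Sum.inr (Sum.inl t)))))
  rw [key] at h2
  have e : (Sum.elim (fun s => w (Sum.inl s)) (Sum.elim (fun t => w (Sum.inr (Sum.inl t)))
      (fun t => w (Sum.inr (Sum.inr t)))) : σ ⊕ (τ ⊕ τ) → C) = w := by
    funext i
    rcases i with s | t | t <;> rfl
  simp only [Sum.elim_inl, Sum.elim_inr, sub_add_cancel] at h2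
  rwa [e] at h2

variable {L : PeriodPair}

theorem QB_le_Aff {P : Type} {θ : P → ℂ} {c : ℂ} (hc : c ∈ QB) : c ∈ Aff Qb θ := by
  have h := (Aff Qb θ).smul_mem (⟨c, hc⟩ : Qb) (Aff.one θ)
  have h1 : (⟨c, hc⟩ : Qb) • (1 : ℂ) = c := by
    rw [Algebra.smul_def, mul_one]
    rfl
  rwa [h1] at h

theorem QB_mul_Aff {P : Type} {θ : P → ℂ} {c x : ℂ} (hc : c ∈ QB) (hx : x ∈ Aff Qb θ) :
    c * x ∈ Aff Qb θ := by
  have h := (Aff Qb θ).smul_mem (⟨c, hc⟩ : Qb) hx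
  rwa [Algebra.smul_def] at h

section lin

variable (h2 : IsAlgebraic ℚ L.g₂) (h3 : IsAlgebraic ℚ L.g₃) {s ρ : ℂ}

include h2 h3

theorem lin_add {x y : ℂ} (hx : x ∈ EL L) (hy : y ∈ EL L) (hs : s ∈ QB) :
    (s * zt L (x + y) + ρ * (x + y)) - ((s * zt L x + ρ * x) + (s * zt L y + ρ * y)) ∈ QB := by
  have h1 := mul_mem hs (zt_add_QB h2 h3 hx hy)
  convert h1 using 1
  ring

theorem lin_int {x : ℂ} (hx : x ∈ EL L) (hs : s ∈ QB) (n : ℤ) :
    (s * zt L (n * x) + ρ * (n * x)) - n * (s * zt L x + ρ * x) ∈ QB := by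
  have h1 := zt_comb (J := Unit) h2 h3 (u := fun _ => x) (fun _ => hx) (fun _ => n)
  simp only [Finset.univ_unique, Finset.sum_singleton] at h1
  have h4 := mul_mem hs h1
  convert h4 using 1
  ring

theorem int_mem_EL {x : ℂ} (hx : x ∈ EL L) (n : ℤ) : (n : ℂ) * x ∈ EL L := by
  have h1 := comb_mem_EL (J := Unit) h2 h3 (u := fun _ => x) (fun _ => hx) (fun _ => n)
  simpa using h1

theorem lin_semi (hs : s ∈ QB) {α α' : ℂ} (hα : ∀ z ∈ EL L, α * z ∈ EL L)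
    (h : ∀ z ∈ EL L, (s * zt L (α * z) + ρ * (α * z)) - α' * (s * zt L z + ρ * z) ∈ QB)
    {β : ℂ} {n : ℕ} {a b : ℤ} (hn : 0 < n) (hβ : (n : ℂ) * β = a + b * α) {z : ℂ} (hz : z ∈ EL L)
    (hβz : β * z ∈ EL L) : (s * zt L (β * z) + ρ * (β * z)) -
      ((a + b * α') / n) * (s * zt L z + ρ * z) ∈ QB := by
  have hnC : (n : ℂ) ≠ 0 := by exact_mod_cast hn.ne'
  have e1 := lin_int h2 h3 (ρ := ρ) hβz hs n
  have e2 := lin_add h2 h3 (ρ := ρ) (int_mem_EL h2 h3 hz a) (int_mem_EL h2 h3 (hα z hz) b) hs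
  have e3 := lin_int h2 h3 (ρ := ρ) hz hs a
  have e4 := lin_int h2 h3 (ρ := ρ) (hα z hz) hs b
  have e5 := mul_mem (intCast_mem QB b) (h z hz)
  have e6 : ((n : ℤ) : ℂ) * (β * z) = (a : ℂ) * z + (b : ℂ) * (α * z) := by
    push_cast
    linear_combination z * hβ
  rw [e6] at e1
  have e7 := sub_mem (add_mem (add_mem e2 (add_mem e3 e4)) e5) e1
  have e8 := div_mem e7 (natCast_mem QB n)
  convert e8 using 1
  rw [eq_div_iff hnC, sub_mul]
  have e9 : (a + b * α') / n * (s * zt L z + ρ * z) * n = (a + b * α') * (s * zt L z + ρ * z) := by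
    field_simp
  rw [e9]
  push_cast
  ring

end lin

variable (h2 : IsAlgebraic ℚ L.g₂) (h3 : IsAlgebraic ℚ L.g₃) {F : Type} [Field F] [Algebra F ℂ]

/-- the coordinates -/
def phE {I : Type} (hF : MF L F) (s ρ : I → ℂ) : I → elMod h2 h3 hF → ℂ :=
  fun i z => s i * zt L z + ρ i * z

theorem phE_QL {I : Type} {hF : MF L F} {s ρ : I → ℂ} (hs : ∀ i, s i ∈ QB) {χ : I → F →+* Qb}
    (hχ : ∀ i (a : F), ∀ z ∈ EL L, (s i * zt L (algebraMap F ℂ a * z) + ρ i * (algebraMap F ℂ a * z)) -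
      (χ i a : ℂ) * (s i * zt L z + ρ i * z) ∈ QB) {P : Type} (θ : P → ℂ) :
    QL (Aff Qb θ) χ (phE h2 h3 hF s ρ) := by
  refine ⟨fun i x y => QB_le_Aff ?_, fun i a x => QB_le_Aff ?_⟩
  · exact lin_add h2 h3 x.2 y.2 (hs i)
  · have h1 := hχ i a x x.2
    simp only [phE, Submodule.coe_smul]
    rw [Algebra.smul_def]
    exact h1

/-- the values of the coordinates at the periods -/
theorem phE_per {I : Type} {hF : MF L F} {s ρ : I → ℂ} (hs : ∀ i, s i ∈ QB) (hρ : ∀ i, ρ i ∈ QB)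
    {P : Type} {θ : P → ℂ} (hω₁ : L.ω₁ ∈ Aff Qb θ) (hω₂ : L.ω₂ ∈ Aff Qb θ)
    (hη₁ : eta L L.ω₁ ∈ Aff Qb θ) (hη₂ : eta L L.ω₂ ∈ Aff Qb θ) (i : I) {v : elMod h2 h3 hF}
    (hv : v ∈ perIn h2 h3 hF) : phE h2 h3 hF s ρ i v ∈ Aff Qb θ := by
  obtain ⟨n, hn, h⟩ := (mem_perIn h2 h3).1 hv
  obtain ⟨x, y, hxy⟩ := PeriodPair.mem_lattice.1 h
  have h4 := intCast_mul_mem L L.ω₁_mem_lattice x
  have h5 := intCast_mul_mem L L.ω₂_mem_lattice y
  have hnC : (n : ℂ) ≠ 0 := by exact_mod_cast hn.ne'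
  have e1 : zt L ((n : ℂ) * v) ∈ Aff Qb θ := by
    rw [zt_of_mem h, ← hxy, eta_add L h4 h5, eta_zsmul L L.ω₁_mem_lattice,
      eta_zsmul L L.ω₂_mem_lattice]
    exact (Aff Qb θ).add_mem (QB_mul_Aff (intCast_mem QB x) hη₁) (QB_mul_Aff (intCast_mem QB y) hη₂)
  have e2 : (n : ℂ) * (v : ℂ) ∈ Aff Qb θ := by
    rw [← hxy]
    exact (Aff Qb θ).add_mem (QB_mul_Aff (intCast_mem QB x) hω₁) (QB_mul_Aff (intCast_mem QB y) hω₂)
  have e3 := lin_int h2 h3 (ρ := ρ i) v.2 (hs i) n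
  have e4 : s i * zt L ((n : ℂ) * v) + ρ i * ((n : ℂ) * v) ∈ Aff Qb θ :=
    (Aff Qb θ).add_mem (QB_mul_Aff (hs i) e1) (QB_mul_Aff (hρ i) e2)
  have e5 := (Aff Qb θ).sub_mem e4 (QB_le_Aff e3)
  have e6 := QB_mul_Aff (inv_mem (natCast_mem QB n)) e5
  convert e6 using 1
  simp only [phE]
  push_cast
  field_simp
  ring

end Pool.Agent.Helper71.ET
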