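import Mathlib
import Pool.Agent.Helper71.ET.Coord

/-!
# The coordinates for lattices with complex multiplication
-/

set_option autoImplicit false
set_option linter.unusedSectionVars false

open scoped PeriodPair ComplexConjugate

noncomputable section

namespace Pool.Agent.Helper71.ET

open Pool.Agent.W245.EB H667R3 Module MvPolynomial

variable {L : PeriodPair}

/-- the conjugate multiplication is the complex conjugate -/
theorem star_eq (h2 : IsAlgebraic ℚ L.g₂) (h3 : IsAlgebraic ℚ L.g₃) {α : ℂ} (hα : α.im ≠ 0)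
    (hm : ∀ w ∈ L.lattice, α * w ∈ L.lattice) {N : ℕ} {κ' : ℂ} (hN : 0 < N) (hκ : κ' ∈ QB)
    (hrel : ∀ u ∈ EL L, zt L (α * u) - (N / α * zt L u + κ' * u) ∈ QB) :
    (N : ℂ) / α = conj α := by
  have hα0 : α ≠ 0 := by
    rintro rfl
    exact hα (by simp)
  obtain ⟨T, Δ, -, hT⟩ := exists_det hα0 hm
  have hαQ : α ∈ QB := mem_QB.2 (alg_of_mul hm)
  set a := (N : ℂ) / α with ha
  have haQ : a ∈ QB := div_mem (natCast_mem _ _) hαQ
  have hne : a ≠ α := ne_conj hα hN
  have hu : L.ω₁ ∈ EL L := Or.inl L.ω₁_mem_lattice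
  have hαu : α * L.ω₁ ∈ EL L := mul_mem_EL h2 h3 hm hu
  have A1 := hrel _ hu
  have A2 := hrel _ hαu
  have A3 := lin_add h2 h3 (s := 1) (ρ := 0) (int_mem_EL h2 h3 hαu T) (int_mem_EL h2 h3 hu (-Δ))
    (one_mem QB)
  have A4 := lin_int h2 h3 (s := 1) (ρ := 0) hαu (one_mem QB) T
  have A5 := lin_int h2 h3 (s := 1) (ρ := 0) hu (one_mem QB) (-Δ)
  have e1 : α * (α * L.ω₁) = (T : ℂ) * (α * L.ω₁) + ((-Δ : ℤ) : ℂ) * L.ω₁ := by
    push_cast
    linear_combination (-L.ω₁) * hT
  rw [e1] at A2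
  have A6 : (T - a) * (zt L (α * L.ω₁) - (a * zt L L.ω₁ + κ' * L.ω₁)) ∈ QB :=
    mul_mem (sub_mem (intCast_mem _ _) haQ) A1
  have A7 : ((T - a) * a - Δ) * zt L L.ω₁ + ((T - a) * κ' - κ' * α) * L.ω₁ ∈ QB := by
    have h4 := sub_mem (sub_mem (sub_mem (sub_mem A2 A3) A4) A5) A6
    convert h4 using 1
    push_cast
    ring
  have A8 : (T - a) * a - Δ = 0 := by
    by_contra hne
    have h5 := second_kind h2 h3 (fun _ : Fin 1 => L.ω₁) (fun _ => hu) (by
      intro β _ hβ
      funext i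
      rw [Fin.sum_univ_one] at hβ
      have := (mul_eq_zero.1 hβ).resolve_right (ω₁_ne_zero L)
      rw [Subsingleton.elim i 0]
      exact this) ((T - a) * a - Δ) ((T - a) * κ' - κ' * α)
      (mem_QB.1 (sub_mem (mul_mem (sub_mem (intCast_mem _ _) haQ) haQ) (intCast_mem _ _)))
      (mem_QB.1 (sub_mem (mul_mem (sub_mem (intCast_mem _ _) haQ) hκ) (mul_mem hκ hαQ)))
      (Or.inl hne) (fun _ => 1) (fun _ => isAlgebraic_one) (by
        rw [Fin.sum_univ_one, one_mul]
        exact mem_QB.1 A7)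
    have := congrFun h5 0
    simp at this
  have A9 : a = T - α := by
    have h4 : (a - α) * (T - α - a) = 0 := by linear_combination A8 - hT
    rcases mul_eq_zero.1 h4 with h5 | h5
    · exact absurd (sub_eq_zero.1 h5) hne
    · linear_combination -h5
  have h1 := congrArg conj hT
  rw [map_mul, map_sub, map_intCast, map_intCast] at h1
  have h4 : (conj α - α) * ((T : ℂ) - α - conj α) = 0 := by linear_combination h1 - hT
  rcases mul_eq_zero.1 h4 with h5 | h5
  · exfalso
    apply hα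
    exact Complex.conj_eq_iff_im.1 (sub_eq_zero.1 h5)
  · rw [A9]
    linear_combination h5

/-- the coefficients of the coordinates -/
def sB : Bool → ℂ := fun b => cond b 1 0

/-- the coefficients of the coordinates -/
def rB (a₀ : ℂ) : Bool → ℂ := fun b => cond b (-a₀) 1

/-- the two embeddings -/
def chiB (L : PeriodPair) : Bool → kF L →+* Qb := fun b =>
  match b with
  | false => (algebraMap (kF L) ℂ).codRestrict Qb (fun x => mult_mem_Qb x.2)
  | true => ((starRingEnd ℂ).comp (algebraMap (kF L) ℂ)).codRestrict Qb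
      (fun x => mult_mem_Qb (conj_mem_kL x.2))

theorem chiB_false (x : kF L) : ((chiB L false x : Qb) : ℂ) = x := rfl

theorem chiB_true (x : kF L) : ((chiB L true x : Qb) : ℂ) = conj (x : ℂ) := rfl

theorem chiB_semi (h2 : IsAlgebraic ℚ L.g₂) (h3 : IsAlgebraic ℚ L.g₃) {α : ℂ} (hα : α.im ≠ 0)
    (hm : ∀ w ∈ L.lattice, α * w ∈ L.lattice) {N : ℕ} {κ' : ℂ} (hN : 0 < N) (hκ : κ' ∈ QB)
    (hrel : ∀ u ∈ EL L, zt L (α * u) - (N / α * zt L u + κ' * u) ∈ QB) {a₀ : ℂ}
    (ha₀ : a₀ * (α - N / α) = κ') (i : Bool) (a : kF L) (z : ℂ) (hz : z ∈ EL L) :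
    (sB i * zt L (algebraMap (kF L) ℂ a * z) + rB a₀ i * (algebraMap (kF L) ℂ a * z)) -
      (chiB L i a : ℂ) * (sB i * zt L z + rB a₀ i * z) ∈ QB := by
  have hF : MF L (kF L) := MF.cm hα hm
  cases i with
  | false =>
    rw [chiB_false]
    have e : (sB false * zt L (algebraMap (kF L) ℂ a * z) + rB a₀ false * (algebraMap (kF L) ℂ a * z)) -
      (a : ℂ) * (sB false * zt L z + rB a₀ false * z) = 0 := by
      have h1 : algebraMap (kF L) ℂ a = (a : ℂ) := rfl
      simp only [sB, rB, cond_false, h1]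
      ring
    rw [e]
    exact zero_mem _
  | true =>
    rw [chiB_true]
    have hst := star_eq h2 h3 hα hm hN hκ hrel
    rw [hst] at ha₀
    obtain ⟨n, x, y, hn, h⟩ := mult_two hα hm a.2
    have hnC : (n : ℂ) ≠ 0 := by exact_mod_cast hn.ne'
    have haz : (a : ℂ) * z ∈ EL L := by
      have := (elMod h2 h3 hF).smul_mem a hz
      rwa [Algebra.smul_def] at this
    have h1 := lin_semi h2 h3 (s := 1) (ρ := -a₀) (one_mem QB) (α := α) (α' := conj α)
      (fun z hz => mul_mem_EL h2 h3 hm hz) (by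
        intro z hz
        have h4 := hrel z hz
        rw [hst] at h4
        convert h4 using 1
        linear_combination (-z) * ha₀) hn h hz haz
    have h5 : ((x : ℂ) + y * conj α) / n = conj (a : ℂ) := by
      rw [div_eq_iff hnC]
      have h6 := congrArg conj h
      rw [map_mul, map_natCast, map_add, map_mul, map_intCast, map_intCast] at h6
      rw [← h6]
      ring
    rw [h5] at h1
    exact h1

end Pool.Agent.Helper71.ET
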