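import Mathlib
import Pool.Agent.Helper71.ET.Cm
import Pool.Agent.Helper71.MLog.Logs

/-!
# Generic families of logarithms and of elliptic logarithms
-/

set_option autoImplicit false
set_option linter.unusedSectionVars false

open scoped PeriodPair ComplexConjugate

noncomputable section

namespace Pool.Agent.Helper71.ET

open Pool.Agent.W245.EB H667R3 Module MvPolynomial

theorem exists_li {F E : Type} [Field F] [AddCommGroup E] [Module F E] (h : ¬ Module.Finite F E)
    (R : ℕ) : ∃ u : Fin R → E, LinearIndependent F u := by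
  let b := Module.Basis.ofVectorSpace F E
  have hinf : Infinite (Module.Basis.ofVectorSpaceIndex F E) := by
    by_contra hcon
    have hfin : Finite (Module.Basis.ofVectorSpaceIndex F E) := not_infinite_iff_finite.1 hcon
    exact h (Module.Finite.of_basis b)
  exact ⟨fun i => b (Infinite.natEmbedding _ i), b.linearIndependent.comp _
    ((Infinite.natEmbedding _).injective.comp Fin.val_injective)⟩

theorem exists_int_point {σ : Type} {Q : MvPolynomial σ Qb} (hQ : Q ≠ 0) :
    ∃ m : σ → ℤ, MvPolynomial.eval (fun p => ((m p : ℤ) : Qb)) Q ≠ 0 := by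
  by_contra hcon
  push Not at hcon
  apply hQ
  refine MvPolynomial.funext_set (fun _ => Set.range (Int.cast : ℤ → Qb))
    (fun _ => Set.infinite_range_of_injective Int.cast_injective) ?_
  intro x hx
  choose m hm using fun i => hx i (Set.mem_univ i)
  rw [map_zero, ← hcon m]
  congr 1
  congr 1
  funext i
  exact (hm i).symm

/-- the logarithms of algebraic numbers -/
abbrev LG : Submodule ℚ ℂ := Submodule.span ℚ {z : ℂ | IsAlgebraic ℚ (Complex.exp z)}

/-- the coordinate of the logarithms -/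
def idT : Unit → LG → ℂ := fun _ z => z

theorem logFam_of {E : Submodule ℚ LG} {R : ℕ} {a : Fin R → E} (ha : LinearIndependent ℚ a) :
    LogFam (fun j => ((a j : LG) : ℂ)) := by
  refine ⟨fun j => (Helper71.MLog.mem_span_logs _).1 (a j : LG).2, ?_⟩
  have h1 := ha.map' (LG.subtype.comp E.subtype) (LinearMap.ker_eq_bot.2
    (LG.injective_subtype.comp E.injective_subtype))
  exact h1

variable {L : PeriodPair} (h2 : IsAlgebraic ℚ L.g₂) (h3 : IsAlgebraic ℚ L.g₃)

theorem ellFam_of {F : Type} [Field F] [Algebra F ℂ] {hF : MF L F}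
    {E : Submodule F (elMod h2 h3 hF)} {R : ℕ} {u : Fin R → E} (hu : LinearIndependent F u) :
    EllFam L (fun j => ((u j : elMod h2 h3 hF) : ℂ)) := by
  refine ⟨fun j => (u j : elMod h2 h3 hF).2, ?_⟩
  intro β hβ h0
  choose c hc using fun j => hF.surj (β j) (hβ j)
  rw [Fintype.linearIndependent_iff] at hu
  have h1 := hu c (by
    apply Subtype.ext
    apply Subtype.ext
    rw [Submodule.coe_sum, Submodule.coe_sum]
    simp only [Submodule.coe_smul]
    rw [← h0.trans (by rfl : (0 : ℂ) = (((0 : E) : elMod h2 h3 hF) : ℂ))]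
    exact Finset.sum_congr rfl fun j _ => by rw [Algebra.smul_def, hc])
  funext j
  rw [← hc j, h1 j, map_zero]
  rfl

theorem log_comb {E : Submodule ℚ LG} {R : ℕ} (a : Fin R → E) (M : Fin R → ℤ) :
    (((∑ j, (M j : ℚ) • a j : E) : LG) : ℂ) = ∑ j, (M j : ℂ) * ((a j : LG) : ℂ) := by
  rw [Submodule.coe_sum, Submodule.coe_sum]
  refine Finset.sum_congr rfl fun j _ => ?_
  rw [Submodule.coe_smul, Submodule.coe_smul, Rat.smul_def]
  push_cast
  rfl

theorem ell_comb {F : Type} [Field F] [Algebra F ℂ] {hF : MF L F}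
    {E : Submodule F (elMod h2 h3 hF)} {R : ℕ} (u : Fin R → E) (c : Fin R → F) :
    (((∑ j, c j • u j : E) : elMod h2 h3 hF) : ℂ) =
      ∑ j, algebraMap F ℂ (c j) * ((u j : elMod h2 h3 hF) : ℂ) := by
  rw [Submodule.coe_sum, Submodule.coe_sum]
  refine Finset.sum_congr rfl fun j _ => ?_
  rw [Submodule.coe_smul, Submodule.coe_smul, Algebra.smul_def]

/-- generic families for lattices with complex multiplication -/
theorem gen_cm {α : ℂ} (hα : α.im ≠ 0) (hm : ∀ w ∈ L.lattice, α * w ∈ L.lattice)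
    (hF : MF L (kF L)) {a₀ : ℂ} (ha₀ : a₀ ∈ QB) (D : ℕ) (E₁ : Submodule ℚ LG)
    (E₂ : Submodule (kF L) (elMod h2 h3 hF)) (hE₁ : ¬ Module.Finite ℚ E₁)
    (hE₂ : ¬ Module.Finite (kF L) E₂) : Gen Qb D (fun i (x : E₁) => idT i x)
      (fun i (x : E₂) => phE h2 h3 hF sB (rB a₀) i x) := by
  classical
  intro p θ m
  set W : Submodule Qb ℂ := monSpan θ D with hW
  have hfin : Module.Finite Qb W := monSpan_finite θ D
  set R := finrank Qb W * (D + 1) ^ (Fintype.card (Fin m) + (Fintype.card (Fin 0) +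
    (Fintype.card (Fin m) + Fintype.card (Fin m)))) with hR
  obtain ⟨a, ha⟩ := exists_li hE₁ R
  obtain ⟨u, hu⟩ := exists_li hE₂ R
  let d : Data (Fin m) (Fin 0) (Fin m) (Fin R) :=
    { wA := fun _ j => ((a j : LG) : ℂ)
      hA := fun _ => logFam_of ha
      LB := fun b => b.elim0
      g2B := fun b => b.elim0
      g3B := fun b => b.elim0
      uB := fun b => b.elim0
      hB := fun b => b.elim0
      s := fun b => b.elim0
      ρ := fun b => b.elim0
      hs := fun b => b.elim0
      hρ := fun b => b.elim0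
      hsρ := fun b => b.elim0
      LC := fun _ => L
      g2C := fun _ => h2
      g3C := fun _ => h3
      uC := fun _ j => ((u j : elMod h2 h3 hF) : ℂ)
      hC := fun _ => ellFam_of h2 h3 hu
      α := fun _ => α
      hα := fun _ => hα
      hmul := fun _ => hm }
  obtain ⟨Q, hQ0, -, hQ⟩ := d.main (finrank Qb W) D W hfin le_rfl
    (Fintype.card_fin R).ge
  obtain ⟨M', hM'⟩ := exists_int_point hQ0
  set M : Data.Ind (Fin m) (Fin 0) (Fin m) → Fin R → ℤ := fun i j => M' (i, j) with hM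
  have h4 := hQ M hM'
  have h5 : OTR Qb D θ (d.num M) := NoRelTot.param θ h4
  let αF : kF L := ⟨α, mult_mem_kL hm⟩
  set z₁ : Fin m → E₁ := fun l => ∑ j, (M (Sum.inl l) j : ℚ) • a j with hz₁
  set z₂ : Fin m → E₂ := fun l => ∑ j, ((M (Sum.inr (Sum.inr (Sum.inl l))) j : kF L) +
    (M (Sum.inr (Sum.inr (Sum.inr l))) j : kF L) * αF) • u j with hz₂
  have c₁ : ∀ l, ((z₁ l : LG) : ℂ) = d.tA M l := fun l => log_comb a _
  have c₂ : ∀ l, ((z₂ l : elMod h2 h3 hF) : ℂ) = d.pC M l := by
    intro l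
    rw [hz₂]
    simp only
    rw [ell_comb]
    refine Finset.sum_congr rfl fun j _ => ?_
    congr 1
  refine ⟨z₁, z₂, ?_⟩
  -- the first change of the indices
  have h6 : OTR Qb D θ (Sum.elim (d.tA M) (Sum.elim (d.pC M) (fun l => zt L (d.pC M l)))) := by
    have h7 := h5.comp (f := fun i : Fin m ⊕ (Fin m ⊕ Fin m) =>
        (Sum.elim Sum.inl (fun k => Sum.inr (Sum.inr k)) i : Data.Ind (Fin m) (Fin 0) (Fin m)))
        (by
          rintro (a | a) (b | b) hab
          · simp only [Sum.elim_inl] at hab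
            rw [Sum.inl_injective hab]
          · simp at hab
          · simp at hab
          · simp only [Sum.elim_inr] at hab
            rw [Sum.inr_injective (Sum.inr_injective hab)])
    convert h7 using 1
    funext i
    rcases i with i | i | i <;> rfl
  have h7 := h6.shear (⟨-a₀, neg_mem ha₀⟩ : Qb)
  have h8 := h7.comp (f := fun i : (Unit × Fin m) ⊕ (Bool × Fin m) =>
    (match i with
    | Sum.inl (_, l) => Sum.inl l
    | Sum.inr (false, l) => Sum.inr (Sum.inl l)
    | Sum.inr (true, l) => Sum.inr (Sum.inr l) : Fin m ⊕ (Fin m ⊕ Fin m))) (by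
      rintro (⟨_, a⟩ | ⟨_ | _, a⟩) (⟨_, b⟩ | ⟨_ | _, b⟩) hab <;> simp_all)
  convert h8 using 1
  funext i
  rcases i with ⟨_, l⟩ | ⟨_ | _, l⟩
  · simp only [co, Sum.elim_inl, Function.comp, idT]
    rw [c₁]
  · simp only [co, Sum.elim_inr, Sum.elim_inl, Function.comp, phE, sB, rB, cond_false]
    rw [c₂]
    ring
  · simp only [co, Sum.elim_inr, Function.comp, phE, sB, rB, cond_true]
    rw [c₂]
    have : algebraMap Qb ℂ (⟨-a₀, neg_mem ha₀⟩ : Qb) = -a₀ := rfl
    rw [this]
    ring

/-- generic families for lattices without complex multiplication -/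
theorem gen_rat (hF : MF L ℚ) {s ρ : ℂ} (hs : s ∈ QB) (hρ : ρ ∈ QB) (hsρ : s ≠ 0 ∨ ρ ≠ 0) (D : ℕ)
    (E₁ : Submodule ℚ LG) (E₂ : Submodule ℚ (elMod h2 h3 hF)) (hE₁ : ¬ Module.Finite ℚ E₁)
    (hE₂ : ¬ Module.Finite ℚ E₂) : Gen Qb D (fun i (x : E₁) => idT i x)
      (fun i (x : E₂) => phE h2 h3 hF (fun _ : Unit => s) (fun _ => ρ) i x) := by
  classical
  intro p θ m
  set W : Submodule Qb ℂ := monSpan θ D with hW
  have hfin : Module.Finite Qb W := monSpan_finite θ D
  set R := finrank Qb W * (D + 1) ^ (Fintype.card (Fin m) + (Fintype.card (Fin m) +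
    (Fintype.card (Fin 0) + Fintype.card (Fin 0)))) with hR
  obtain ⟨a, ha⟩ := exists_li hE₁ R
  obtain ⟨u, hu⟩ := exists_li hE₂ R
  let d : Data (Fin m) (Fin m) (Fin 0) (Fin R) :=
    { wA := fun _ j => ((a j : LG) : ℂ)
      hA := fun _ => logFam_of ha
      LB := fun _ => L
      g2B := fun _ => h2
      g3B := fun _ => h3
      uB := fun _ j => ((u j : elMod h2 h3 hF) : ℂ)
      hB := fun _ => ellFam_of h2 h3 hu
      s := fun _ => s
      ρ := fun _ => ρ
      hs := fun _ => mem_QB.1 hs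
      hρ := fun _ => mem_QB.1 hρ
      hsρ := fun _ => hsρ
      LC := fun c => c.elim0
      g2C := fun c => c.elim0
      g3C := fun c => c.elim0
      uC := fun c => c.elim0
      hC := fun c => c.elim0
      α := fun c => c.elim0
      hα := fun c => c.elim0
      hmul := fun c => c.elim0 }
  obtain ⟨Q, hQ0, -, hQ⟩ := d.main (finrank Qb W) D W hfin le_rfl
    (Fintype.card_fin R).ge
  obtain ⟨M', hM'⟩ := exists_int_point hQ0
  set M : Data.Ind (Fin m) (Fin m) (Fin 0) → Fin R → ℤ := fun i j => M' (i, j) with hM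
  have h4 := hQ M hM'
  have h5 : OTR Qb D θ (d.num M) := NoRelTot.param θ h4
  set z₁ : Fin m → E₁ := fun l => ∑ j, (M (Sum.inl l) j : ℚ) • a j with hz₁
  set z₂ : Fin m → E₂ := fun l => ∑ j, (M (Sum.inr (Sum.inl l)) j : ℚ) • u j with hz₂
  have c₁ : ∀ l, ((z₁ l : LG) : ℂ) = d.tA M l := fun l => log_comb a _
  have c₂ : ∀ l, ((z₂ l : elMod h2 h3 hF) : ℂ) = d.pB M l := by
    intro l
    rw [hz₂]
    simp only
    rw [ell_comb]
    refine Finset.sum_congr rfl fun j _ => ?_
    rw [map_intCast]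
  refine ⟨z₁, z₂, ?_⟩
  have h8 := h5.comp (f := fun i : (Unit × Fin m) ⊕ (Unit × Fin m) =>
    (Sum.elim (fun q => Sum.inl q.2) (fun q => Sum.inr (Sum.inl q.2)) i :
      Data.Ind (Fin m) (Fin m) (Fin 0))) (by
      rintro (⟨_, a⟩ | ⟨_, a⟩) (⟨_, b⟩ | ⟨_, b⟩) hab <;> simp_all)
  convert h8 using 1
  funext i
  rcases i with ⟨_, l⟩ | ⟨_, l⟩
  · simp only [co, Sum.elim_inl, Function.comp, idT]
    rw [c₁]
    rfl
  · simp only [co, Sum.elim_inr, Function.comp, phE]
    rw [c₂]
    rfl

end Pool.Agent.Helper71.ET
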