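import Mathlib
import Pool.Agent.Helper71.ET.GenE

/-!
# The decomposition of the spaces of the logarithms and of the elliptic logarithms
-/

set_option autoImplicit false
set_option linter.unusedSectionVars false

open scoped PeriodPair ComplexConjugate

noncomputable section

namespace Pool.Agent.Helper71.ET

open Pool.Agent.W245.EB H667R3 Module MvPolynomial

/-- `S` is the direct sum of `V` and of the infinite dimensional spaces `P i` -/
structure Dsum (S : Set ℂ) (V : Submodule ℚ ℂ) {m : ℕ} (P : Fin (m + 1) → Submodule ℚ ℂ) : Prop where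
  sum : ∀ x : ℂ, x ∈ S ↔ ∃ v ∈ V, ∃ p : Fin (m + 1) → ℂ, (∀ i, p i ∈ P i) ∧ x = v + ∑ i, p i
  unique : ∀ v ∈ V, ∀ p : Fin (m + 1) → ℂ, (∀ i, p i ∈ P i) → v + ∑ i, p i = 0 → v = 0 ∧ p = 0
  inf : ∀ i, ¬ Module.Finite ℚ (P i)

/-- the sum of `V` and of the `P i`, `i ≠ j` -/
def Om (V : Submodule ℚ ℂ) {m : ℕ} (P : Fin (m + 1) → Submodule ℚ ℂ) (j : Fin (m + 1)) : Set ℂ :=
  {x | ∃ v ∈ V, ∃ p : Fin (m + 1) → ℂ, (∀ i, p i ∈ P i) ∧ p j = 0 ∧ x = v + ∑ i, p i}

section gen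

variable {F : Type} [Field F] [Algebra F ℂ] [Algebra ℚ F] [IsScalarTower ℚ F ℂ]
  {S : Submodule F ℂ}

/-- the rational space underlying a space over `F` -/
def lo (P : Submodule F S) : Submodule ℚ ℂ := (P.map S.subtype).restrictScalars ℚ

theorem mem_lo {P : Submodule F S} {x : ℂ} : x ∈ lo P ↔ ∃ h : x ∈ S, (⟨x, h⟩ : S) ∈ P := by
  rw [lo, Submodule.restrictScalars_mem]
  constructor
  · rintro ⟨y, hy, rfl⟩
    exact ⟨y.2, hy⟩
  · rintro ⟨h, hx⟩
    exact ⟨_, hx, rfl⟩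

theorem coe_mem_lo {P : Submodule F S} {x : S} (h : x ∈ P) : (x : ℂ) ∈ lo P :=
  mem_lo.2 ⟨x.2, h⟩

theorem lo_inf {P : Submodule F S} (h : ¬ Module.Finite F P) : ¬ Module.Finite ℚ (lo P) := by
  intro hfin
  apply h
  have h1 : Module.Finite F (P.map S.subtype) := by
    have h2 : Module.Finite ℚ (P.map S.subtype) := hfin
    exact Module.Finite.of_restrictScalars_finite ℚ F _
  exact Module.Finite.equiv
    (Submodule.equivMapOfInjective S.subtype S.injective_subtype P).symm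

theorem dsum_of {V : Submodule F S} {m : ℕ} {P : Fin (m + 1) → Submodule F S} (h : Dec V P) :
    Dsum S (lo V) (fun i => lo (P i)) := by
  classical
  refine ⟨fun x => ⟨fun hx => ?_, ?_⟩, ?_, fun i => lo_inf (h.inf i)⟩
  · have h1 : (⟨x, hx⟩ : S) ∈ V ⊔ ⨆ i, P i := by rw [h.top]; exact Submodule.mem_top
    obtain ⟨v, hv, w, hw, hvw⟩ := Submodule.mem_sup.1 h1
    have h2 : w ∈ ⨆ i ∈ (Finset.univ : Finset (Fin (m + 1))), P i := by simpa using hw
    obtain ⟨μ, hμ⟩ := (Submodule.mem_iSup_finset_iff_exists_sum P w).1 h2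
    refine ⟨v, coe_mem_lo hv, fun i => ((μ i : S) : ℂ), fun i => coe_mem_lo (μ i).2, ?_⟩
    have h3 := congrArg (fun y : S => (y : ℂ)) hvw
    simp only [Submodule.coe_add] at h3
    rw [← h3, ← hμ, Submodule.coe_sum]
  · rintro ⟨v, hv, p, hp, rfl⟩
    obtain ⟨hv1, -⟩ := mem_lo.1 hv
    exact S.add_mem hv1 (S.sum_mem fun i _ => (mem_lo.1 (hp i)).1)
  · intro v hv p hp h0
    obtain ⟨hv1, hv2⟩ := mem_lo.1 hv
    choose hp1 hp2 using fun i => mem_lo.1 (hp i)
    have h1 : (⟨v, hv1⟩ : S) + ∑ i, (⟨p i, hp1 i⟩ : S) = 0 := by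
      apply Subtype.ext
      rw [Submodule.coe_add, Submodule.coe_sum]
      exact h0
    have h2 : (⟨v, hv1⟩ : S) = 0 := by
      have h3 : (⟨v, hv1⟩ : S) ∈ ⨆ i, P i := by
        rw [eq_neg_of_add_eq_zero_left h1]
        exact Submodule.neg_mem _ (Submodule.sum_mem _ fun i _ => le_iSup P i (hp2 i))
      exact (Submodule.disjoint_def.1 h.disj) _ hv2 h3
    have h3 : ∑ i, (⟨p i, hp1 i⟩ : S) = 0 := by rwa [h2, zero_add] at h1
    have h4 := (iSupIndep_iff_finsetSum_eq_zero_imp_eq_zero P).1 h.indep Finset.univ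
      (fun i => (⟨p i, hp1 i⟩ : S)) (fun i _ => hp2 i) h3
    refine ⟨congrArg Subtype.val h2, funext fun i => ?_⟩
    exact congrArg Subtype.val (h4 i (Finset.mem_univ i))

theorem om_mem {V : Submodule F S} {m : ℕ} {P : Fin (m + 1) → Submodule F S} {j : Fin (m + 1)}
    {x : ℂ} (hx : x ∈ Om (lo V) (fun i => lo (P i)) j) :
    ∃ h : x ∈ S, (⟨x, h⟩ : S) ∈ V ⊔ ⨆ i : {i // i ≠ j}, P i := by
  obtain ⟨v, hv, p, hp, hj, rfl⟩ := hx
  obtain ⟨hv1, hv2⟩ := mem_lo.1 hv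
  choose hp1 hp2 using fun i => mem_lo.1 (hp i)
  have hS : v + ∑ i, p i ∈ S := S.add_mem hv1 (S.sum_mem fun i _ => hp1 i)
  refine ⟨hS, ?_⟩
  have h1 : (⟨_, hS⟩ : S) = (⟨v, hv1⟩ : S) + ∑ i, (⟨p i, hp1 i⟩ : S) := by
    apply Subtype.ext
    rw [Submodule.coe_add, Submodule.coe_sum]
  rw [h1]
  refine Submodule.add_mem _ (Submodule.mem_sup_left hv2) (Submodule.sum_mem _ fun i _ => ?_)
  by_cases hij : i = j
  · have : (⟨p i, hp1 i⟩ : S) = 0 := by
      apply Subtype.ext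
      rw [hij]
      exact hj
    rw [this]
    exact Submodule.zero_mem _
  · exact Submodule.mem_sup_right (le_iSup (fun i : {i // i ≠ j} => P i) ⟨i, hij⟩ (hp2 i))

end gen

/-! ### the periods -/

/-- the rational multiples of `2πi` -/
def piIn : Submodule ℚ LG := (Submodule.span ℚ {(2 * Real.pi * Complex.I : ℂ)}).comap LG.subtype

theorem pi_mem_LG : (2 * Real.pi * Complex.I : ℂ) ∈ LG :=
  Submodule.subset_span (by
    show IsAlgebraic ℚ (Complex.exp _)
    rw [Complex.exp_two_pi_mul_I]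
    exact isAlgebraic_one)

theorem lo_piIn : lo piIn = Submodule.span ℚ {(2 * Real.pi * Complex.I : ℂ)} := by
  ext x
  rw [mem_lo]
  constructor
  · rintro ⟨_, h⟩
    exact h
  · intro h
    exact ⟨(Submodule.span_singleton_le_iff_mem _ _).2 pi_mem_LG h, h⟩

theorem not_finite_pi : ¬ Module.Finite ℚ (LG ⧸ piIn) := by
  intro hfin
  apply Helper71.MLog.not_finite_logs
  have h1 : piIn ≤ Submodule.span ℚ {(⟨2 * Real.pi * Complex.I, pi_mem_LG⟩ : LG)} := by
    intro x hx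
    obtain ⟨q, hq⟩ := Submodule.mem_span_singleton.1 (show (x : ℂ) ∈ Submodule.span ℚ
      {(2 * Real.pi * Complex.I : ℂ)} from hx)
    exact Submodule.mem_span_singleton.2 ⟨q, Subtype.ext hq⟩
  have h2 : Module.Finite ℚ (Submodule.span ℚ {(⟨2 * Real.pi * Complex.I, pi_mem_LG⟩ : LG)}) :=
    FiniteDimensional.span_singleton ℚ _
  have h3 : Module.Finite ℚ piIn := Submodule.finiteDimensional_of_le h1
  exact Module.Finite.of_submodule_quotient piIn

variable {L : PeriodPair} (h2 : IsAlgebraic ℚ L.g₂) (h3 : IsAlgebraic ℚ L.g₃)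

theorem mem_perQ {u : ℂ} : u ∈ Submodule.span ℚ {L.ω₁, L.ω₂} ↔
    ∃ n : ℕ, 0 < n ∧ (n : ℂ) * u ∈ L.lattice := by
  constructor
  · intro hu
    refine Submodule.span_induction (p := fun u _ => ∃ n : ℕ, 0 < n ∧ (n : ℂ) * u ∈ L.lattice)
      ?_ ?_ ?_ ?_ hu
    · rintro x (rfl | rfl)
      · exact ⟨1, one_pos, by rw [Nat.cast_one, one_mul]; exact L.ω₁_mem_lattice⟩
      · exact ⟨1, one_pos, by rw [Nat.cast_one, one_mul]; exact L.ω₂_mem_lattice⟩
    · exact ⟨1, one_pos, by rw [mul_zero]; exact zero_mem _⟩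
    · rintro x y _ _ ⟨n, hn, hx⟩ ⟨m, hm, hy⟩
      refine ⟨n * m, Nat.mul_pos hn hm, ?_⟩
      have h1 := add_mem (nmul_mem hx m) (nmul_mem hy n)
      convert h1 using 1
      push_cast; ring
    · rintro q x _ ⟨n, hn, hx⟩
      refine ⟨q.den * n, Nat.mul_pos q.den_pos hn, ?_⟩
      have h1 := zmul_mem hx q.num
      convert h1 using 1
      rw [Rat.smul_def]
      have h4 : (q.den : ℂ) * (q : ℂ) = q.num := by
        exact_mod_cast congrArg (fun x : ℚ => (x : ℂ)) (Rat.den_mul_eq_num q)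
      push_cast
      linear_combination (n * x) * h4
  · rintro ⟨n, hn, hu⟩
    obtain ⟨p, q, hpq⟩ := PeriodPair.mem_lattice.1 hu
    have hnC : (n : ℂ) ≠ 0 := by exact_mod_cast hn.ne'
    have h7 : u = (p / n : ℚ) • L.ω₁ + (q / n : ℚ) • L.ω₂ := by
      simp only [Rat.smul_def]
      push_cast
      field_simp
      rw [hpq, mul_comm]
    rw [h7]
    exact Submodule.add_mem _ (Submodule.smul_mem _ _ (Submodule.subset_span (Or.inl rfl)))
      (Submodule.smul_mem _ _ (Submodule.subset_span (Or.inr rfl)))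

theorem lo_perIn {F : Type} [Field F] [Algebra F ℂ] [Algebra ℚ F] [IsScalarTower ℚ F ℂ]
    (hF : MF L F) : lo (perIn h2 h3 hF) = Submodule.span ℚ {L.ω₁, L.ω₂} := by
  ext x
  rw [mem_lo, mem_perQ]
  constructor
  · rintro ⟨_, h⟩
    exact h
  · intro h
    exact ⟨perMod_le h2 h3 (hF := hF) h, h⟩

/-- the elliptic logarithms are countable -/
theorem countable_EL : (EL L).Countable := by
  have hL : {x : ℂ | x ∈ L.lattice}.Countable := by
    refine (Set.countable_range (fun q : ℤ × ℤ => (q.1 : ℂ) * L.ω₁ + q.2 * L.ω₂)).mono ?_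
    intro x hx
    obtain ⟨a, b, h⟩ := PeriodPair.mem_lattice.1 hx
    exact ⟨(a, b), h⟩
  have hfib : ∀ a ∈ {a : ℂ | IsAlgebraic ℚ a}, {u : ℂ | u ∉ L.lattice ∧ ℘[L] u = a}.Countable := by
    intro a _
    rcases Set.eq_empty_or_nonempty {u : ℂ | u ∉ L.lattice ∧ ℘[L] u = a} with h | ⟨w, hw, hwa⟩
    · rw [h]; exact Set.countable_empty
    · refine ((hL.image (fun l => l - w)).union (hL.image (fun l => l + w))).mono ?_
      rintro u ⟨hu, hua⟩
      rcases (wp_eq_iff L hu hw).1 (hua.trans hwa.symm) with h | h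
      · exact Or.inl ⟨_, h, by ring⟩
      · exact Or.inr ⟨_, h, by ring⟩
  refine (hL.union ((Algebraic.countable ℚ ℂ).biUnion hfib)).mono ?_
  intro u hu
  by_cases h : u ∈ L.lattice
  · exact Or.inl h
  · exact Or.inr (Set.mem_biUnion (show ℘[L] u ∈ {a : ℂ | IsAlgebraic ℚ a} from hu.resolve_left h)
      ⟨h, rfl⟩)

/-- **The decomposition.** -/
theorem exists_final (hinf : ∀ S : Set ℂ, S.Finite → ¬ EL L ⊆ (Submodule.span ℚ S : Set ℂ))
    {F : Type} [Field F] [Algebra F ℂ] [Algebra ℚ F] [IsScalarTower ℚ F ℂ] (hF : MF L F)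
    {I : Type} [Fintype I] [Nonempty I] {s ρ : I → ℂ} (hs : ∀ i, s i ∈ QB) (hρ : ∀ i, ρ i ∈ QB)
    {χ : I → F →+* Qb}
    (hχ : ∀ i (a : F), ∀ z ∈ EL L, (s i * zt L (algebraMap F ℂ a * z) + ρ i * (algebraMap F ℂ a * z)) -
      (χ i a : ℂ) * (s i * zt L z + ρ i * z) ∈ QB) {D : ℕ} (hD : 1 ≤ D)
    (hG : ∀ (E₁ : Submodule ℚ LG) (E₂ : Submodule F (elMod h2 h3 hF)), ¬ Module.Finite ℚ E₁ →
      ¬ Module.Finite F E₂ → Gen Qb D (fun i (x : E₁) => idT i x)
      (fun i (x : E₂) => phE h2 h3 hF s ρ i x))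
    {P : Type} [Fintype P] {θ : P → ℂ} (hπ : (2 * Real.pi * Complex.I : ℂ) ∈ Aff Qb θ)
    (hω₁ : L.ω₁ ∈ Aff Qb θ) (hω₂ : L.ω₂ ∈ Aff Qb θ)
    (hη₁ : eta L L.ω₁ ∈ Aff Qb θ) (hη₂ : eta L L.ω₂ ∈ Aff Qb θ) (m : ℕ) :
    ∃ T P : Fin (m + 1) → Submodule ℚ ℂ,
      Dsum {t : ℂ | IsAlgebraic ℚ (Complex.exp t)} (Submodule.span ℚ {(2 * Real.pi * Complex.I : ℂ)}) T ∧
      Dsum (EL L) (Submodule.span ℚ {L.ω₁, L.ω₂}) P ∧
      (∀ i, ∀ β ∈ kL L, ∀ x ∈ P i, β * x ∈ P i) ∧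
      ∀ (j : Fin (m + 1)) (r₁ : ℕ) (t : Fin r₁ → ℂ) (r₂ : ℕ) (p : Fin r₂ → ℂ),
        (∀ l, t l ∈ Om (Submodule.span ℚ {(2 * Real.pi * Complex.I : ℂ)}) T j) →
        (∀ l, p l ∈ Om (Submodule.span ℚ {L.ω₁, L.ω₂}) P j) →
        (∀ b : Fin r₁ → ℚ, ∑ l, (b l : ℂ) * t l ∈ Submodule.span ℚ {(2 * Real.pi * Complex.I : ℂ)} →
          b = 0) →
        (∀ β : Fin r₂ → ℂ, (∀ i, β i ∈ kL L) → ∑ i, β i * p i ∈ Submodule.span ℚ {L.ω₁, L.ω₂} →
          β = 0) →
        OTR Qb D θ (Sum.elim (fun q : Unit × Fin r₁ => t q.2)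
          (fun q : I × Fin r₂ => s q.1 * zt L (p q.2) + ρ q.1 * p q.2)) := by
  classical
  have hc₁ : Countable LG := Helper71.MLog.countable_logs.to_subtype
  have hc₂ : Countable (elMod h2 h3 hF) := (countable_EL (L := L)).to_subtype
  have hQ₁ : QL (Aff Qb θ) (fun _ : Unit => algebraMap ℚ Qb) idT := by
    refine ⟨fun i x y => ?_, fun i a x => ?_⟩
    · have : idT i (x + y) - (idT i x + idT i y) = 0 := by
        simp only [idT, Submodule.coe_add, sub_self]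
      rw [this]; exact Submodule.zero_mem _
    · have : idT i (a • x) - algebraMap Qb ℂ (algebraMap ℚ Qb a) * idT i x = 0 := by
        simp only [idT, Submodule.coe_smul]
        rw [Algebra.smul_def, IsScalarTower.algebraMap_apply ℚ Qb ℂ, sub_self]
      rw [this]; exact Submodule.zero_mem _
  have hQ₂ := phE_QL h2 h3 (hF := hF) hs hχ θ
  have hV₁ : ∀ i, ∀ v ∈ piIn, idT i v ∈ Aff Qb θ := by
    intro i v hv
    obtain ⟨q, hq⟩ := Submodule.mem_span_singleton.1 hv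
    have h1 : idT i v = (q : ℂ) * (2 * Real.pi * Complex.I) := by
      rw [← Rat.smul_def]
      exact hq.symm
    rw [h1]
    exact QB_mul_Aff (SubfieldClass.ratCast_mem QB q) hπ
  obtain ⟨P₁, P₂, hd₁, hd₂, hfree⟩ := exists_dec hD hQ₁ hQ₂ hV₁
    (fun i v hv => phE_per h2 h3 hs hρ hω₁ hω₂ hη₁ hη₂ i hv) hG not_finite_pi
    (not_finite_quot h2 h3 hinf hF) m
  have hsT : (LG : Set ℂ) = {t : ℂ | IsAlgebraic ℚ (Complex.exp t)} := by
    ext t
    exact Helper71.MLog.mem_span_logs t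
  refine ⟨fun i => lo (P₁ i), fun i => lo (P₂ i), ?_, ?_, ?_, ?_⟩
  · have := dsum_of hd₁
    rwa [hsT, lo_piIn] at this
  · have := dsum_of hd₂
    rw [lo_perIn] at this
    exact this
  · intro i β hβ x hx
    obtain ⟨a, rfl⟩ := hF.surj β hβ
    obtain ⟨hx1, hx2⟩ := mem_lo.1 hx
    have h4 := (P₂ i).smul_mem a hx2
    have h5 := coe_mem_lo h4
    rwa [Submodule.coe_smul, Algebra.smul_def] at h5
  · intro j r₁ t r₂ p ht hp hti hpi
    rw [← lo_piIn] at ht
    rw [← lo_perIn h2 h3 hF] at hp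
    choose ht1 ht2 using fun l => om_mem (ht l)
    choose hp1 hp2 using fun l => om_mem (hp l)
    have h4 := hfree j r₁ (fun l => ⟨t l, ht1 l⟩) r₂ (fun l => ⟨p l, hp1 l⟩) ht2 hp2 (by
      intro c hc
      apply hti
      have h5 := coe_mem_lo hc
      rw [lo_piIn, Submodule.coe_sum] at h5
      convert h5 using 1
      exact Finset.sum_congr rfl fun l _ => by rw [Submodule.coe_smul, Rat.smul_def]) (by
      intro c hc
      have h5 := coe_mem_lo hc
      rw [lo_perIn, Submodule.coe_sum] at h5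
      have h6 := hpi (fun i => algebraMap F ℂ (c i)) (fun i => hF.mul (c i)) (by
        convert h5 using 1
        exact Finset.sum_congr rfl fun l _ => by rw [Submodule.coe_smul, Algebra.smul_def])
      funext i
      have h7 := congrFun h6 i
      exact (algebraMap F ℂ).injective (by rw [h7, Pi.zero_apply, Pi.zero_apply, map_zero]))
    convert h4 using 1
    funext q
    rcases q with q | q <;> rfl

end Pool.Agent.Helper71.ET
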