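import Mathlib

/-!
# Two-adic valuations and duplication
-/

set_option autoImplicit false

open scoped WithZero

namespace Pool.Agent.Helper71.ET

theorem not_unit_two (K : Type) [Field K] [NumberField K] :
    ¬ IsUnit (2 : NumberField.RingOfIntegers K) := by
  intro h
  obtain ⟨y, hy⟩ := h.exists_right_inv
  -- the inverse of two is integral
  have h1 : IsIntegral ℤ ((2 : ℚ)⁻¹) := by
    have h4 : IsIntegral ℤ (y : K) := y.isIntegral_coe
    have h5 : (y : K) = algebraMap ℚ K (2 : ℚ)⁻¹ := by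
      rw [map_inv₀, map_ofNat]
      apply eq_inv_of_mul_eq_one_right
      have h6 := congrArg (algebraMap (NumberField.RingOfIntegers K) K) hy
      rw [map_mul, map_one, map_ofNat] at h6
      exact h6
    rw [h5] at h4
    exact (isIntegral_algebraMap_iff (algebraMap ℚ K).injective).1 h4
  obtain ⟨z, hz⟩ := IsIntegrallyClosed.isIntegral_iff.1 h1
  have h6 : (2 * z : ℤ) = 1 := by
    have h7 : (z : ℚ) = 2⁻¹ := by simpa using hz
    have h8 : ((2 * z : ℤ) : ℚ) = 1 := by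
      push_cast
      rw [h7]
      norm_num
    exact_mod_cast h8
  omega

theorem exists_val (K : Type) [Field K] [NumberField K] : ∃ w : Valuation K ℤᵐ⁰, w 2 < 1 ∧
    ∀ n : ℤ, ∃ x : K, w x = WithZero.exp n := by
  have h2 := not_unit_two K
  obtain ⟨P, hP, hle⟩ := Ideal.exists_le_maximal (Ideal.span {(2 : NumberField.RingOfIntegers K)})
    (by rwa [Ne, Ideal.span_singleton_eq_top])
  have h2P : (2 : NumberField.RingOfIntegers K) ∈ P := hle (Ideal.mem_span_singleton_self _)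
  have hP0 : P ≠ ⊥ := by
    intro h
    rw [h, Ideal.mem_bot] at h2P
    exact two_ne_zero h2P
  let v : IsDedekindDomain.HeightOneSpectrum (NumberField.RingOfIntegers K) := ⟨P, hP.isPrime, hP0⟩
  refine ⟨v.valuation K, ?_, fun n => ?_⟩
  · have h1 := (v.valuation_lt_one_iff_mem (K := K) (2 : NumberField.RingOfIntegers K)).2 h2P
    have e : ((2 : NumberField.RingOfIntegers K) : K) = 2 :=
      map_ofNat (algebraMap (NumberField.RingOfIntegers K) K) 2
    rw [← e]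
    exact h1
  · obtain ⟨π, hπ⟩ := v.valuation_exists_uniformizer K
    refine ⟨π ^ (-n), ?_⟩
    rw [map_zpow₀, hπ, ← WithZero.exp_zsmul]
    congr 1
    simp

variable {K : Type} [Field K]

/-- duplication increases large values -/
theorem dup_val (w : Valuation K ℤᵐ⁰) (h2 : w 2 < 1) (h20 : (2 : K) ≠ 0) (g h : K) :
    ∃ C : ℤᵐ⁰, 1 ≤ C ∧ ∀ x : K, C < w x → (4 * x ^ 3 - g * x - h ≠ 0) ∧
      w (4 * x ^ 3 - g * x - h) = w 2 ^ 2 * w x ^ 3 ∧
      w x < w ((x ^ 4 + g / 2 * x ^ 2 + 2 * h * x + g ^ 2 / 16) / (4 * x ^ 3 - g * x - h)) := by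
  have ha : w 2 ≠ 0 := (Valuation.ne_zero_iff w).2 h20
  set a := w 2 with haa
  have ha2 : a ^ 2 ≠ 0 := pow_ne_zero _ ha
  have ha2' : 0 < a ^ 2 := zero_lt_iff.2 ha2
  set C := max 1 (max (w g / a ^ 2) (max (w h / a ^ 2) (max (w (g / 2)) (max (w (2 * h))
    (w (g ^ 2 / 16)))))) with hC
  have c1 : 1 ≤ C := le_max_left _ _
  have c2 : w g / a ^ 2 ≤ C := (le_max_left _ _).trans (le_max_right _ _)
  have c3 : w h / a ^ 2 ≤ C := ((le_max_left _ _).trans (le_max_right _ _)).trans (le_max_right _ _)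
  have c4 : w (g / 2) ≤ C := (((le_max_left _ _).trans (le_max_right _ _)).trans
    (le_max_right _ _)).trans (le_max_right _ _)
  have c5 : w (2 * h) ≤ C := ((((le_max_left _ _).trans (le_max_right _ _)).trans
    (le_max_right _ _)).trans (le_max_right _ _)).trans (le_max_right _ _)
  have c6 : w (g ^ 2 / 16) ≤ C := ((((le_max_right _ _).trans (le_max_right _ _)).trans
    (le_max_right _ _)).trans (le_max_right _ _)).trans (le_max_right _ _)
  refine ⟨C, c1, fun x hx => ?_⟩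
  set X := w x with hX
  have x1 : 1 < X := c1.trans_lt hx
  have x0 : 0 < X := zero_lt_one.trans x1
  have xn : X ≠ 0 := x0.ne'
  have p12 : X ≤ X ^ 2 := le_self_pow₀ x1.le two_ne_zero
  have p14 : X ≤ X ^ 4 := le_self_pow₀ x1.le four_ne_zero
  have p23 : X ^ 2 ≤ X ^ 3 := pow_le_pow_right₀ x1.le (by norm_num)
  have p13 : X ≤ X ^ 3 := p12.trans p23
  have p24 : X ^ 2 ≤ X ^ 4 := pow_le_pow_right₀ x1.le (by norm_num)
  have p34 : X ^ 3 ≤ X ^ 4 := pow_le_pow_right₀ x1.le (by norm_num)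
  have w4 : w 4 = a ^ 2 := by
    rw [haa, ← map_pow]
    norm_num
  have d0 : w (4 * x ^ 3) = a ^ 2 * X ^ 3 := by
    rw [map_mul, map_pow, w4]
  have d1 : w (g * x) < w (4 * x ^ 3) := by
    rw [d0, map_mul]
    have h1 : w g < a ^ 2 * X := by
      have := c2.trans_lt hx
      rwa [div_lt_iff₀' ha2'] at this
    calc w g * X < a ^ 2 * X * X := mul_lt_mul_of_pos_right h1 x0
      _ = a ^ 2 * X ^ 2 := by rw [mul_assoc, ← sq]
      _ ≤ a ^ 2 * X ^ 3 := mul_le_mul_of_nonneg_left p23 ha2'.le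
  have d2 : w h < w (4 * x ^ 3) := by
    rw [d0]
    have h1 : w h < a ^ 2 * X := by
      have := c3.trans_lt hx
      rwa [div_lt_iff₀' ha2'] at this
    exact h1.trans_le (mul_le_mul_of_nonneg_left p13 ha2'.le)
  have d3 : w (4 * x ^ 3 - g * x) = w (4 * x ^ 3) := Valuation.map_sub_eq_of_lt_left w d1
  have d4 : w (4 * x ^ 3 - g * x - h) = a ^ 2 * X ^ 3 := by
    rw [← d0, ← d3]
    rw [← d3] at d2
    exact Valuation.map_sub_eq_of_lt_left w d2
  have e0 : w (x ^ 4) = X ^ 4 := map_pow _ _ _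
  have e1 : w (g / 2 * x ^ 2) < w (x ^ 4) := by
    rw [e0, map_mul, map_pow]
    calc w (g / 2) * X ^ 2 < X * X ^ 2 := mul_lt_mul_of_pos_right (c4.trans_lt hx) (pow_pos x0 2)
      _ = X ^ 3 := (pow_succ' X 2).symm
      _ ≤ X ^ 4 := p34
  have e2 : w (2 * h * x) < w (x ^ 4) := by
    rw [e0, map_mul]
    calc w (2 * h) * X < X * X := mul_lt_mul_of_pos_right (c5.trans_lt hx) x0
      _ = X ^ 2 := (sq X).symm
      _ ≤ X ^ 4 := p24
  have e3 : w (g ^ 2 / 16) < w (x ^ 4) := by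
    rw [e0]
    exact (c6.trans_lt hx).trans_le p14
  have e4 : w (x ^ 4 + g / 2 * x ^ 2) = w (x ^ 4) := Valuation.map_add_eq_of_lt_left w e1
  have e5 : w (x ^ 4 + g / 2 * x ^ 2 + 2 * h * x) = w (x ^ 4) := by
    rw [← e4]
    rw [← e4] at e2
    exact Valuation.map_add_eq_of_lt_left w e2
  have e6 : w (x ^ 4 + g / 2 * x ^ 2 + 2 * h * x + g ^ 2 / 16) = X ^ 4 := by
    rw [← e0, ← e5]
    rw [← e5] at e3
    exact Valuation.map_add_eq_of_lt_left w e3
  have hD0 : 4 * x ^ 3 - g * x - h ≠ 0 := by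
    rw [← Valuation.ne_zero_iff w, d4]
    exact mul_ne_zero ha2 (pow_ne_zero _ xn)
  refine ⟨hD0, d4, ?_⟩
  rw [map_div₀, e6, d4, lt_div_iff₀ (mul_pos ha2' (pow_pos x0 3))]
  have h3 : a ^ 2 < 1 := pow_lt_one₀ zero_le h2 two_ne_zero
  calc X * (a ^ 2 * X ^ 3) = a ^ 2 * X ^ 4 := by rw [mul_left_comm, ← pow_succ']
    _ < 1 * X ^ 4 := mul_lt_mul_of_pos_right h3 (pow_pos x0 4)
    _ = X ^ 4 := one_mul _

/-- odd values -/
theorem not_square (w : Valuation K ℤᵐ⁰) (h20 : (2 : K) ≠ 0) {x y c : K} {n : ℤ} (hn : Odd n)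
    (hx : w x = WithZero.exp n) (hc : w c = w 2 ^ 2 * w x ^ 3) (hy : y ^ 2 = c) : False := by
  have hx0 : x ≠ 0 := by
    rw [← Valuation.ne_zero_iff w, hx]
    exact WithZero.exp_ne_zero
  have ha : w 2 ≠ 0 := (Valuation.ne_zero_iff w).2 h20
  have hxn : w x ≠ 0 := (Valuation.ne_zero_iff w).2 hx0
  set z := y / (2 * x) with hz
  have h1 : w z ^ 2 = WithZero.exp n := by
    rw [← hx, hz, map_div₀, div_pow, ← map_pow w y, hy, hc, map_mul]
    field_simp
  have hz0 : w z ≠ 0 := by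
    intro h0
    rw [h0, zero_pow two_ne_zero] at h1
    exact WithZero.exp_ne_zero h1.symm
  obtain ⟨m, hm⟩ : ∃ m, w z = WithZero.exp m := ⟨WithZero.log (w z), (WithZero.exp_log hz0).symm⟩
  rw [hm, ← WithZero.exp_nsmul] at h1
  have h3 := WithZero.exp_inj.1 h1
  obtain ⟨k, hk⟩ := hn
  rw [nsmul_eq_mul] at h3
  push_cast at h3
  omega

end Pool.Agent.Helper71.ET
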