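import Mathlib
import Pool.Agent.Helper71.ET.InfA
import Pool.Graph.R_seed8.W245.EB.Psi
import Pool.Graph.R_seed8.H667R3.W6

/-!
# Twisted points
-/

set_option autoImplicit false

open scoped PeriodPair WithZero

noncomputable section

namespace Pool.Agent.Helper71.ET

open Pool.Agent.W245.EB H667R3

variable {L : PeriodPair}

section tw

variable (K : Subfield ℂ) {s : ℂ}

theorem tw_mem_dup {x t g : ℂ} (hs : s ^ 2 ∈ K) (hx : x ∈ K) (ht : t ∈ K) (hg : g ∈ K) :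
    -2 * x + (6 * x ^ 2 - g / 2) ^ 2 / (4 * (s * t) ^ 2) ∈ K := by
  have h1 : (s * t) ^ 2 ∈ K := by rw [mul_pow]; exact mul_mem hs (pow_mem ht 2)
  generalize (s * t) ^ 2 = q at h1
  (repeat (first | assumption | (exact one_mem _) | (exact ofNat_mem _ _) | (apply div_mem) | (apply mul_mem) | (apply sub_mem) | (apply add_mem) | (apply neg_mem) | (apply pow_mem)))

theorem tw_mem_dup' {x t g : ℂ} (hs : s ^ 2 ∈ K) (hx : x ∈ K) (ht : t ∈ K) (hg : g ∈ K) :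
    ∃ r ∈ K, (-2 * (s * t) +
      ((2 * (6 * x ^ 2 - g / 2) * (12 * x * (s * t))) * (4 * (s * t) ^ 2)
        - (6 * x ^ 2 - g / 2) ^ 2 * (4 * (2 * (s * t) * (6 * x ^ 2 - g / 2))))
      / (4 * (s * t) ^ 2) ^ 2) / 2 = s * r := by
  have h1 : (s * t) ^ 2 ∈ K := by rw [mul_pow]; exact mul_mem hs (pow_mem ht 2)
  have h2 : 6 * x ^ 2 - g / 2 ∈ K := by (repeat (first | assumption | (exact one_mem _) | (exact ofNat_mem _ _) | (apply div_mem) | (apply mul_mem) | (apply sub_mem) | (apply add_mem) | (apply neg_mem) | (apply pow_mem)))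
  generalize 6 * x ^ 2 - g / 2 = u at h2
  generalize (s * t) ^ 2 = q at h1
  refine ⟨(-2 * t + ((2 * u * (12 * x * t)) * (4 * q) - u ^ 2 * (4 * (2 * t * u))) / (4 * q) ^ 2) / 2,
    ?_, by ring⟩
  (repeat (first | assumption | (exact one_mem _) | (exact ofNat_mem _ _) | (apply div_mem) | (apply mul_mem) | (apply sub_mem) | (apply add_mem) | (apply neg_mem) | (apply pow_mem)))

theorem tw_mem_add {x t g x₀ t₀ : ℂ} (hs : s ^ 2 ∈ K) (hx : x ∈ K) (ht : t ∈ K) (hg : g ∈ K)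
    (hx₀ : x₀ ∈ K) (ht₀ : t₀ ∈ K) :
    x - ((6 * x ^ 2 - g / 2) * (x - x₀)
      - (s * t - s * t₀) * (s * t)) / (2 * (x - x₀) ^ 2) ∈ K := by
  have h1 : (s * t - s * t₀) * (s * t) = s ^ 2 * ((t - t₀) * t) := by ring
  rw [h1]
  generalize s ^ 2 = q at hs
  (repeat (first | assumption | (exact one_mem _) | (exact ofNat_mem _ _) | (apply div_mem) | (apply mul_mem) | (apply sub_mem) | (apply add_mem) | (apply neg_mem) | (apply pow_mem)))

theorem tw_mem_add' {x t g x₀ t₀ : ℂ} (hs : s ^ 2 ∈ K) (hx : x ∈ K) (ht : t ∈ K) (hg : g ∈ K)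
    (hx₀ : x₀ ∈ K) (ht₀ : t₀ ∈ K) :
    ∃ r ∈ K, s * t -
      (((12 * x * (s * t)) * (x - x₀) + (6 * x ^ 2 - g / 2) * (s * t)
      - ((6 * x ^ 2 - g / 2) * (s * t)
          + (s * t - s * t₀) * (6 * x ^ 2 - g / 2))) * (2 * (x - x₀) ^ 2)
      - ((6 * x ^ 2 - g / 2) * (x - x₀)
        - (s * t - s * t₀) * (s * t)) * (2 * (2 * (x - x₀) * (s * t))))
      / (2 * (x - x₀) ^ 2) ^ 2 = s * r := by
  have h2 : 6 * x ^ 2 - g / 2 ∈ K := by (repeat (first | assumption | (exact one_mem _) | (exact ofNat_mem _ _) | (apply div_mem) | (apply mul_mem) | (apply sub_mem) | (apply add_mem) | (apply neg_mem) | (apply pow_mem)))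
  generalize 6 * x ^ 2 - g / 2 = u at h2
  have h3 : x - x₀ ∈ K := sub_mem hx hx₀
  generalize x - x₀ = d at h3
  have h4 : 2 * d ^ 2 ∈ K := mul_mem (ofNat_mem _ _) (pow_mem h3 2)
  generalize 2 * d ^ 2 = e at h4
  refine ⟨t - (((12 * x * t) * d + u * t - (u * t + (t - t₀) * u)) * e
      - (u * d - s ^ 2 * ((t - t₀) * t)) * (2 * (2 * d * t))) / e ^ 2, ?_, by ring⟩
  generalize s ^ 2 = q at hs
  (repeat (first | assumption | (exact one_mem _) | (exact ofNat_mem _ _) | (apply div_mem) | (apply mul_mem) | (apply sub_mem) | (apply add_mem) | (apply neg_mem) | (apply pow_mem)))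

variable (L s)

/-- points with `℘ ∈ K`, `℘' ∈ s K` -/
def Tw : Set ℂ := {u | u ∈ L.lattice ∨ (℘[L] u ∈ K ∧ ∃ t ∈ K, ℘'[L] u = s * t)}

variable {K L s}

theorem Tw_add (hs : s ^ 2 ∈ K) (hg : L.g₂ ∈ K) (hh : HalfMem L K) {u v : ℂ} (hu : u ∈ Tw L K s)
    (hv : v ∈ Tw L K s) : u + v ∈ Tw L K s := by
  by_cases hu0 : u ∈ L.lattice
  · rcases hv with hv | hv
    · exact Or.inl (add_mem hu0 hv)
    · right
      rw [add_comm u v, wp_add_lattice L hu0, wp'_add_lattice L hu0]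
      exact hv
  by_cases hv0 : v ∈ L.lattice
  · rcases hu with hu | hu
    · exact absurd hu hu0
    · right
      rw [wp_add_lattice L hv0, wp'_add_lattice L hv0]
      exact hu
  by_cases huv : u + v ∈ L.lattice
  · exact Or.inl huv
  right
  obtain ⟨hu1, a, ha, hua⟩ := hu.resolve_left hu0
  obtain ⟨hv1, b, hb, hvb⟩ := hv.resolve_left hv0
  by_cases hd : u - v ∈ L.lattice
  · have e : u + v = 2 * v + (u - v) := by ring
    have h2 : 2 * v ∉ L.lattice := by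
      intro h
      exact huv (by rw [e]; exact add_mem h hd)
    rw [e, wp_add_lattice L hd, wp'_add_lattice L hd]
    refine ⟨?_, ?_⟩
    · rw [wp_two L h2, hvb]
      exact tw_mem_dup K hs hv1 hb hg
    · rw [wp'_two L h2, hvb]
      exact tw_mem_dup' K hs hv1 hb hg
  have hd' : v - u ∉ L.lattice := by
    intro h
    exact hd (by simpa using neg_mem h)
  by_cases h2u : 2 * u ∈ L.lattice
  · by_cases h2v : 2 * v ∈ L.lattice
    · have e : u + v = (2 * u + 2 * v) / 2 := by ring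
      refine ⟨?_, 0, zero_mem K, ?_⟩
      · rw [e]
        exact hh _ (add_mem h2u h2v)
      · rw [e, wp'_half_eq_zero L (add_mem h2u h2v), mul_zero]
    · rw [add_comm u v]
      rw [add_comm u v] at huv
      refine ⟨?_, ?_⟩
      · rw [wp_add L h2v hu0 huv hd', hua, hvb]
        exact tw_mem_add K hs hv1 hb hg hu1 ha
      · rw [wp'_add L h2v hu0 huv hd', hua, hvb]
        exact tw_mem_add' K hs hv1 hb hg hu1 ha
  · refine ⟨?_, ?_⟩
    · rw [wp_add L h2u hv0 huv hd, hua, hvb]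
      exact tw_mem_add K hs hu1 ha hg hv1 hb
    · rw [wp'_add L h2u hv0 huv hd, hua, hvb]
      exact tw_mem_add' K hs hu1 ha hg hv1 hb

theorem Tw_nmul (hs : s ^ 2 ∈ K) (hg : L.g₂ ∈ K) (hh : HalfMem L K) {u : ℂ} (hu : u ∈ Tw L K s)
    (n : ℕ) : (n : ℂ) * u ∈ Tw L K s := by
  induction n with
  | zero => rw [Nat.cast_zero, zero_mul]; exact Or.inl (zero_mem _)
  | succ n ih =>
    rw [Nat.cast_succ, add_mul, one_mul]
    exact Tw_add hs hg hh ih hu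

end tw

/-- duplication -/
theorem wp_dup {z : ℂ} (hz : z ∉ L.lattice)
    (h0 : 4 * ℘[L] z ^ 3 - L.g₂ * ℘[L] z - L.g₃ ≠ 0) : 2 * z ∉ L.lattice ∧
    ℘[L] (2 * z) = (℘[L] z ^ 4 + L.g₂ / 2 * ℘[L] z ^ 2 + 2 * L.g₃ * ℘[L] z + L.g₂ ^ 2 / 16) /
      (4 * ℘[L] z ^ 3 - L.g₂ * ℘[L] z - L.g₃) := by
  have h1 := L.derivWeierstrassP_sq z hz
  have h2z : 2 * z ∉ L.lattice := by
    intro h
    have h3 := wp'_half_eq_zero L h
    rw [show 2 * z / 2 = z by ring] at h3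
    rw [h3] at h1
    apply h0
    rw [← h1]
    ring
  refine ⟨h2z, ?_⟩
  rw [wp_two L h2z, h1]
  have h0' : 4 * ℘[L] z ^ 3 - L.g₂ * ℘[L] z - L.g₃ ≠ 0 := h0
  rw [eq_div_iff h0', add_mul]
  have h4 : ∀ A q : ℂ, q ≠ 0 → A / (4 * q) * q = A / 4 := by
    intro A q hq
    field_simp
  rw [h4 _ _ h0']
  ring

/-- points with large two-adic `℘` are not torsion -/
theorem not_torsion {K : IntermediateField ℚ ℂ} (w : Valuation K ℤᵐ⁰) {g h : K}
    (hg : (g : ℂ) = L.g₂) (hh : (h : ℂ) = L.g₃) {C : ℤᵐ⁰}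
    (hC : ∀ x : K, C < w x → (4 * x ^ 3 - g * x - h ≠ 0) ∧
      w (4 * x ^ 3 - g * x - h) = w 2 ^ 2 * w x ^ 3 ∧
      w x < w ((x ^ 4 + g / 2 * x ^ 2 + 2 * h * x + g ^ 2 / 16) / (4 * x ^ 3 - g * x - h)))
    {u : ℂ} (hu : u ∉ L.lattice) {x : K} (hx : (x : ℂ) = ℘[L] u) (hCx : C < w x) {M : ℕ}
    (hM : 0 < M) : (M : ℂ) * u ∉ L.lattice := by
  intro hMu
  have step : ∀ p : {q : ℂ × K // q.1 ∉ L.lattice ∧ ℘[L] q.1 = q.2 ∧ C < w q.2},
      ∃ p' : {q : ℂ × K // q.1 ∉ L.lattice ∧ ℘[L] q.1 = q.2 ∧ C < w q.2},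
        p'.1.1 = 2 * p.1.1 ∧ w p.1.2 < w p'.1.2 := by
    rintro ⟨⟨z, y⟩, hz, hzy, hy⟩
    simp only at hz hzy hy
    obtain ⟨c1, -, c3⟩ := hC y hy
    have c1' : 4 * ℘[L] z ^ 3 - L.g₂ * ℘[L] z - L.g₃ ≠ 0 := by
      intro h0
      apply c1
      apply Subtype.ext
      push_cast
      rw [hg, hh, ← hzy]
      exact h0
    obtain ⟨d1, d2⟩ := wp_dup hz c1'
    refine ⟨⟨(2 * z, (y ^ 4 + g / 2 * y ^ 2 + 2 * h * y + g ^ 2 / 16) / (4 * y ^ 3 - g * y - h)),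
      d1, ?_, hy.trans c3⟩, rfl, c3⟩
    simp only
    rw [d2]
    push_cast
    rw [hg, hh, ← hzy]
    rfl
  choose F hF1 hF2 using step
  set p₀ : {q : ℂ × K // q.1 ∉ L.lattice ∧ ℘[L] q.1 = q.2 ∧ C < w q.2} :=
    ⟨(u, x), hu, hx.symm, hCx⟩ with hp₀
  have h1 : ∀ j : ℕ, (F^[j] p₀).1.1 = 2 ^ j * u := by
    intro j
    induction j with
    | zero => simp [hp₀]
    | succ j ih =>
      rw [Function.iterate_succ_apply', hF1, ih]
      ring
  have hmono : StrictMono fun j => w (F^[j] p₀).1.2 := strictMono_nat_of_lt_succ fun j => by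
    rw [Function.iterate_succ_apply']
    exact hF2 _
  have : NeZero M := ⟨hM.ne'⟩
  obtain ⟨i, j, hij, hpow⟩ := Finite.exists_ne_map_eq_of_infinite (fun j : ℕ => (2 : ZMod M) ^ j)
  have h3 : (M : ℤ) ∣ 2 ^ i - 2 ^ j := by
    rw [← ZMod.intCast_zmod_eq_zero_iff_dvd]
    push_cast
    have hpow' : (2 : ZMod M) ^ i = 2 ^ j := hpow
    rw [hpow', sub_self]
  obtain ⟨e, he⟩ := h3
  have h4 : (2 : ℂ) ^ i * u - 2 ^ j * u ∈ L.lattice := by
    have h5 := zsmul_mem hMu e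
    rw [zsmul_eq_mul] at h5
    have h6 : ((2 ^ i - 2 ^ j : ℤ) : ℂ) = ((M * e : ℤ) : ℂ) := by rw [he]
    push_cast at h6
    convert h5 using 1
    linear_combination u * h6
  have h5 : ℘[L] (2 ^ i * u) = ℘[L] (2 ^ j * u) := by
    have := wp_add_lattice L (u := 2 ^ j * u) h4
    rwa [show (2 : ℂ) ^ j * u + (2 ^ i * u - 2 ^ j * u) = 2 ^ i * u by ring] at this
  apply hij
  apply hmono.injective
  simp only
  congr 1
  apply Subtype.ext
  rw [← (F^[i] p₀).2.2.1, ← (F^[j] p₀).2.2.1, h1, h1, h5]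

end Pool.Agent.Helper71.ET
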