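import Mathlib
import Pool.Agent.Helper71.ET.InfB

/-!
# The elliptic logarithms of the algebraic points have infinite rank
-/

set_option autoImplicit false

open scoped PeriodPair WithZero

noncomputable section

namespace Pool.Agent.Helper71.ET

open Pool.Agent.W245.EB H667R3

variable {L : PeriodPair}

/-- the values of `℘` at the half periods are finite in number -/
theorem half_finite (L : PeriodPair) : {x : ℂ | ∃ w ∈ L.lattice, x = ℘[L] (w / 2)}.Finite := by
  have hp : (4 * Polynomial.X ^ 3 - Polynomial.C L.g₂ * Polynomial.X - Polynomial.C L.g₃ :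
      Polynomial ℂ) ≠ 0 := by
    intro h0
    have := congrArg (fun p => Polynomial.coeff p 3) h0
    simp only [Polynomial.coeff_sub, Polynomial.coeff_C_mul, Polynomial.coeff_X,
      Polynomial.coeff_C, Polynomial.coeff_zero] at this
    rw [show (4 : Polynomial ℂ) = Polynomial.C 4 from rfl, Polynomial.coeff_C_mul,
      Polynomial.coeff_X_pow] at this
    norm_num at this
  refine ((Set.finite_singleton (0 : ℂ)).union (Polynomial.rootSet_finite
    (4 * Polynomial.X ^ 3 - Polynomial.C L.g₂ * Polynomial.X - Polynomial.C L.g₃ :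
      Polynomial ℂ) ℂ)).subset ?_
  rintro x ⟨w, hw, rfl⟩
  by_cases hw2 : w / 2 ∈ L.lattice
  · left
    exact L.weierstrassP_coe ⟨w / 2, hw2⟩
  · right
    have h := L.derivWeierstrassP_sq (w / 2) hw2
    rw [wp'_half_eq_zero L hw] at h
    rw [Polynomial.mem_rootSet]
    refine ⟨hp, ?_⟩
    simp only [map_sub, map_mul, map_pow, Polynomial.aeval_X, Polynomial.aeval_C, map_ofNat]
    simp only [Algebra.algebraMap_self, RingHom.id_apply]
    linear_combination -h

/-- integral multiples -/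
theorem exists_mul_mem {B : Set ℂ} {G : AddSubgroup ℂ} (hB : B ⊆ G) {u : ℂ}
    (hu : u ∈ Submodule.span ℚ B) : ∃ n : ℕ, 0 < n ∧ (n : ℂ) * u ∈ G := by
  induction hu using Submodule.span_induction with
  | mem x hx => exact ⟨1, one_pos, by rw [Nat.cast_one, one_mul]; exact hB hx⟩
  | zero => exact ⟨1, one_pos, by rw [mul_zero]; exact zero_mem _⟩
  | add x y _ _ hx hy =>
    obtain ⟨n, hn, hx⟩ := hx
    obtain ⟨m, hm, hy⟩ := hy
    refine ⟨n * m, Nat.mul_pos hn hm, ?_⟩
    have h1 := add_mem (nsmul_mem hx m) (nsmul_mem hy n)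
    rw [nsmul_eq_mul, nsmul_eq_mul] at h1
    convert h1 using 1
    push_cast; ring
  | smul q x _ hx =>
    obtain ⟨n, hn, hx⟩ := hx
    refine ⟨q.den * n, Nat.mul_pos q.den_pos hn, ?_⟩
    have h1 := zsmul_mem hx q.num
    rw [zsmul_eq_mul] at h1
    convert h1 using 1
    rw [Rat.smul_def]
    have h4 : (q.den : ℂ) * (q : ℂ) = q.num := by
      exact_mod_cast congrArg (fun x : ℚ => (x : ℂ)) (Rat.den_mul_eq_num q)
    push_cast
    linear_combination (n * x) * h4

/-- **The elliptic logarithms of the algebraic points have infinite rank.** -/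
theorem EL_not_finite (h2 : IsAlgebraic ℚ L.g₂) (h3 : IsAlgebraic ℚ L.g₃)
    (S : Set ℂ) (hS : S.Finite) : ¬ EL L ⊆ (Submodule.span ℚ S : Set ℂ) := by
  classical
  intro hcon
  -- a finite set of generators
  have hfg : (Submodule.span ℚ (EL L)).FG := by
    have h4 : Module.Finite ℚ (Submodule.span ℚ S) := FiniteDimensional.span_of_finite ℚ hS
    have h5 : Module.Finite ℚ (Submodule.span ℚ (EL L)) :=
      Submodule.finiteDimensional_of_le (Submodule.span_le.2 hcon)
    exact Module.Finite.iff_fg.1 h5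
  obtain ⟨B, hB, hBs⟩ := (Submodule.fg_span_iff_fg_span_finset_subset _).1 hfg
  -- the number field
  set H : Set ℂ := {x : ℂ | ∃ w ∈ L.lattice, x = ℘[L] (w / 2)} with hH
  set B' : Finset ℂ := B.filter (fun u => u ∉ L.lattice) with hB'
  set S₀ : Set ℂ := {L.g₂, L.g₃} ∪ H ∪ (℘[L] '' (B' : Set ℂ)) ∪ (℘'[L] '' (B' : Set ℂ)) with hS₀
  have hS₀f : S₀.Finite := (((Set.toFinite _).union (half_finite L)).union
    (B'.finite_toSet.image _)).union (B'.finite_toSet.image _)
  have hB'a : ∀ u ∈ B', u ∉ L.lattice ∧ IsAlgebraic ℚ (℘[L] u) := by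
    intro u hu
    rw [hB', Finset.mem_filter] at hu
    exact ⟨hu.2, (hB hu.1).resolve_left hu.2⟩
  have hS₀a : ∀ x ∈ S₀, IsIntegral ℚ x := by
    rintro x (((hx | ⟨w, hw, rfl⟩) | ⟨u, hu, rfl⟩) | ⟨u, hu, rfl⟩)
    · rcases hx with rfl | rfl
      · exact h2.isIntegral
      · exact h3.isIntegral
    · exact (mem_QB.1 (half_mem_QB h2 h3 w hw)).isIntegral
    · exact (hB'a u hu).2.isIntegral
    · exact (wp'_alg h2 h3 (hB'a u hu).1 (hB'a u hu).2).isIntegral
  set K : IntermediateField ℚ ℂ := IntermediateField.adjoin ℚ S₀ with hK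
  have hKf : FiniteDimensional ℚ K := by
    have := hS₀f.to_subtype
    exact IntermediateField.finiteDimensional_adjoin hS₀a
  have hKn : NumberField K := { to_charZero := inferInstance, to_finiteDimensional := hKf }
  have hsub : S₀ ⊆ K := IntermediateField.subset_adjoin ℚ S₀
  have hg2 : L.g₂ ∈ K := hsub (Or.inl (Or.inl (Or.inl (Or.inl rfl))))
  have hg3 : L.g₃ ∈ K := hsub (Or.inl (Or.inl (Or.inl (Or.inr rfl))))
  have hh : HalfMem L K.toSubfield := fun w hw => hsub (Or.inl (Or.inl (Or.inr ⟨w, hw, rfl⟩)))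
  have hBG : (B : Set ℂ) ⊆ GKg L K.toSubfield hg2 hh := by
    intro u hu
    by_cases huL : u ∈ L.lattice
    · exact Or.inl huL
    · have hu' : u ∈ (B' : Set ℂ) := by
        rw [hB']
        simpa using ⟨hu, huL⟩
      exact Or.inr ⟨hsub (Or.inl (Or.inr ⟨u, hu', rfl⟩)), hsub (Or.inr ⟨u, hu', rfl⟩)⟩
  -- the valuation
  obtain ⟨w, hw2, hwn⟩ := exists_val K
  have h20 : (2 : K) ≠ 0 := two_ne_zero
  obtain ⟨C, hC1, hC⟩ := dup_val w hw2 h20 (⟨L.g₂, hg2⟩ : K) ⟨L.g₃, hg3⟩
  have hC0 : C ≠ 0 := (zero_lt_one.trans_le hC1).ne'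
  set n : ℤ := 2 * |WithZero.log C| + 1 with hn
  have hnodd : Odd n := ⟨_, rfl⟩
  obtain ⟨x, hx⟩ := hwn n
  have hCx : C < w x := by
    rw [hx, ← WithZero.exp_log hC0, WithZero.exp_lt_exp]
    have h4 := le_abs_self (WithZero.log C)
    have h5 := abs_nonneg (WithZero.log C)
    omega
  obtain ⟨u, huL, hux⟩ := exists_wp_eq L (x : ℂ)
  have htor : ∀ M : ℕ, 0 < M → (M : ℂ) * u ∉ L.lattice := fun M hM =>
    not_torsion w (g := ⟨L.g₂, hg2⟩) (h := ⟨L.g₃, hg3⟩) rfl rfl hC huL hux.symm hCx hM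
  obtain ⟨hc0, hcw, -⟩ := hC x hCx
  set c : K := 4 * x ^ 3 - ⟨L.g₂, hg2⟩ * x - ⟨L.g₃, hg3⟩ with hc
  have hsc : ℘'[L] u ^ 2 = (c : ℂ) := by
    rw [L.derivWeierstrassP_sq u huL, hux, hc]
    push_cast
    rfl
  have hsK : ℘'[L] u ∉ K := by
    intro hs
    exact not_square w h20 (y := ⟨℘'[L] u, hs⟩) hnodd hx hcw (Subtype.ext hsc)
  have huE : u ∈ EL L := by
    right
    rw [hux]
    have : IsAlgebraic ℚ x := Algebra.IsAlgebraic.isAlgebraic x
    exact this.algebraMap
  have huB : u ∈ Submodule.span ℚ (B : Set ℂ) := by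
    rw [← hBs]
    exact Submodule.subset_span huE
  obtain ⟨N, hN, hNu⟩ := exists_mul_mem hBG huB
  have huT : u ∈ Tw L K.toSubfield (℘'[L] u) := Or.inr ⟨by rw [hux]; exact x.2, 1, one_mem _,
    (mul_one _).symm⟩
  have hNT : (N : ℂ) * u ∈ Tw L K.toSubfield (℘'[L] u) :=
    Tw_nmul (by rw [hsc]; exact c.2) hg2 hh huT N
  have hNL := htor N hN
  have hy1 : ℘'[L] ((N : ℂ) * u) ∈ K := (hNu.resolve_left hNL).2
  obtain ⟨-, t, ht, hy2⟩ := hNT.resolve_left hNL
  have ht0 : t = 0 := by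
    by_contra ht0
    apply hsK
    have h4 : ℘'[L] u = ℘'[L] ((N : ℂ) * u) / t := by
      rw [hy2]
      field_simp
    rw [h4]
    exact div_mem hy1 ht
  rw [ht0, mul_zero] at hy2
  have h4 : 2 * ((N : ℂ) * u) ∈ L.lattice := by
    by_contra h5
    exact wp'_ne_zero L h5 hy2
  apply htor (2 * N) (by omega)
  push_cast
  rwa [mul_assoc]

end Pool.Agent.Helper71.ET
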