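import Mathlib
import Pool.Agent.Helper71.ET.Fin

/-!
# Changes of the indices
-/

set_option autoImplicit false

open scoped PeriodPair

noncomputable section

namespace Pool.Agent.Helper71.ET

open Pool.Agent.W245.EB

/-- change of the indices -/
def reC (s n : ℕ) : Fin s ⊕ (Fin n ⊕ Fin n) → (Unit × Fin s) ⊕ (Bool × Fin n) :=
  Sum.elim (fun l => Sum.inl ((), l)) (Sum.elim (fun l => Sum.inr (false, l))
    (fun l => Sum.inr (true, l)))

theorem reC_inj (s n : ℕ) : Function.Injective (reC s n) := by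
  rintro (a | a | a) (b | b | b) hab <;> simp_all [reC]

/-- change of the indices -/
def reQ (s n : ℕ) : Fin s ⊕ Fin n → (Unit × Fin s) ⊕ (Unit × Fin n) :=
  Sum.elim (fun l => Sum.inl ((), l)) (fun l => Sum.inr ((), l))

theorem reQ_inj (s n : ℕ) : Function.Injective (reQ s n) := by
  rintro (a | a) (b | b) hab <;> simp_all [reQ]

theorem otr_cm {L : PeriodPair} {D : ℕ} {P : Type} {Θ : P → ℂ} {s n : ℕ} {t : Fin s → ℂ}
    {p : Fin n → ℂ} {a₀ : ℂ} (ha₀ : a₀ ∈ QB)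
    (h : OTR Qb D Θ (Sum.elim (fun q : Unit × Fin s => t q.2)
      (fun q : Bool × Fin n => sB q.1 * zt L (p q.2) + rB a₀ q.1 * p q.2))) :
    OTR Qb D Θ (Sum.elim t (Sum.elim p (fun i => zt L (p i)))) := by
  have h5 := h.comp (f := reC s n) (reC_inj s n)
  have h6 : OTR Qb D Θ (Sum.elim t (Sum.elim p (fun i => zt L (p i) - a₀ * p i))) := by
    convert h5 using 1
    funext i
    rcases i with i | i | i
    · rfl
    · simp only [reC, Sum.elim_inr, Sum.elim_inl, Function.comp, sB, rB, cond_false]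
      ring
    · simp only [reC, Sum.elim_inr, Function.comp, sB, rB, cond_true]
      ring
  have h7 := h6.shear (⟨a₀, ha₀⟩ : Qb)
  have h8 : (fun i => zt L (p i)) = fun i => zt L (p i) - a₀ * p i +
      algebraMap Qb ℂ (⟨a₀, ha₀⟩ : Qb) * p i := by
    funext i
    have h9 : algebraMap Qb ℂ (⟨a₀, ha₀⟩ : Qb) = a₀ := rfl
    rw [h9, sub_add_cancel]
  rw [h8]
  exact h7

theorem otr_rat {L : PeriodPair} {D : ℕ} {P : Type} {Θ : P → ℂ} {s n : ℕ} {t : Fin s → ℂ}
    {p : Fin n → ℂ} {σ ρ : ℂ}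
    (h : OTR Qb D Θ (Sum.elim (fun q : Unit × Fin s => t q.2)
      (fun q : Unit × Fin n => σ * zt L (p q.2) + ρ * p q.2))) :
    OTR Qb D Θ (Sum.elim t (fun i => σ * zt L (p i) + ρ * p i)) := by
  have h5 := h.comp (f := reQ s n) (reQ_inj s n)
  convert h5 using 1
  funext i
  rcases i with i | i <;> rfl

theorem rat_semi {L : PeriodPair} (h2 : IsAlgebraic ℚ L.g₂) (h3 : IsAlgebraic ℚ L.g₃) {σ ρ : ℂ}
    (hσ : σ ∈ QB) (hF : MF L ℚ) (a : ℚ) (z : ℂ) (hz : z ∈ EL L) :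
    (σ * zt L (algebraMap ℚ ℂ a * z) + ρ * (algebraMap ℚ ℂ a * z)) -
      ((algebraMap ℚ Qb a : Qb) : ℂ) * (σ * zt L z + ρ * z) ∈ QB := by
  have h1 : algebraMap ℚ ℂ a * z ∈ EL L := by
    have := (elMod h2 h3 hF).smul_mem a hz
    rwa [Algebra.smul_def] at this
  have h4 := lin_semi h2 h3 (s := σ) (ρ := ρ) hσ (α := 0) (α' := 0)
    (fun z _ => by rw [zero_mul]; exact Or.inl (zero_mem _)) (by
      intro z _
      rw [zero_mul, zero_mul, zt_zero, mul_zero, mul_zero, add_zero, sub_zero]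
      exact zero_mem _) (β := algebraMap ℚ ℂ a) (n := a.den) (a := a.num) (b := 0) a.den_pos
    (by
      rw [eq_ratCast, mul_zero, add_zero]
      exact_mod_cast congrArg (fun x : ℚ => (x : ℂ)) (Rat.den_mul_eq_num a)) hz h1
  have h5 : ((a.num : ℂ) + ((0 : ℤ) : ℂ) * 0) / (a.den : ℂ) = ((algebraMap ℚ Qb a : Qb) : ℂ) := by
    have h6 : ((algebraMap ℚ Qb a : Qb) : ℂ) = algebraMap ℚ ℂ a := rfl
    rw [h6, eq_ratCast, mul_zero, add_zero]
    exact_mod_cast congrArg (fun x : ℚ => (x : ℂ)) (Rat.num_div_den a)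
  rw [h5] at h4
  exact h4

theorem notMem_of {L : PeriodPair} {n : ℕ} {p : Fin n → ℂ}
    (hpi : ∀ b : Fin n → ℚ, ∑ i, (b i : ℂ) * p i ∈ Submodule.span ℚ {L.ω₁, L.ω₂} → b = 0)
    (i : Fin n) : p i ∉ L.lattice := by
  classical
  intro hi
  have h5 := hpi (Pi.single i 1) (by
    rw [Finset.sum_eq_single i (fun b _ hb => by
      rw [Pi.single_eq_of_ne hb, Rat.cast_zero, zero_mul])
      (fun h => absurd (Finset.mem_univ _) h), Pi.single_eq_same, Rat.cast_one, one_mul]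
    exact mem_perQ.2 ⟨1, one_pos, by rwa [Nat.cast_one, one_mul]⟩)
  have h6 := congrFun h5 i
  rw [Pi.single_eq_same] at h6
  exact one_ne_zero h6

theorem rat_indep {L : PeriodPair} {n : ℕ} {p : Fin n → ℂ}
    (hpi : ∀ β : Fin n → ℂ, (∀ i, β i ∈ kL L) →
      ∑ i, β i * p i ∈ Submodule.span ℚ {L.ω₁, L.ω₂} → β = 0)
    (b : Fin n → ℚ) (h : ∑ i, (b i : ℂ) * p i ∈ Submodule.span ℚ {L.ω₁, L.ω₂}) : b = 0 := by
  have h1 := hpi (fun i => (b i : ℂ)) (fun i => by
    refine ⟨(b i).den, (b i).den_pos, fun w hw => ?_⟩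
    have h1 : (((b i).den : ℂ)) * (b i : ℂ) = (b i).num := by
      exact_mod_cast congrArg (fun x : ℚ => (x : ℂ)) (Rat.den_mul_eq_num (b i))
    rw [h1]
    exact zmul_mem hw _) h
  funext i
  have h4 : (b i : ℂ) = 0 := congrFun h1 i
  exact_mod_cast h4

end Pool.Agent.Helper71.ET
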